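import Mathlib

set_option autoImplicit false

open MeasureTheory
open scoped ENNReal ContDiff

namespace Pool.Agent.H411Z.HM

/-- Euclidean space `ℝ^n` with Lebesgue measure. -/
abbrev E (n : ℕ) : Type := EuclideanSpace ℝ (Fin n)

/-- `G` is the weak gradient of `u` on `ℝ^n`: both are locally integrable and
`∫ u ∂_v φ = - ∫ (G · v) φ` for every smooth compactly supported `φ` and every direction `v`. -/
def IsWeakGrad {n : ℕ} (u : E n → ℝ) (G : E n → E n) : Prop :=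
  LocallyIntegrable u volume ∧ LocallyIntegrable G volume ∧
    ∀ φ : E n → ℝ, ContDiff ℝ ∞ φ → HasCompactSupport φ → ∀ v : E n,
      ∫ x, u x * fderiv ℝ φ x v = - ∫ x, inner ℝ (G x) v * φ x

/-- `u` (the continuous representative) lies in `D^{1,p}_0(Ω)` and `G = Du`: the weak gradient is in
`L^p(ℝ^n)` and `u` vanishes at every point outside `Ω`. -/
def MemD0 {n : ℕ} (p : ℝ) (Ω : Set (E n)) (u : E n → ℝ) (G : E n → E n) : Prop :=
  Continuous u ∧ IsWeakGrad u G ∧ MemLp G (ENNReal.ofReal p) volume ∧ ∀ x, x ∉ Ω → u x = 0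

/-- the quotient `‖Du‖_p ^ p / ‖u / d_Ω ^ (1 - n / p)‖_{L^∞(Ω)} ^ p`, where `G = Du` and
`d_Ω x` is the distance from `x` to the complement of `Ω`. -/
noncomputable def rayleigh {n : ℕ} (p : ℝ) (Ω : Set (E n)) (u : E n → ℝ) (G : E n → E n) : ℝ≥0∞ :=
  (∫⁻ x, ‖G x‖ₑ ^ p) /
    (eLpNorm (fun x => u x / Metric.infDist x Ωᶜ ^ (1 - (n : ℝ) / p)) ⊤ (volume.restrict Ω)) ^ p

/-- the Hardy-Morrey constant `λ_p(Ω)`: the infimum of the quotient over the nonzero elements of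
`D^{1,p}_0(Ω)`. -/
noncomputable def lam {n : ℕ} (p : ℝ) (Ω : Set (E n)) : ℝ≥0∞ :=
  ⨅ (u : E n → ℝ) (G : E n → E n) (_ : MemD0 p Ω u G) (_ : u ≠ 0), rayleigh p Ω u G

/-- the open cone of half-opening angle `φ` about the last coordinate vector of `ℝ^(m+1)` -/
def cone (m : ℕ) (φ : ℝ) : Set (E (m + 1)) := {x | ‖x‖ * Real.cos φ < x (Fin.last m)}

/-- `u` is an extremal of the Hardy-Morrey inequality on `Ω`. -/
def IsExtremal {n : ℕ} (p : ℝ) (Ω : Set (E n)) (u : E n → ℝ) : Prop :=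
  u ≠ 0 ∧ ∃ G : E n → E n, MemD0 p Ω u G ∧ rayleigh p Ω u G = lam p Ω

end Pool.Agent.H411Z.HM
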