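import Mathlib
import Pool.Agent.Helper930.LipWD

set_option autoImplicit false
set_option linter.unusedSectionVars false
set_option linter.unusedVariables false

open Set Filter Topology MeasureTheory Metric
open scoped ContDiff NNReal ENNReal

namespace Pool.Agent.H411Z.HM

open Pool.Agent.Helper930.WD

variable {V : Type*} [NormedAddCommGroup V] [InnerProductSpace ℝ V] [FiniteDimensional ℝ V]
  [MeasurableSpace V] [BorelSpace V]

/-- the `p`-energy of a field of linear forms -/
noncomputable def En (p : ℝ) (D : V → V →L[ℝ] ℝ) : ℝ≥0∞ := ∫⁻ x, ‖D x‖ₑ ^ p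

lemma integrable_moll {F : Type*} [NormedAddCommGroup F] [NormedSpace ℝ F] {φ : V → ℝ}
    (hφ : Continuous φ) (hc : HasCompactSupport φ) {f : V → F}
    (hf : LocallyIntegrable f volume) (z : V) : Integrable (fun w => φ (z - w) • f w) volume := by
  have h1 : Continuous (fun w => φ (z - w)) := hφ.comp (continuous_const.sub continuous_id)
  have h2 : HasCompactSupport (fun w => φ (z - w)) :=
    hc.comp_homeomorph (Homeomorph.subLeft z)
  exact hf.integrable_smul_left_of_hasCompactSupport h1 h2

lemma hasFDerivAt_moll {u : V → ℝ} {D : V → V →L[ℝ] ℝ} (hD : WeakDerivOn univ u D)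
    {φ : V → ℝ} (hφ : ContDiff ℝ ∞ φ) (hc : HasCompactSupport φ) (z : V) :
    HasFDerivAt (moll φ u) (moll φ D z) z := by
  obtain ⟨A, hA, hAv⟩ := moll_hasFDerivAt hφ hc (locallyIntegrableOn_univ.1 hD.1) z
  obtain ⟨r, hr⟩ := hc.isCompact.isBounded.subset_closedBall (0 : V)
  have : A = moll φ D z := by
    ext v
    rw [hAv, moll_weak hD hφ hc hr (subset_univ _) (fun _ _ => rfl) v]
    unfold moll
    rw [ContinuousLinearMap.integral_apply
      (integrable_moll hφ.continuous hc (locallyIntegrableOn_univ.1 hD.2.1) z)]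
    rfl
  rwa [this] at hA

lemma en_moll_le {p : ℝ} (hp : 1 < p) {D : V → V →L[ℝ] ℝ} (hD : AEStronglyMeasurable D volume)
    {φ : V → ℝ} (hφ : Continuous φ) (h0 : ∀ x, 0 ≤ φ x) (hi : Integrable φ volume)
    (h1 : ∫ x, φ x = 1) : En p (moll φ D) ≤ En p D := by
  have hpq : p.HolderConjugate (Real.conjExponent p) := Real.HolderConjugate.conjExponent hp
  set q := Real.conjExponent p with hq
  have hp0 : 0 < p := by linarith
  have hq0 : 0 < q := hpq.symm.pos
  set ψ : V → ℝ≥0∞ := fun x => ENNReal.ofReal (φ x) with hψ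
  have hψm : Measurable ψ := hφ.measurable.ennreal_ofReal
  have hψ1 : ∫⁻ x, ψ x = 1 := by
    rw [hψ, ← ofReal_integral_eq_lintegral_ofReal hi (Eventually.of_forall h0), h1]; simp
  have hψz : ∀ z, ∫⁻ w, ψ (z - w) = 1 := fun z => by
    rw [lintegral_sub_left_eq_self ψ z, hψ1]
  have hψw : ∀ w, ∫⁻ z, ψ (z - w) = 1 := fun w => by
    rw [lintegral_sub_right_eq_self ψ w, hψ1]
  set g : V → ℝ≥0∞ := fun w => ‖D w‖ₑ with hg
  have hgm : AEMeasurable g volume := hD.enorm
  have key : ∀ z, ‖moll φ D z‖ₑ ^ p ≤ ∫⁻ w, ψ (z - w) * g w ^ p := by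
    intro z
    have hm : Measurable (fun w => ψ (z - w)) := hψm.comp (measurable_const.sub measurable_id)
    have e1 : ‖moll φ D z‖ₑ ≤ ∫⁻ w, ψ (z - w) * g w := by
      refine (enorm_integral_le_lintegral_enorm _).trans (le_of_eq ?_)
      congr 1
      funext w
      rw [enorm_smul, Real.enorm_eq_ofReal (h0 _)]
    have e2 : ∫⁻ w, ψ (z - w) * g w ≤ (∫⁻ w, ψ (z - w) * g w ^ p) ^ (1 / p) := by
      have h := ENNReal.lintegral_mul_le_Lp_mul_Lq volume hpq
        (f := fun w => ψ (z - w) ^ (1 / p) * g w) (g := fun w => ψ (z - w) ^ (1 / q))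
        ((hm.pow_const _).aemeasurable.mul hgm) (hm.pow_const _).aemeasurable
      have a1 : ∀ w, ((fun w => ψ (z - w) ^ (1 / p) * g w) * fun w => ψ (z - w) ^ (1 / q)) w
          = ψ (z - w) * g w := by
        intro w
        simp only [Pi.mul_apply]
        rw [mul_right_comm, ← ENNReal.rpow_add_of_nonneg _ _ (by positivity) (by positivity)]
        have : 1 / p + 1 / q = 1 := by
          have := hpq.inv_add_inv_eq_one
          simpa [one_div] using this
        rw [this, ENNReal.rpow_one]
      have a2 : ∀ w, (ψ (z - w) ^ (1 / p) * g w) ^ p = ψ (z - w) * g w ^ p := by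
        intro w
        rw [ENNReal.mul_rpow_of_nonneg _ _ hp0.le, ← ENNReal.rpow_mul, one_div_mul_cancel hp0.ne',
          ENNReal.rpow_one]
      have a3 : ∀ w, (ψ (z - w) ^ (1 / q)) ^ q = ψ (z - w) := by
        intro w
        rw [← ENNReal.rpow_mul, one_div_mul_cancel hq0.ne', ENNReal.rpow_one]
      simp only [a1, a2, a3, hψz, ENNReal.one_rpow, mul_one] at h
      exact h
    calc ‖moll φ D z‖ₑ ^ p ≤ ((∫⁻ w, ψ (z - w) * g w ^ p) ^ (1 / p)) ^ p :=
          ENNReal.rpow_le_rpow (e1.trans e2) hp0.le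
      _ = _ := by rw [← ENNReal.rpow_mul, one_div_mul_cancel hp0.ne', ENNReal.rpow_one]
  have hmm : AEMeasurable (Function.uncurry fun z w => ψ (z - w) * g w ^ p)
      ((volume : Measure V).prod volume) := by
    have b1 : Measurable (fun a : V × V => ψ (a.1 - a.2)) :=
      hψm.comp (measurable_fst.sub measurable_snd)
    have b2 : AEMeasurable (fun a : V × V => g a.2 ^ p) ((volume : Measure V).prod volume) :=
      (hgm.pow_const p).comp_snd
    exact b1.aemeasurable.mul b2
  calc En p (moll φ D) ≤ ∫⁻ z, ∫⁻ w, ψ (z - w) * g w ^ p := lintegral_mono key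
    _ = ∫⁻ w, ∫⁻ z, ψ (z - w) * g w ^ p := lintegral_lintegral_swap hmm
    _ = ∫⁻ w, g w ^ p := by
        congr 1
        funext w
        have hm : Measurable (fun z => ψ (z - w)) := hψm.comp (measurable_id.sub measurable_const)
        rw [lintegral_mul_const _ hm, hψw, one_mul]
    _ = En p D := rfl

/-- a standard sequence of bumps -/
noncomputable def bump (k : ℕ) : ContDiffBump (0 : V) :=
  ⟨1 / (2 * ((k : ℝ) + 1)), 1 / ((k : ℝ) + 1), by positivity, by
    apply one_div_lt_one_div_of_lt
    · positivity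
    · have : (0 : ℝ) < (k : ℝ) + 1 := by positivity
      linarith⟩

/-- the normalised bumps -/
noncomputable def rho (k : ℕ) : V → ℝ := (bump (V := V) k).normed volume

lemma rho_smooth (k : ℕ) : ContDiff ℝ ∞ (rho (V := V) k) := (bump k).contDiff_normed
lemma rho_cs (k : ℕ) : HasCompactSupport (rho (V := V) k) := (bump k).hasCompactSupport_normed
lemma rho_nonneg (k : ℕ) (x : V) : 0 ≤ rho k x := (bump k).nonneg_normed x
lemma rho_int (k : ℕ) : ∫ x : V, rho k x = 1 := (bump k).integral_normed
lemma rho_integrable (k : ℕ) : Integrable (rho (V := V) k) volume := (bump k).integrable_normed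

lemma bump_tendsto : Tendsto (fun k => (bump (V := V) k).rOut) atTop (𝓝 0) :=
  tendsto_one_div_add_atTop_nhds_zero_nat

lemma en_fderiv_moll_le {p : ℝ} (hp : 1 < p) {u : V → ℝ} {D : V → V →L[ℝ] ℝ}
    (hD : WeakDerivOn univ u D) (k : ℕ) : En p (fderiv ℝ (moll (rho k) u)) ≤ En p D := by
  have : fderiv ℝ (moll (rho k) u) = moll (rho k) D :=
    funext fun z => (hasFDerivAt_moll hD (rho_smooth k) (rho_cs k) z).fderiv
  rw [this]
  exact en_moll_le hp (locallyIntegrableOn_univ.1 hD.2.1).aestronglyMeasurable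
    (rho_smooth k).continuous (rho_nonneg k) (rho_integrable k) (rho_int k)

lemma lip_weak {u : V → ℝ} {L : ℝ≥0} (hu : LipschitzWith L u) :
    WeakDerivOn univ u (fderiv ℝ u) :=
  weakDeriv_of_lip isOpen_univ fun K _ _ =>
    ⟨univ, isOpen_univ, subset_univ _, L, hu.lipschitzOnWith⟩

/-- Fatou for energies -/
lemma en_le_of_ae_tendsto {p : ℝ} (hp : 0 < p) {D : ℕ → V → V →L[ℝ] ℝ} {D' : V → V →L[ℝ] ℝ}
    {A : ℝ≥0∞} (hm : ∀ k, AEStronglyMeasurable (D k) volume)
    (hl : ∀ᵐ x, Tendsto (fun k => D k x) atTop (𝓝 (D' x))) (hA : ∀ k, En p (D k) ≤ A) :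
    En p D' ≤ A := by
  have h1 : En p D' = ∫⁻ x, liminf (fun k => ‖D k x‖ₑ ^ p) atTop := by
    apply lintegral_congr_ae
    filter_upwards [hl] with x hx
    have : Tendsto (fun k => ‖D k x‖ₑ ^ p) atTop (𝓝 (‖D' x‖ₑ ^ p)) :=
      (ENNReal.continuous_rpow_const.tendsto _).comp hx.enorm
    exact this.liminf_eq.symm
  rw [h1]
  refine (lintegral_liminf_le' (fun k => (hm k).enorm.pow_const p)).trans ?_
  exact liminf_le_of_frequently_le' (Frequently.of_forall hA)

/-- lower semicontinuity of the energy along pointwise limits of bounded equi-Lipschitz maps -/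
lemma en_lsc {p : ℝ} (hp : 1 < p) {L : ℝ≥0} {M : ℝ} {v : ℕ → V → ℝ} {u : V → ℝ} {A : ℝ≥0∞}
    (hv : ∀ k, LipschitzWith L (v k)) (hM : ∀ k x, |v k x| ≤ M) (hu : LipschitzWith L u)
    (hl : ∀ x, Tendsto (fun k => v k x) atTop (𝓝 (u x)))
    (hA : ∀ k, En p (fderiv ℝ (v k)) ≤ A) : En p (fderiv ℝ u) ≤ A := by
  have hp0 : 0 < p := by linarith
  have step : ∀ j, En p (moll (rho j) (fderiv ℝ u)) ≤ A := by
    intro j
    apply en_le_of_ae_tendsto hp0 (D := fun k => fderiv ℝ (moll (rho j) (v k)))
    · intro k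
      exact (measurable_fderiv ℝ _).aestronglyMeasurable
    · refine Eventually.of_forall fun z => ?_
      rw [← (hasFDerivAt_moll (lip_weak hu) (rho_smooth j) (rho_cs j) z).fderiv]
      have hcf : Continuous (fderiv ℝ (rho (V := V) j)) :=
        (rho_smooth j).continuous_fderiv (by norm_num)
      have hcs : HasCompactSupport (fderiv ℝ (rho (V := V) j)) := (rho_cs j).fderiv (𝕜 := ℝ)
      have form : ∀ {f : V → ℝ}, Continuous f →
          fderiv ℝ (moll (rho j) f) z = ∫ w, f w • fderiv ℝ (rho (V := V) j) (z - w) := by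
        intro f hf
        obtain ⟨B, hB, hBv⟩ := moll_hasFDerivAt (rho_smooth j) (rho_cs j) hf.locallyIntegrable z
        rw [hB.fderiv]
        ext e
        rw [hBv, ContinuousLinearMap.integral_apply]
        · congr 1
          funext w
          simp [mul_comm]
        · exact (hf.smul (hcf.comp (continuous_const.sub continuous_id))).integrable_of_hasCompactSupport
            (hcs.comp_homeomorph (Homeomorph.subLeft z)).smul_left
      simp only [form hu.continuous, form (hv _).continuous]
      refine tendsto_integral_of_dominated_convergence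
        (fun w => M * ‖fderiv ℝ (rho (V := V) j) (z - w)‖) ?_ ?_ ?_ ?_
      · intro k
        exact ((hv k).continuous.smul
          (hcf.comp (continuous_const.sub continuous_id))).aestronglyMeasurable
      · apply Integrable.const_mul
        exact ((hcf.comp (continuous_const.sub continuous_id)).integrable_of_hasCompactSupport
          (hcs.comp_homeomorph (Homeomorph.subLeft z))).norm
      · intro k
        refine Eventually.of_forall fun w => ?_
        rw [norm_smul]
        exact mul_le_mul_of_nonneg_right (hM k w) (norm_nonneg _)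
      · exact Eventually.of_forall fun w => (hl w).smul_const _
    · intro k
      exact (en_fderiv_moll_le hp (lip_weak (hv k)) j).trans (hA k)
  have hloc : LocallyIntegrable (fderiv ℝ u) volume := locallyIntegrableOn_univ.1 (lip_weak hu).2.1
  apply en_le_of_ae_tendsto hp0 (D := fun j => moll (rho j) (fderiv ℝ u)) _ _ step
  · intro j
    have : moll (rho j) (fderiv ℝ u) = fderiv ℝ (moll (rho j) u) :=
      funext fun z => (hasFDerivAt_moll (lip_weak hu) (rho_smooth j) (rho_cs j) z).fderiv.symm
    rw [this]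
    exact (measurable_fderiv ℝ _).aestronglyMeasurable
  · have := ContDiffBump.ae_convolution_tendsto_right_of_locallyIntegrable (μ := volume)
      (φ := bump (V := V)) (K := 2) bump_tendsto (Eventually.of_forall fun k => by
        unfold bump
        simp only
        apply le_of_eq
        field_simp) hloc
    filter_upwards [this] with x hx
    simpa only [convolution_eq_moll, rho] using hx

end Pool.Agent.H411Z.HM
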