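import Mathlib
import Pool.Agent.H411Z.HM.Moll
import Pool.Agent.H411Z.HM.Defs

set_option autoImplicit false
set_option linter.unusedSectionVars false
set_option linter.unusedVariables false

open Set Filter Topology MeasureTheory Metric
open scoped ContDiff NNReal ENNReal

namespace Pool.Agent.H411Z.HM

open Pool.Agent.Helper930.WD

section general

variable {V : Type*} [NormedAddCommGroup V] [InnerProductSpace ℝ V] [FiniteDimensional ℝ V]
  [MeasurableSpace V] [BorelSpace V]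

lemma en_trunc_le {p : ℝ} (hp : 0 < p) {f : V → ℝ} (hf : Continuous f) (ε : ℝ) :
    En p (fderiv ℝ fun x => max (f x - ε) 0) ≤ En p (fderiv ℝ f) := by
  apply lintegral_mono
  intro x
  apply ENNReal.rpow_le_rpow _ hp.le
  by_cases hx : ε < f x
  · have : (fun x => max (f x - ε) 0) =ᶠ[𝓝 x] fun x => f x - ε := by
      filter_upwards [hf.continuousAt.eventually (lt_mem_nhds hx)] with y hy
      exact max_eq_left (by linarith)
    rw [this.fderiv_eq, fderiv_sub_const]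
  · have : IsLocalMin (fun x => max (f x - ε) 0) x :=
      Eventually.of_forall fun y => by
        simp only [max_eq_right (show f x - ε ≤ 0 by linarith [not_lt.1 hx])]
        exact le_max_right _ _
    rw [this.fderiv_eq_zero, ← ofReal_norm, norm_zero, ENNReal.ofReal_zero]
    exact bot_le

/-- approximation of a compactly supported Sobolev function from below by Lipschitz functions -/
lemma exists_lip_approx {p : ℝ} (hp : 1 < p) {u : V → ℝ} {D : V → V →L[ℝ] ℝ}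
    (hD : WeakDerivOn univ u D) (hu : Continuous u) (hc : HasCompactSupport u) {ε : ℝ}
    (hε : 0 < ε) : ∃ (w : V → ℝ) (L : ℝ≥0), LipschitzWith L w ∧ (∀ x, 0 ≤ w x) ∧
      (∀ x, w x ≤ max (u x) 0) ∧ (∀ x, u x - ε ≤ w x) ∧ En p (fderiv ℝ w) ≤ En p D := by
  have huc : UniformContinuous u := hc.uniformContinuous_of_continuous hu
  obtain ⟨δ, hδ, hδu⟩ := Metric.uniformContinuous_iff.1 huc (ε / 2) (by positivity)
  obtain ⟨k, hk⟩ := ((bump_tendsto (V := V)).eventually (gt_mem_nhds hδ)).exists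
  set f := moll (rho k) u with hf
  have hfc : f = MeasureTheory.convolution (rho k) u (ContinuousLinearMap.lsmul ℝ ℝ) volume :=
    funext fun z => (convolution_eq_moll _ _ z).symm
  have hclose : ∀ x, dist (f x) (u x) ≤ ε / 2 := by
    intro x
    rw [hfc]
    apply (bump k).dist_normed_convolution_le hu.aestronglyMeasurable
    intro y hy
    exact (hδu ((mem_ball.1 hy).trans hk)).le
  have hsm : ContDiff ℝ 1 f := by
    rw [hfc]
    exact (rho_cs k).contDiff_convolution_left _ ((rho_smooth k).of_le (by norm_num))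
      hu.locallyIntegrable
  have hcs : HasCompactSupport f := by
    rw [hfc]
    exact (rho_cs k).convolution _ hc
  obtain ⟨L, hL⟩ := ContDiff.lipschitzWith_of_hasCompactSupport hcs hsm (by norm_num)
  refine ⟨fun x => max (f x - ε / 2) 0, L, ?_, fun x => le_max_right _ _, fun x => ?_,
    fun x => ?_, ?_⟩
  · have h1 : LipschitzWith L fun x => f x - ε / 2 := by
      apply LipschitzWith.of_dist_le_mul
      intro x y
      rw [dist_sub_right]
      exact hL.dist_le_mul x y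
    exact h1.max_const 0
  · have := abs_le.1 ((Real.dist_eq _ _) ▸ hclose x)
    exact max_le_max (by linarith [this.2]) le_rfl
  · have := abs_le.1 ((Real.dist_eq _ _) ▸ hclose x)
    exact le_max_of_le_left (by linarith [this.1])
  · exact (en_trunc_le (by linarith) hsm.continuous _).trans (en_fderiv_moll_le hp hD k)

lemma en_translate (p : ℝ) (w : V → ℝ) (a : V) :
    En p (fderiv ℝ fun x => w (x + a)) = En p (fderiv ℝ w) := by
  unfold En
  rw [← lintegral_add_right_eq_self (fun x => ‖fderiv ℝ w x‖ₑ ^ p) a]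
  congr 1
  funext x
  rw [fderiv_comp_add_right]

lemma WeakDerivOn.neg' {u : V → ℝ} {D : V → V →L[ℝ] ℝ} (hD : WeakDerivOn univ u D) :
    WeakDerivOn univ (fun x => -u x) (fun x => -D x) := by
  refine ⟨hD.1.neg, hD.2.1.neg, fun φ h1 h2 h3 v => ?_⟩
  have := hD.2.2 φ h1 h2 h3 v
  simp only [smul_neg, neg_apply, integral_neg, this]

lemma en_neg (p : ℝ) (D : V → V →L[ℝ] ℝ) : En p (fun x => -D x) = En p D := by
  unfold En
  simp only [enorm_neg]

lemma essSup_eq_iSup {Ω : Set V} (hΩ : IsOpen Ω) {g : V → ℝ} (hg : ContinuousOn g Ω) :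
    eLpNorm g ⊤ (volume.restrict Ω) = ⨆ x ∈ Ω, ‖g x‖ₑ := by
  rw [eLpNorm_exponent_top]
  apply le_antisymm
  · apply eLpNormEssSup_le_of_ae_enorm_bound
    filter_upwards [ae_restrict_mem hΩ.measurableSet] with x hx
    exact le_iSup₂ (f := fun x (_ : x ∈ Ω) => ‖g x‖ₑ) x hx
  · refine iSup₂_le fun x hx => ?_
    by_contra hcon
    have hlt := not_le.1 hcon
    have h1 : ∀ᵐ y ∂(volume.restrict Ω), ‖g y‖ₑ ≤ eLpNormEssSup g (volume.restrict Ω) :=
      ae_le_eLpNormEssSup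
    have h2 : ∀ᶠ y in 𝓝 x, eLpNormEssSup g (volume.restrict Ω) < ‖g y‖ₑ :=
      (hg.continuousAt (hΩ.mem_nhds hx)).enorm.eventually (lt_mem_nhds hlt)
    obtain ⟨U, hU, hUo, hxU⟩ := _root_.eventually_nhds_iff.1 (h2.and (hΩ.mem_nhds hx))
    rw [ae_restrict_iff' hΩ.measurableSet] at h1
    have h3 : volume U = 0 := by
      apply measure_mono_null _ (ae_iff.1 h1)
      intro y hy hy'
      exact absurd (hy' (hU y hy).2) (not_le.2 (hU y hy).1)
    exact (hUo.measure_pos volume ⟨x, hxU⟩).ne' h3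

end general

variable {n : ℕ}

lemma IsWeakGrad.weak {u : E n → ℝ} {G : E n → E n} (h : IsWeakGrad u G) :
    WeakDerivOn univ u (fun x => innerSL ℝ (G x)) := by
  refine ⟨locallyIntegrableOn_univ.2 h.1, locallyIntegrableOn_univ.2 ?_, fun φ h1 h2 _ v => ?_⟩
  · intro x
    obtain ⟨s, hs, hi⟩ := h.2.1 x
    exact ⟨s, hs, (innerSL ℝ (E := E n)).integrable_comp hi⟩
  · have := h.2.2 φ h1 h2 v
    simp only [smul_eq_mul, innerSL_apply_apply, mul_comm (φ _), mul_comm (fderiv ℝ φ _ v)]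
    exact this

lemma en_innerSL (p : ℝ) (G : E n → E n) :
    En p (fun x => innerSL ℝ (G x)) = ∫⁻ x, ‖G x‖ₑ ^ p := by
  unfold En
  congr 1
  funext x
  rw [← ofReal_norm, innerSL_apply_norm, ofReal_norm]

lemma isWeakGrad_of_weak {u : E n → ℝ} {D : E n → E n →L[ℝ] ℝ} (h : WeakDerivOn univ u D) :
    IsWeakGrad u (fun x => (InnerProductSpace.toDual ℝ (E n)).symm (D x)) := by
  refine ⟨locallyIntegrableOn_univ.1 h.1, ?_, fun φ h1 h2 v => ?_⟩
  · intro x
    obtain ⟨s, hs, hi⟩ := locallyIntegrableOn_univ.1 h.2.1 x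
    refine ⟨s, hs, Integrable.mono' hi.norm ?_ (Eventually.of_forall fun y => ?_)⟩
    · exact (InnerProductSpace.toDual ℝ (E n)).symm.continuous.comp_aestronglyMeasurable hi.1
    · rw [LinearIsometryEquiv.norm_map]
  · have := h.2.2 φ h1 h2 (subset_univ _) v
    simp only [smul_eq_mul, mul_comm (φ _), mul_comm (fderiv ℝ φ _ v)] at this
    simp only [InnerProductSpace.toDual_symm_apply]
    exact this

lemma lintegral_toDual_symm (p : ℝ) (D : E n → E n →L[ℝ] ℝ) :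
    ∫⁻ x, ‖(InnerProductSpace.toDual ℝ (E n)).symm (D x)‖ₑ ^ p = En p D := by
  unfold En
  congr 1
  funext x
  rw [← ofReal_norm, LinearIsometryEquiv.norm_map, ofReal_norm]

lemma memLp_iff_lintegral {p : ℝ} (hp : 0 < p) {G : E n → E n}
    (hG : AEStronglyMeasurable G volume) :
    MemLp G (ENNReal.ofReal p) volume ↔ ∫⁻ x, ‖G x‖ₑ ^ p < ⊤ := by
  rw [MemLp, eLpNorm_lt_top_iff_lintegral_rpow_enorm_lt_top (by simpa using hp) (by simp),
    ENNReal.toReal_ofReal hp.le]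
  exact ⟨fun h => h.2, fun h => ⟨hG, h⟩⟩

lemma memD0_of_weak {p : ℝ} (hp : 0 < p) {Ω : Set (E n)} {u : E n → ℝ} {D : E n → E n →L[ℝ] ℝ}
    (hu : Continuous u) (h : WeakDerivOn univ u D) (hE : En p D < ⊤) (h0 : ∀ x, x ∉ Ω → u x = 0) :
    MemD0 p Ω u (fun x => (InnerProductSpace.toDual ℝ (E n)).symm (D x)) := by
  refine ⟨hu, isWeakGrad_of_weak h, ?_, h0⟩
  rw [memLp_iff_lintegral hp (isWeakGrad_of_weak h).2.1.aestronglyMeasurable, lintegral_toDual_symm]
  exact hE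

/-- the pointwise quotient -/
noncomputable def rat (p : ℝ) (Ω : Set (E n)) (x : E n) (t : ℝ) : ℝ≥0∞ :=
  ‖t / infDist x Ωᶜ ^ (1 - (n : ℝ) / p)‖ₑ ^ p

lemma infDist_pos {Ω : Set (E n)} (hΩ : IsOpen Ω) (hne : Ωᶜ.Nonempty) {x : E n} (hx : x ∈ Ω) :
    0 < infDist x Ωᶜ :=
  (hΩ.isClosed_compl.notMem_iff_infDist_pos hne).1 (fun h => h hx)

lemma sup_pow_eq {p : ℝ} (hp : 0 < p) {Ω : Set (E n)} (hΩ : IsOpen Ω) (hne : Ωᶜ.Nonempty)
    {u : E n → ℝ} (hu : Continuous u) :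
    (eLpNorm (fun x => u x / infDist x Ωᶜ ^ (1 - (n : ℝ) / p)) ⊤ (volume.restrict Ω)) ^ p =
      ⨆ x ∈ Ω, rat p Ω x (u x) := by
  rw [essSup_eq_iSup hΩ]
  · have h := (ENNReal.orderIsoRpow p hp).map_iSup₂
      (fun x (_ : x ∈ Ω) => ‖u x / infDist x Ωᶜ ^ (1 - (n : ℝ) / p)‖ₑ)
    simpa only [ENNReal.orderIsoRpow_apply, rat] using h
  · apply hu.continuousOn.div
    · exact (continuous_infDist_pt _).continuousOn.rpow_const
        fun x hx => Or.inl (infDist_pos hΩ hne hx).ne'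
    · intro x hx
      exact (Real.rpow_pos_of_pos (infDist_pos hΩ hne hx) _).ne'

lemma rat_ne_top {p : ℝ} (hp : 0 < p) (Ω : Set (E n)) (x : E n) (t : ℝ) : rat p Ω x t ≠ ⊤ :=
  ENNReal.rpow_ne_top_of_nonneg hp.le enorm_ne_top

lemma rat_ne_zero {p : ℝ} (hp : 0 < p) {Ω : Set (E n)} (hΩ : IsOpen Ω) (hne : Ωᶜ.Nonempty)
    {x : E n} (hx : x ∈ Ω) {t : ℝ} (ht : t ≠ 0) : rat p Ω x t ≠ 0 := by
  unfold rat
  have : t / infDist x Ωᶜ ^ (1 - (n : ℝ) / p) ≠ 0 :=
    div_ne_zero ht (Real.rpow_pos_of_pos (infDist_pos hΩ hne hx) _).ne'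
  simp [this, hp]

/-- the Hardy-Morrey inequality at one point -/
lemma lam_mul_rat_le {p : ℝ} (hp : 0 < p) {Ω : Set (E n)} (hΩ : IsOpen Ω) (hne : Ωᶜ.Nonempty)
    {u : E n → ℝ} {G : E n → E n} (h : MemD0 p Ω u G) {x : E n} (hx : x ∈ Ω) :
    lam p Ω * rat p Ω x (u x) ≤ ∫⁻ x, ‖G x‖ₑ ^ p := by
  by_cases hux : u x = 0
  · simp [rat, hux, hp]
  have hu0 : u ≠ 0 := fun h0 => hux (by rw [h0]; rfl)
  have h1 : lam p Ω ≤ rayleigh p Ω u G :=
    iInf_le_of_le u (iInf_le_of_le G (iInf_le_of_le h (iInf_le_of_le hu0 le_rfl)))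
  have h2 : rayleigh p Ω u G ≤ (∫⁻ x, ‖G x‖ₑ ^ p) / rat p Ω x (u x) := by
    unfold rayleigh
    rw [sup_pow_eq hp hΩ hne h.1]
    exact ENNReal.div_le_div_left (le_iSup₂ (f := fun x (_ : x ∈ Ω) => rat p Ω x (u x)) x hx) _
  exact (ENNReal.le_div_iff_mul_le (Or.inl (rat_ne_zero hp hΩ hne hx hux))
    (Or.inl (rat_ne_top hp Ω x _))).1 (h1.trans h2)

lemma le_rayleigh {p : ℝ} (hp : 0 < p) {Ω : Set (E n)} (hΩ : IsOpen Ω) (hne : Ωᶜ.Nonempty)
    {u : E n → ℝ} {G : E n → E n} (h : MemD0 p Ω u G) (hu : u ≠ 0) {l : ℝ≥0∞}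
    (hl : ∀ x ∈ Ω, l * rat p Ω x (u x) ≤ ∫⁻ x, ‖G x‖ₑ ^ p) : l ≤ rayleigh p Ω u G := by
  unfold rayleigh
  rw [sup_pow_eq hp hΩ hne h.1]
  obtain ⟨x, hx⟩ := Function.ne_iff.1 hu
  have hxΩ : x ∈ Ω := by
    by_contra hcon
    exact hx (h.2.2.2 x hcon)
  have h0 : (⨆ x ∈ Ω, rat p Ω x (u x)) ≠ 0 := by
    intro h0
    have := le_iSup₂ (f := fun x (_ : x ∈ Ω) => rat p Ω x (u x)) x hxΩ
    rw [h0] at this
    exact rat_ne_zero hp hΩ hne hxΩ hx (le_antisymm this bot_le)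
  rw [ENNReal.le_div_iff_mul_le (Or.inl h0)
    (Or.inr ((memLp_iff_lintegral hp h.2.2.1.1).1 h.2.2.1).ne)]
  simp only [ENNReal.mul_iSup]
  exact iSup₂_le hl

lemma le_lam {p : ℝ} (hp : 0 < p) {Ω : Set (E n)} (hΩ : IsOpen Ω) (hne : Ωᶜ.Nonempty) {l : ℝ≥0∞}
    (hl : ∀ u G, MemD0 p Ω u G → ∀ x ∈ Ω, l * rat p Ω x (u x) ≤ ∫⁻ x, ‖G x‖ₑ ^ p) :
    l ≤ lam p Ω :=
  le_iInf fun u => le_iInf fun G => le_iInf fun h => le_iInf fun hu =>
    le_rayleigh hp hΩ hne h hu (hl u G h)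

/-- for bounded `Ω` it is enough to test nonnegative Lipschitz functions -/
lemma mul_rat_le_of_lip {p : ℝ} (hp : 1 < p) {Ω : Set (E n)} (hb : Bornology.IsBounded Ω)
    {l : ℝ≥0∞} {x : E n}
    (hl : ∀ (w : E n → ℝ) (L : ℝ≥0), LipschitzWith L w → (∀ y, 0 ≤ w y) → (∀ y, y ∉ Ω → w y = 0) →
      l * rat p Ω x (w x) ≤ En p (fderiv ℝ w))
    {u : E n → ℝ} {G : E n → E n} (h : MemD0 p Ω u G) :
    l * rat p Ω x (u x) ≤ ∫⁻ x, ‖G x‖ₑ ^ p := by
  have hp0 : 0 < p := by linarith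
  have key : ∀ (u : E n → ℝ) (D : E n → E n →L[ℝ] ℝ), Continuous u → WeakDerivOn univ u D →
      (∀ y, y ∉ Ω → u y = 0) → 0 < u x → l * rat p Ω x (u x) ≤ En p D := by
    intro u D hu hD h0 hx
    have hc : HasCompactSupport u :=
      HasCompactSupport.intro hb.isCompact_closure fun y hy => h0 y fun h => hy (subset_closure h)
    choose w L hL hw0 hw1 hw2 hw3 using fun k : ℕ =>
      exists_lip_approx hp hD hu hc (ε := 1 / ((k : ℝ) + 1)) (by positivity)
    have t1 : Tendsto (fun k => w k x) atTop (𝓝 (u x)) := by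
      apply tendsto_of_tendsto_of_tendsto_of_le_of_le (g := fun k : ℕ => u x - 1 / ((k : ℝ) + 1))
        (h := fun _ => u x) _ tendsto_const_nhds (fun k => hw2 k x)
        (fun k => (hw1 k x).trans (max_eq_left hx.le).le)
      simpa using tendsto_const_nhds.sub (tendsto_one_div_add_atTop_nhds_zero_nat (𝕜 := ℝ))
    have t2 : Tendsto (fun k => rat p Ω x (w k x)) atTop (𝓝 (rat p Ω x (u x))) :=
      (ENNReal.continuous_rpow_const.tendsto _).comp (t1.div_const _).enorm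
    by_cases hr : rat p Ω x (u x) = 0
    · simp [hr]
    refine le_of_tendsto' (ENNReal.Tendsto.const_mul t2 (Or.inl hr)) fun k => ?_
    refine (hl (w k) (L k) (hL k) (hw0 k) fun y hy => ?_).trans (hw3 k)
    exact le_antisymm ((hw1 k y).trans (by simp [h0 y hy])) (hw0 k y)
  rcases lt_trichotomy (u x) 0 with hx | hx | hx
  · have := key (fun y => -u y) _ h.1.neg (WeakDerivOn.neg' h.2.1.weak)
      (fun y hy => by simp [h.2.2.2 y hy]) (by linarith)
    rw [en_neg, en_innerSL] at this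
    simpa only [rat, neg_div, enorm_neg] using this
  · simp [rat, hx, hp0]
  · have := key u _ h.1 h.2.1.weak h.2.2.2 hx
    rwa [en_innerSL] at this

/-- the Hardy-Morrey inequality at one point, for Lipschitz functions -/
lemma lam_mul_rat_le_lip {p : ℝ} (hp : 0 < p) {Ω : Set (E n)} (hΩ : IsOpen Ω) (hne : Ωᶜ.Nonempty)
    {w : E n → ℝ} {L : ℝ≥0} (hw : LipschitzWith L w) (h0 : ∀ y, y ∉ Ω → w y = 0) {x : E n}
    (hx : x ∈ Ω) : lam p Ω * rat p Ω x (w x) ≤ En p (fderiv ℝ w) := by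
  by_cases hE : En p (fderiv ℝ w) = ⊤
  · rw [hE]; exact le_top
  have := lam_mul_rat_le hp hΩ hne
    (memD0_of_weak hp hw.continuous (lip_weak hw) (lt_top_iff_ne_top.2 hE) h0) hx
  rwa [lintegral_toDual_symm] at this

end Pool.Agent.H411Z.HM
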