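import Mathlib
import Pool.Agent.H411Z.HM.Bridge

set_option autoImplicit false
set_option linter.unusedSectionVars false
set_option linter.unusedVariables false

open Set Filter Topology MeasureTheory Metric Module
open scoped ContDiff NNReal ENNReal

namespace Pool.Agent.H411Z.HM

open Pool.Agent.Helper930.WD

variable {V : Type*} [NormedAddCommGroup V] [InnerProductSpace ℝ V] [FiniteDimensional ℝ V]
  [MeasurableSpace V] [BorelSpace V]

lemma lintegral_dil (G : V → ℝ≥0∞) (a b : V) {t : ℝ} (ht : 0 < t) :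
    ∫⁻ z, G (a + t • (z - b)) = ENNReal.ofReal (t ^ finrank ℝ V)⁻¹ * ∫⁻ z, G z := by
  rw [lintegral_sub_right_eq_self (fun z => G (a + t • z)) b]
  have h := lintegral_map_equiv (μ := (volume : Measure V)) (fun z => G (a + z))
    (Homeomorph.smulOfNeZero t ht.ne').toMeasurableEquiv
  have h2 : Measure.map (Homeomorph.smulOfNeZero t ht.ne').toMeasurableEquiv (volume : Measure V) =
      ENNReal.ofReal (abs (t ^ finrank ℝ V)⁻¹) • volume := Measure.map_addHaar_smul volume ht.ne'
  rw [h2, lintegral_smul_measure, lintegral_add_left_eq_self G a, abs_of_pos (by positivity)] at h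
  exact h.symm

/-- the Hoelder exponent `1 - n / p` -/
noncomputable def al (V : Type*) [NormedAddCommGroup V] [InnerProductSpace ℝ V] (p : ℝ) : ℝ :=
  1 - (finrank ℝ V : ℝ) / p

lemma al_pos {p : ℝ} (hp : 1 < p) (hn : (finrank ℝ V : ℝ) < p) : 0 < al V p := by
  unfold al
  have : (finrank ℝ V : ℝ) / p < 1 := (div_lt_one (by linarith)).2 hn
  linarith

lemma al_le_one {p : ℝ} (hp : 1 < p) : al V p ≤ 1 := by
  unfold al
  have : 0 ≤ (finrank ℝ V : ℝ) / p := by positivity
  linarith

lemma al_mul {p : ℝ} (hp : 1 < p) : al V p * p = p - finrank ℝ V := by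
  unfold al
  field_simp

/-- the energy of `w` is at most `A ^ p` -/
def NLe (p : ℝ) (w : V → ℝ) (A : ℝ) : Prop := En p (fderiv ℝ w) ≤ ENNReal.ofReal (A ^ p)

lemma lintegral_ball_le {p : ℝ} (hp : 1 < p) {g : V → ℝ≥0∞} (hg : Measurable g) (B : Set V) :
    ∫⁻ z in B, g z ≤ (∫⁻ z, g z ^ p) ^ (1 / p) * volume B ^ (1 - 1 / p) := by
  have hpq : p.HolderConjugate (Real.conjExponent p) := Real.HolderConjugate.conjExponent hp
  have h := ENNReal.lintegral_mul_le_Lp_mul_Lq (volume.restrict B) hpq (f := g) (g := fun _ => 1)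
    hg.aemeasurable aemeasurable_const
  have e : 1 / Real.conjExponent p = 1 - 1 / p := by
    have := hpq.inv_add_inv_eq_one
    rw [one_div, one_div]; linarith
  simp only [Pi.mul_apply, mul_one, ENNReal.one_rpow, lintegral_const, Measure.restrict_apply_univ,
    one_mul, e] at h
  refine h.trans ?_
  gcongr
  exact Measure.restrict_le_self

lemma avg_sub_le {p : ℝ} (hp : 1 < p) (hn : (finrank ℝ V : ℝ) < p) {f : V → ℝ}
    (hf : ContDiff ℝ 1 f) {A : ℝ} (hA : 0 ≤ A) (hN : NLe p f A) (x : V) {B : Set V}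
    (hBm : MeasurableSet B) {r : ℝ} (hr : 0 ≤ r) (hB : ∀ z ∈ B, ‖z - x‖ ≤ r) :
    ∫⁻ z in B, ‖f z - f x‖ₑ ≤ ENNReal.ofReal (r * A / al V p) * volume B ^ (1 - 1 / p) := by
  have hp0 : 0 < p := by linarith
  set g : V → ℝ≥0∞ := fun z => ‖fderiv ℝ f z‖ₑ with hg
  have hgc : Continuous g := (hf.continuous_fderiv (by norm_num)).enorm
  have h1 : ∀ z ∈ B, ‖f z - f x‖ₑ ≤
      ∫⁻ t in Icc (0 : ℝ) 1, ENNReal.ofReal r * g (x + t • (z - x)) := by
    intro z hz
    have hc : ContDiff ℝ 1 (fun t : ℝ => f (x + t • (z - x))) := hf.comp (by fun_prop)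
    have h := enorm_sub_le_lintegral_deriv_of_contDiffOn_Icc (hc.contDiffOn (s := Icc 0 1))
      zero_le_one
    simp only [one_smul, zero_smul, add_zero, add_sub_cancel] at h
    refine h.trans (lintegral_mono fun t => ?_)
    have hd : HasDerivAt (fun t : ℝ => f (x + t • (z - x)))
        (fderiv ℝ f (x + t • (z - x)) (z - x)) t := by
      have h2 : HasDerivAt (fun t : ℝ => x + t • (z - x)) (z - x) t := by
        simpa using ((hasDerivAt_id t).smul_const (z - x)).const_add x
      exact (hf.differentiable (by norm_num) _).hasFDerivAt.comp_hasDerivAt t h2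
    rw [hd.deriv, hg]
    simp only
    rw [← ofReal_norm, ← ofReal_norm, ← ENNReal.ofReal_mul hr]
    apply ENNReal.ofReal_le_ofReal
    refine (ContinuousLinearMap.le_opNorm _ _).trans ?_
    rw [mul_comm]
    exact mul_le_mul_of_nonneg_right (hB z hz) (norm_nonneg _)
  have h2 : ∀ t ∈ Ioc (0 : ℝ) 1, ∫⁻ z in B, ENNReal.ofReal r * g (x + t • (z - x)) ≤
      ENNReal.ofReal (r * A * t ^ (al V p - 1)) * volume B ^ (1 - 1 / p) := by
    intro t ht
    have hm : Measurable fun z => g (x + t • (z - x)) := (hgc.comp (by fun_prop)).measurable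
    rw [lintegral_const_mul _ hm]
    have h3 := lintegral_ball_le hp hm B
    rw [lintegral_dil (fun z => g z ^ p) x x ht.1] at h3
    have h4 : (ENNReal.ofReal (t ^ finrank ℝ V)⁻¹ * ∫⁻ z, g z ^ p) ^ (1 / p) ≤
        ENNReal.ofReal (A * t ^ (al V p - 1)) := by
      calc _ ≤ (ENNReal.ofReal (t ^ finrank ℝ V)⁻¹ * ENNReal.ofReal (A ^ p)) ^ (1 / p) := by
            gcongr
            exact hN
        _ = _ := by
            have ht0 := ht.1
            rw [← ENNReal.ofReal_mul (by positivity), ENNReal.ofReal_rpow_of_nonneg (by positivity)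
              (by positivity), Real.mul_rpow (by positivity) (by positivity), ← Real.rpow_mul hA,
              mul_one_div_cancel hp0.ne', Real.rpow_one, ← Real.rpow_natCast, ← Real.rpow_neg ht0.le,
              ← Real.rpow_mul ht0.le, mul_comm]
            congr 3
            unfold al
            ring
    calc _ ≤ ENNReal.ofReal r * (ENNReal.ofReal (A * t ^ (al V p - 1)) * volume B ^ (1 - 1 / p)) := by
          gcongr
          exact h3.trans (by gcongr)
      _ = _ := by rw [← mul_assoc, ← ENNReal.ofReal_mul hr, mul_assoc]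
  have hal := al_pos hp hn
  have h5 : ∫⁻ t in Ioc (0 : ℝ) 1, ENNReal.ofReal (r * A * t ^ (al V p - 1)) =
      ENNReal.ofReal (r * A / al V p) := by
    have hi : IntegrableOn (fun t : ℝ => r * A * t ^ (al V p - 1)) (Ioc 0 1) volume :=
      ((intervalIntegral.intervalIntegrable_rpow' (r := al V p - 1) (by linarith)).1).const_mul _
    rw [← ofReal_integral_eq_lintegral_ofReal hi]
    · congr 1
      rw [← intervalIntegral.integral_of_le zero_le_one, intervalIntegral.integral_const_mul,
        integral_rpow (Or.inl (by linarith))]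
      simp only [sub_add_cancel, Real.one_rpow, Real.zero_rpow hal.ne', sub_zero]
      ring
    · filter_upwards [ae_restrict_mem measurableSet_Ioc] with t ht
      have := ht.1
      positivity
  calc ∫⁻ z in B, ‖f z - f x‖ₑ
      ≤ ∫⁻ z in B, ∫⁻ t in Ioc (0 : ℝ) 1, ENNReal.ofReal r * g (x + t • (z - x)) := by
        apply setLIntegral_mono' hBm
        intro z hz
        rw [setLIntegral_congr Ioc_ae_eq_Icc]
        exact h1 z hz
    _ = ∫⁻ t in Ioc (0 : ℝ) 1, ∫⁻ z in B, ENNReal.ofReal r * g (x + t • (z - x)) := by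
        apply lintegral_lintegral_swap
        apply Measurable.aemeasurable
        apply Measurable.const_mul
        exact (hgc.comp (f := fun a : V × ℝ => x + a.2 • (a.1 - x)) (by fun_prop)).measurable
    _ ≤ ∫⁻ t in Ioc (0 : ℝ) 1,
          ENNReal.ofReal (r * A * t ^ (al V p - 1)) * volume B ^ (1 - 1 / p) :=
        setLIntegral_mono' measurableSet_Ioc h2
    _ = _ := by
        rw [lintegral_mul_const _ (by fun_prop), h5]

/-- the volume of the unit ball -/
noncomputable def om (V : Type*) [NormedAddCommGroup V] [InnerProductSpace ℝ V]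
    [FiniteDimensional ℝ V] [MeasurableSpace V] [BorelSpace V] : ℝ :=
  (volume (ball (0 : V) 1)).toReal

lemma om_pos : 0 < om V :=
  ENNReal.toReal_pos (measure_ball_pos volume _ one_pos).ne' measure_ball_lt_top.ne

lemma vol_closedBall (x : V) {r : ℝ} (hr : 0 ≤ r) :
    volume (closedBall x r) = ENNReal.ofReal (r ^ finrank ℝ V * om V) := by
  rw [Measure.addHaar_closedBall _ _ hr, ENNReal.ofReal_mul (by positivity), om,
    ENNReal.ofReal_toReal measure_ball_lt_top.ne]

lemma vol_rpow {p : ℝ} (hp : 1 < p) {r : ℝ} (hr : 0 < r) :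
    (r ^ finrank ℝ V * om V) ^ (1 / p) = r * om V ^ (1 / p) / r ^ al V p := by
  have := om_pos (V := V)
  rw [Real.mul_rpow (by positivity) this.le, ← Real.rpow_natCast, ← Real.rpow_mul hr.le, al,
    Real.rpow_sub hr, Real.rpow_one, mul_one_div]
  field_simp

lemma morrey_C1 {p : ℝ} (hp : 1 < p) (hn : (finrank ℝ V : ℝ) < p) {f : V → ℝ}
    (hf : ContDiff ℝ 1 f) {A : ℝ} (hA : 0 ≤ A) (hN : NLe p f A) (x y : V) :
    |f x - f y| ≤ 3 / (al V p * om V ^ (1 / p)) * dist x y ^ al V p * A := by
  have hal := al_pos hp hn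
  have hom := om_pos (V := V)
  by_cases hxy : x = y
  · subst hxy
    simp only [sub_self, abs_zero]
    positivity
  set r := dist x y with hr
  have hr0 : 0 < r := dist_pos.2 hxy
  set B := closedBall x r with hB
  have h1 := avg_sub_le hp hn hf hA hN x (B := B) measurableSet_closedBall hr0.le
    (fun z hz => by rw [← dist_eq_norm]; exact hz)
  have h2 := avg_sub_le hp hn hf hA hN y (B := B) measurableSet_closedBall (r := 2 * r)
    (by positivity) (fun z hz => by
      rw [← dist_eq_norm]
      have := dist_triangle z x y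
      have h3 : dist z x ≤ r := hz
      linarith)
  set v : ℝ := r ^ finrank ℝ V * om V with hv
  have hv0 : 0 < v := by positivity
  have hvol : volume B = ENNReal.ofReal v := vol_closedBall x hr0.le
  have h3 : ‖f x - f y‖ₑ * volume B ≤ (∫⁻ z in B, ‖f z - f x‖ₑ) + ∫⁻ z in B, ‖f z - f y‖ₑ := by
    rw [← setLIntegral_const, ← lintegral_add_left (by
      exact (hf.continuous.sub continuous_const).measurable.enorm)]
    apply lintegral_mono
    intro z
    have e : f x - f y = -(f z - f x) + (f z - f y) := by ring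
    simp only
    rw [e]
    refine (enorm_add_le _ _).trans ?_
    rw [enorm_neg]
  have h4 := h3.trans (add_le_add h1 h2)
  have hp1 : 0 ≤ 1 - 1 / p := by
    have : 1 / p ≤ 1 := (div_le_one (by linarith)).2 hp.le
    linarith
  rw [hvol, ENNReal.ofReal_rpow_of_nonneg hv0.le hp1, ← ofReal_norm, ← ENNReal.ofReal_mul
    (norm_nonneg _), ← ENNReal.ofReal_mul (by positivity), ← ENNReal.ofReal_mul (by positivity),
    ← ENNReal.ofReal_add (by positivity) (by positivity),
    ENNReal.ofReal_le_ofReal_iff (by positivity), Real.norm_eq_abs, Real.rpow_sub hv0,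
    Real.rpow_one, hv, vol_rpow hp hr0, ← hv] at h4
  have h5 : r * A / al V p * (v / (r * om V ^ (1 / p) / r ^ al V p)) +
      2 * r * A / al V p * (v / (r * om V ^ (1 / p) / r ^ al V p)) =
      (3 / (al V p * om V ^ (1 / p)) * r ^ al V p * A) * v := by
    field_simp
    ring
  rw [h5] at h4
  exact le_of_mul_le_mul_right h4 hv0

lemma morrey_lip {p : ℝ} (hp : 1 < p) (hn : (finrank ℝ V : ℝ) < p) {w : V → ℝ} {L : ℝ≥0}
    (hw : LipschitzWith L w) {A : ℝ} (hA : 0 ≤ A) (hN : NLe p w A) (x y : V) :
    |w x - w y| ≤ 3 / (al V p * om V ^ (1 / p)) * dist x y ^ al V p * A := by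
  have hl : ∀ z, Tendsto (fun k => moll (rho k) w z) atTop (𝓝 (w z)) := by
    intro z
    have := ContDiffBump.convolution_tendsto_right_of_continuous (μ := volume)
      (bump_tendsto (V := V)) hw.continuous z
    simpa only [convolution_eq_moll, rho] using this
  refine le_of_tendsto' ((hl x).sub (hl y)).abs fun k => morrey_C1 hp hn ?_ hA ?_ x y
  · have hfc : moll (rho k) w =
        MeasureTheory.convolution (rho k) w (ContinuousLinearMap.lsmul ℝ ℝ) volume :=
      funext fun z => (convolution_eq_moll _ _ z).symm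
    rw [hfc]
    exact (rho_cs k).contDiff_convolution_left _ ((rho_smooth k).of_le (by norm_num))
      hw.continuous.locallyIntegrable
  · exact (en_fderiv_moll_le hp (lip_weak hw) k).trans hN

end Pool.Agent.H411Z.HM
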