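import Mathlib
import Pool.Agent.H411Z.HM.Moll

set_option autoImplicit false
set_option linter.unusedSectionVars false
set_option linter.unusedVariables false

open Set Filter Topology MeasureTheory Metric
open scoped ContDiff NNReal ENNReal

namespace Pool.Agent.H411Z.HM

variable {V : Type*} [NormedAddCommGroup V] [InnerProductSpace ℝ V] [FiniteDimensional ℝ V]
  [MeasurableSpace V] [BorelSpace V]

/-- reflection in the hyperplane orthogonal to `ν` -/
noncomputable def sg (ν : V) : V ≃ₗᵢ[ℝ] V := (ℝ ∙ ν)ᗮ.reflection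

lemma sg_apply (ν x : V) : sg ν x = x - (2 * (inner ℝ ν x / ‖ν‖ ^ 2)) • ν := by
  unfold sg
  rw [Submodule.reflection_orthogonal_apply, Submodule.reflection_singleton_apply]
  simp [mul_smul, two_smul]

lemma sg_sg (ν x : V) : sg ν (sg ν x) = x := Submodule.reflection_reflection _ x

lemma inner_sg (ν x : V) : inner ℝ ν (sg ν x) = - inner ℝ ν x := by
  rw [sg_apply, inner_sub_right, real_inner_smul_right, real_inner_self_eq_norm_sq]
  by_cases h : ν = 0
  · simp [h]
  · have : ‖ν‖ ≠ 0 := norm_ne_zero_iff.2 h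
    field_simp
    ring

lemma sg_of_zero {ν x : V} (h : inner ℝ ν x = 0) : sg ν x = x := by
  rw [sg_apply, h]; simp

lemma dist_sg_le {ν x y : V} (hx : 0 ≤ inner ℝ ν x) (hy : inner ℝ ν y ≤ 0) :
    dist x (sg ν y) ≤ dist x y := by
  rw [dist_eq_norm, dist_eq_norm]
  rw [← sq_le_sq₀ (norm_nonneg _) (norm_nonneg _), norm_sub_sq_real, norm_sub_sq_real,
    (sg ν).norm_map, sg_apply, inner_sub_right, real_inner_smul_right, real_inner_comm ν x]
  have h1 : inner ℝ ν y / ‖ν‖ ^ 2 ≤ 0 := div_nonpos_of_nonpos_of_nonneg hy (sq_nonneg _)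
  nlinarith [mul_nonneg hx (neg_nonneg.2 h1)]

lemma dist_sg_left (ν x y : V) : dist (sg ν x) y = dist x (sg ν y) := by
  conv_lhs => rw [← sg_sg ν y]
  exact (sg ν).dist_map x (sg ν y)

/-- polarization -/
noncomputable def pol (ν : V) (v : V → ℝ) (x : V) : ℝ :=
  if 0 ≤ inner ℝ ν x then max (v x) (v (sg ν x)) else min (v x) (v (sg ν x))

lemma pol_cases (ν : V) (v : V → ℝ) (x : V) : pol ν v x = v x ∨ pol ν v x = v (sg ν x) := by
  unfold pol
  split_ifs
  · exact max_choice _ _
  · exact min_choice _ _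

lemma pol_lip {L : ℝ≥0} {v : V → ℝ} (hv : LipschitzWith L v) (ν : V) :
    LipschitzWith L (pol ν v) := by
  have h0 : ∀ a b, |v a - v b| ≤ L * dist a b := fun a b => by
    rw [← Real.dist_eq]; exact hv.dist_le_mul a b
  have cross : ∀ x y, 0 ≤ inner ℝ ν x → inner ℝ ν y ≤ 0 →
      |pol ν v x - pol ν v y| ≤ L * dist x y := by
    intro x y hx hy
    have d1 := dist_sg_le hx hy
    have hL : (0 : ℝ) ≤ L := L.2
    rcases pol_cases ν v x with a | a <;> rcases pol_cases ν v y with b | b <;> rw [a, b]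
    · exact h0 _ _
    · exact (h0 _ _).trans (by gcongr)
    · exact (h0 _ _).trans (by rw [dist_sg_left]; gcongr)
    · exact (h0 _ _).trans (by rw [(sg ν).dist_map])
  apply LipschitzWith.of_dist_le_mul
  intro x y
  rw [Real.dist_eq]
  have hs : |v (sg ν x) - v (sg ν y)| ≤ L * dist x y := (h0 _ _).trans (by rw [(sg ν).dist_map])
  by_cases hx : 0 ≤ inner ℝ ν x <;> by_cases hy : 0 ≤ inner ℝ ν y
  · simp only [pol, if_pos hx, if_pos hy]
    exact (abs_max_sub_max_le_max _ _ _ _).trans (max_le (h0 _ _) hs)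
  · exact cross x y hx (not_le.1 hy).le
  · rw [abs_sub_comm, dist_comm]
    exact cross y x hy (not_le.1 hx).le
  · simp only [pol, if_neg hx, if_neg hy]
    exact (abs_min_sub_min_le_max _ _ _ _).trans (max_le (h0 _ _) hs)

lemma abs_pol_sub_le (ν : V) (v : V → ℝ) (x : V) : |pol ν v x - v x| ≤ |v (sg ν x) - v x| := by
  rcases pol_cases ν v x with a | a <;> rw [a]
  simp

lemma fderiv_pol_of_eq {ν : V} {v : V → ℝ} {x : V} (h1 : DifferentiableAt ℝ v x)
    (h2 : DifferentiableAt ℝ (fun y => |v (sg ν y) - v y|) x) (h3 : v (sg ν x) = v x) :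
    fderiv ℝ (pol ν v) x = fderiv ℝ v x := by
  have hmin : IsLocalMin (fun y => |v (sg ν y) - v y|) x :=
    Eventually.of_forall fun y => by simp [h3]
  have h4 : HasFDerivAt (fun y => |v (sg ν y) - v y|) (0 : V →L[ℝ] ℝ) x := by
    rw [← hmin.fderiv_eq_zero]; exact h2.hasFDerivAt
  have h5 : HasFDerivAt (fun y => pol ν v y - v y) (0 : V →L[ℝ] ℝ) x := by
    rw [hasFDerivAt_iff_isLittleO] at h4 ⊢
    refine Asymptotics.IsBigO.trans_isLittleO ?_ h4
    apply Asymptotics.IsBigO.of_bound 1
    refine Eventually.of_forall fun y => ?_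
    have e : pol ν v x = v x := by
      rcases pol_cases ν v x with a | a
      · exact a
      · rw [a, h3]
    simp only [e, h3, sub_self, abs_zero, sub_zero, ContinuousLinearMap.zero_apply, one_mul,
      Real.norm_eq_abs, abs_abs]
    exact abs_pol_sub_le ν v y
  have h6 := h5.add h1.hasFDerivAt
  have h7 : ((fun y => pol ν v y - v y) + v) = pol ν v := by
    funext y; simp
  rw [h7, zero_add] at h6
  exact h6.fderiv

lemma norm_fderiv_comp_sg (ν : V) (v : V → ℝ) (x : V) :
    ‖fderiv ℝ (fun y => v (sg ν y)) x‖ = ‖fderiv ℝ v (sg ν x)‖ := by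
  have h := (sg ν).toContinuousLinearEquiv.comp_right_fderiv (f := v) (x := x)
  have h' : fderiv ℝ (fun y => v (sg ν y)) x =
      (fderiv ℝ v (sg ν x)).comp ((sg ν).toContinuousLinearEquiv : V →L[ℝ] V) := h
  rw [h']
  exact ContinuousLinearMap.opNorm_comp_linearIsometryEquiv _ (sg ν)

lemma pol_eventually_pos {ν : V} {v : V → ℝ} (hv : Continuous v) {x : V}
    (h : 0 < inner ℝ ν x * (v (sg ν x) - v x)) : pol ν v =ᶠ[𝓝 x] fun y => v (sg ν y) := by
  have hc : Continuous fun y => inner ℝ ν y * (v (sg ν y) - v y) :=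
    (continuous_const.inner continuous_id).mul ((hv.comp (sg ν).continuous).sub hv)
  filter_upwards [hc.continuousAt.eventually (lt_mem_nhds h)] with y hy
  unfold pol
  split_ifs with h1
  · apply max_eq_right
    by_contra hcon
    nlinarith [mul_nonneg h1 (sub_nonneg.2 (not_le.1 hcon).le)]
  · apply min_eq_right
    by_contra hcon
    nlinarith [mul_pos (neg_pos.2 (not_le.1 h1)) (sub_pos.2 (not_le.1 hcon))]

lemma pol_eventually_neg {ν : V} {v : V → ℝ} (hv : Continuous v) {x : V}
    (h : inner ℝ ν x * (v (sg ν x) - v x) < 0) : pol ν v =ᶠ[𝓝 x] v := by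
  have hc : Continuous fun y => inner ℝ ν y * (v (sg ν y) - v y) :=
    (continuous_const.inner continuous_id).mul ((hv.comp (sg ν).continuous).sub hv)
  filter_upwards [hc.continuousAt.eventually (gt_mem_nhds h)] with y hy
  unfold pol
  split_ifs with h1
  · apply max_eq_left
    by_contra hcon
    nlinarith [mul_nonneg h1 (sub_nonneg.2 (not_le.1 hcon).le)]
  · apply min_eq_left
    by_contra hcon
    nlinarith [mul_pos (neg_pos.2 (not_le.1 h1)) (sub_pos.2 (not_le.1 hcon))]

lemma lintegral_comp_sg (ν : V) (f : V → ℝ≥0∞) : ∫⁻ x, f (sg ν x) = ∫⁻ x, f x :=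
  (sg ν).measurePreserving.lintegral_comp_emb (sg ν).toHomeomorph.measurableEmbedding f

lemma integral_comp_sg (ν : V) (f : V → ℝ) : ∫ x, f (sg ν x) = ∫ x, f x :=
  (sg ν).measurePreserving.integral_comp (sg ν).toHomeomorph.measurableEmbedding f

lemma en_pol {p : ℝ} {L : ℝ≥0} {v : V → ℝ} (hv : LipschitzWith L v) (ν : V) :
    En p (fderiv ℝ (pol ν v)) = En p (fderiv ℝ v) := by
  have hg : LipschitzWith (1 * (L * 1 + L)) (fun y => |v (sg ν y) - v y|) :=
    lipschitzWith_one_norm.comp ((hv.comp (sg ν).lipschitz).sub hv)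
  have hQ : ∀ᵐ x : V, DifferentiableAt ℝ v x ∧
      DifferentiableAt ℝ (fun y => |v (sg ν y) - v y|) x :=
    hv.ae_differentiableAt.and hg.ae_differentiableAt
  have hQ' : ∀ᵐ x : V, DifferentiableAt ℝ v (sg ν x) ∧
      DifferentiableAt ℝ (fun y => |v (sg ν y) - v y|) (sg ν x) :=
    (sg ν).measurePreserving.quasiMeasurePreserving.ae hQ
  set f : V → ℝ≥0∞ := fun x => ‖fderiv ℝ (pol ν v) x‖ₑ ^ p with hf
  set g : V → ℝ≥0∞ := fun x => ‖fderiv ℝ v x‖ₑ ^ p with hg'
  have hfm : Measurable f := (measurable_fderiv ℝ _).enorm.pow_const p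
  have hgm : Measurable g := (measurable_fderiv ℝ _).enorm.pow_const p
  have key : ∀ᵐ x : V, f x + f (sg ν x) = g x + g (sg ν x) := by
    filter_upwards [hQ, hQ'] with x h1 h2
    have hinv : inner ℝ ν (sg ν x) * (v (sg ν (sg ν x)) - v (sg ν x)) =
        inner ℝ ν x * (v (sg ν x) - v x) := by
      rw [inner_sg, sg_sg]; ring
    rcases lt_trichotomy (inner ℝ ν x * (v (sg ν x) - v x)) 0 with h | h | h
    · simp only [hf, hg']
      rw [(pol_eventually_neg hv.continuous h).fderiv_eq,
        (pol_eventually_neg hv.continuous (hinv ▸ h)).fderiv_eq]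
    · have h3 : v (sg ν x) = v x := by
        rcases mul_eq_zero.1 h with h | h
        · rw [sg_of_zero h]
        · linarith
      simp only [hf, hg']
      rw [fderiv_pol_of_eq h1.1 h1.2 h3, fderiv_pol_of_eq h2.1 h2.2 (by rw [sg_sg, h3])]
    · simp only [hf, hg']
      rw [(pol_eventually_pos hv.continuous h).fderiv_eq,
        (pol_eventually_pos hv.continuous (hinv ▸ h)).fderiv_eq,
        ← ofReal_norm_eq_enorm, ← ofReal_norm_eq_enorm, norm_fderiv_comp_sg, norm_fderiv_comp_sg,
        sg_sg, ofReal_norm_eq_enorm, ofReal_norm_eq_enorm, add_comm]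
  have h := lintegral_congr_ae key
  rw [lintegral_add_left hfm, lintegral_add_left hgm, lintegral_comp_sg, lintegral_comp_sg,
    ← two_mul, ← two_mul] at h
  exact (ENNReal.mul_right_inj (by norm_num) (by norm_num)).1 h

/-- the linear functional which polarization increases -/
noncomputable def J (e : V) (v : V → ℝ) : ℝ := ∫ x, v x * inner ℝ e x

lemma pol_cs {ν : V} {v : V → ℝ} {R : ℝ} (hR : ∀ x, R ≤ ‖x‖ → v x = 0) (x : V) (hx : R ≤ ‖x‖) :
    pol ν v x = 0 := by
  rcases pol_cases ν v x with a | a <;> rw [a]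
  · exact hR x hx
  · exact hR _ (by rw [(sg ν).norm_map]; exact hx)

lemma cs_of_zero {v : V → ℝ} {R : ℝ} (hR : ∀ x, R ≤ ‖x‖ → v x = 0) : HasCompactSupport v := by
  apply HasCompactSupport.intro (isCompact_closedBall (0 : V) R)
  intro x hx
  rw [mem_closedBall, dist_zero_right, not_le] at hx
  exact hR x hx.le

lemma J_integrable (e : V) {v : V → ℝ} (hv : Continuous v) {R : ℝ} (hR : ∀ x, R ≤ ‖x‖ → v x = 0) :
    Integrable (fun x => v x * inner ℝ e x) volume :=
  (hv.mul (continuous_const.inner continuous_id)).integrable_of_hasCompactSupport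
    (cs_of_zero hR).mul_right

/-- if polarization does not increase `J`, then the function is already polarized -/
lemma le_of_J_pol_le {L : ℝ≥0} {v : V → ℝ} (hv : LipschitzWith L v) {R : ℝ}
    (hR : ∀ x, R ≤ ‖x‖ → v x = 0) {ν e : V} (he : 0 < inner ℝ ν e) (hJ : J e (pol ν v) ≤ J e v)
    {y : V} (hy : 0 < inner ℝ ν y) : v (sg ν y) ≤ v y := by
  by_contra hcon
  have hcon' := not_le.1 hcon
  have hP := pol_lip hv ν
  set k : V → ℝ := fun x => (pol ν v x - v x) * inner ℝ e x with hk
  have hkc : Continuous k :=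
    (hP.continuous.sub hv.continuous).mul (continuous_const.inner continuous_id)
  have hk0 : ∀ x, R ≤ ‖x‖ → k x = 0 := fun x hx => by
    simp only [hk, pol_cs hR x hx, hR x hx, sub_self, zero_mul]
  have hki : Integrable k volume := hkc.integrable_of_hasCompactSupport (cs_of_zero hk0)
  have hkJ : ∫ x, k x = J e (pol ν v) - J e v := by
    unfold J
    rw [← integral_sub (J_integrable e hP.continuous (pol_cs hR)) (J_integrable e hv.continuous hR)]
    congr 1
    funext x
    simp only [hk]; ring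
  have hν : 0 < ‖ν‖ ^ 2 := by
    have : ν ≠ 0 := by
      rintro rfl
      simp at he
    positivity
  have hform : ∀ x, k x + k (sg ν x) =
      (pol ν v x - v x) * (2 * (inner ℝ ν x / ‖ν‖ ^ 2) * inner ℝ ν e) := by
    intro x
    have e1 : pol ν v (sg ν x) - v (sg ν x) = -(pol ν v x - v x) := by
      unfold pol
      rw [inner_sg, sg_sg]
      rcases lt_trichotomy (inner ℝ ν x) 0 with h | h | h
      · rw [if_pos (by linarith), if_neg (by linarith)]
        rcases le_total (v x) (v (sg ν x)) with h' | h'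
        · rw [max_eq_left h', min_eq_left h']; ring
        · rw [max_eq_right h', min_eq_right h']; ring
      · rw [sg_of_zero h]; simp
      · rw [if_neg (by linarith), if_pos (by linarith)]
        rcases le_total (v x) (v (sg ν x)) with h' | h'
        · rw [min_eq_right h', max_eq_right h']; ring
        · rw [min_eq_left h', max_eq_left h']; ring
    simp only [hk]
    rw [e1, sg_apply ν x, inner_sub_right, real_inner_smul_right, real_inner_comm ν e]
    ring
  have hnn : ∀ x, 0 ≤ k x + k (sg ν x) := by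
    intro x
    rw [hform]
    unfold pol
    split_ifs with h
    · apply mul_nonneg (sub_nonneg.2 (le_max_left _ _))
      positivity
    · apply mul_nonneg_of_nonpos_of_nonpos (sub_nonpos.2 (min_le_left _ _))
      have : inner ℝ ν x / ‖ν‖ ^ 2 ≤ 0 := div_nonpos_of_nonpos_of_nonneg (not_le.1 h).le hν.le
      nlinarith
  have hy' : 0 < k y + k (sg ν y) := by
    rw [hform]
    unfold pol
    rw [if_pos hy.le, max_eq_right hcon'.le]
    apply mul_pos (sub_pos.2 hcon')
    positivity
  have hcc : Continuous fun x => k x + k (sg ν x) := hkc.add (hkc.comp (sg ν).continuous)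
  have hks : Integrable (fun x => k (sg ν x)) volume :=
    (hkc.comp (sg ν).continuous).integrable_of_hasCompactSupport
      (cs_of_zero (R := R) fun x hx => hk0 _ (by rw [(sg ν).norm_map]; exact hx))
  have hpos : 0 < ∫ x, (k x + k (sg ν x)) :=
    integral_pos_of_integrable_nonneg_nonzero hcc (hki.add hks) hnn hy'.ne'
  rw [integral_add hki hks, integral_comp_sg ν k, hkJ] at hpos
  linarith

end Pool.Agent.H411Z.HM
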