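import Mathlib
import Pool.Agent.H411Z.HM.Morrey
import Pool.Agent.H411Z.HM.Pol

set_option autoImplicit false
set_option linter.unusedSectionVars false
set_option linter.unusedVariables false

open Set Filter Topology MeasureTheory Metric Module
open scoped ContDiff NNReal ENNReal

namespace Pool.Agent.H411Z.HM

variable {V : Type*} [NormedAddCommGroup V] [InnerProductSpace ℝ V] [FiniteDimensional ℝ V]
  [MeasurableSpace V] [BorelSpace V]

/-- Lipschitz with some constant -/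
def Lip (w : V → ℝ) : Prop := ∃ L : ℝ≥0, LipschitzWith L w

lemma Lip.of_le {w : V → ℝ} {c : ℝ} (h : ∀ x y, |w x - w y| ≤ c * dist x y) : Lip w :=
  ⟨c.toNNReal, LipschitzWith.of_dist_le' h⟩

lemma Lip.bound {w : V → ℝ} (h : Lip w) : ∃ c, 0 ≤ c ∧ ∀ x y, |w x - w y| ≤ c * dist x y := by
  obtain ⟨L, hL⟩ := h
  exact ⟨L, L.2, fun x y => hL.dist_le_mul x y⟩

lemma Lip.continuous {w : V → ℝ} (h : Lip w) : Continuous w := h.choose_spec.continuous

lemma Lip.ae_diff {w : V → ℝ} (h : Lip w) : ∀ᵐ x, DifferentiableAt ℝ w x :=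
  h.choose_spec.ae_differentiableAt

lemma Lip.const (c : ℝ) : Lip (fun _ : V => c) := ⟨0, LipschitzWith.const c⟩

lemma Lip.add {v w : V → ℝ} (hv : Lip v) (hw : Lip w) : Lip (fun x => v x + w x) :=
  ⟨_, hv.choose_spec.add hw.choose_spec⟩

lemma Lip.sub {v w : V → ℝ} (hv : Lip v) (hw : Lip w) : Lip (fun x => v x - w x) :=
  ⟨_, hv.choose_spec.sub hw.choose_spec⟩

lemma Lip.const_mul {w : V → ℝ} (hw : Lip w) (c : ℝ) : Lip (fun x => c * w x) := by
  obtain ⟨L, hL0, hL⟩ := hw.bound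
  refine Lip.of_le (c := |c| * L) fun x y => ?_
  rw [← mul_sub, abs_mul, mul_assoc]
  exact mul_le_mul_of_nonneg_left (hL x y) (abs_nonneg _)

lemma Lip.max_const {w : V → ℝ} (hw : Lip w) (c : ℝ) : Lip (fun x => max (w x) c) :=
  ⟨_, hw.choose_spec.max_const c⟩

lemma Lip.min_const {w : V → ℝ} (hw : Lip w) (c : ℝ) : Lip (fun x => min (w x) c) :=
  ⟨_, hw.choose_spec.min_const c⟩

lemma Lip.affine {w : V → ℝ} (hw : Lip w) (a b : V) (t : ℝ) : Lip (fun z => w (a + t • (z - b))) := by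
  obtain ⟨L, hL0, hL⟩ := hw.bound
  refine Lip.of_le (c := L * |t|) fun x y => (hL _ _).trans (le_of_eq ?_)
  rw [dist_add_left, dist_smul₀, dist_sub_right, Real.norm_eq_abs, mul_assoc]

lemma Lip.ptrefl {w : V → ℝ} (hw : Lip w) (a : V) : Lip (fun z => w (a - z)) := by
  obtain ⟨L, hL0, hL⟩ := hw.bound
  refine Lip.of_le (c := L) fun x y => (hL _ _).trans (le_of_eq ?_)
  rw [dist_sub_left]

lemma Lip.mul {v w : V → ℝ} (hv : Lip v) (hw : Lip w) {A B : ℝ} (hA : ∀ x, |v x| ≤ A)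
    (hB : ∀ x, |w x| ≤ B) : Lip (fun x => v x * w x) := by
  obtain ⟨L, hL0, hL⟩ := hv.bound
  obtain ⟨M, hM0, hM⟩ := hw.bound
  refine Lip.of_le (c := A * M + B * L) fun x y => ?_
  have e : v x * w x - v y * w y = v x * (w x - w y) + w y * (v x - v y) := by ring
  rw [e]
  refine (abs_add_le _ _).trans ?_
  rw [abs_mul, abs_mul]
  have h1 := mul_le_mul (hA x) (hM x y) (abs_nonneg _) ((abs_nonneg _).trans (hA x))
  have h2 := mul_le_mul (hB y) (hL x y) (abs_nonneg _) ((abs_nonneg _).trans (hB x))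
  nlinarith

lemma en_const_mul {p : ℝ} (hp : 0 < p) (w : V → ℝ) (c : ℝ) :
    En p (fderiv ℝ fun x => c * w x) = ENNReal.ofReal (|c| ^ p) * En p (fderiv ℝ w) := by
  have h : fderiv ℝ (fun x => c * w x) = c • fderiv ℝ w := fderiv_const_smul_field (f := w) c
  unfold En
  rw [h, ← lintegral_const_mul' _ _ ENNReal.ofReal_ne_top]
  congr 1
  funext x
  rw [Pi.smul_apply, enorm_smul, ENNReal.mul_rpow_of_nonneg _ _ hp.le, Real.enorm_eq_ofReal_abs,
    ENNReal.ofReal_rpow_of_nonneg (abs_nonneg _) hp.le]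

lemma NLe.const_mul {p : ℝ} (hp : 0 < p) {w : V → ℝ} {A : ℝ} (hA : 0 ≤ A) (h : NLe p w A) {c : ℝ}
    (hc : 0 ≤ c) : NLe p (fun x => c * w x) (c * A) := by
  unfold NLe
  rw [en_const_mul hp, abs_of_nonneg hc, Real.mul_rpow hc hA,
    ENNReal.ofReal_mul (by positivity)]
  exact mul_le_mul_right h _

lemma NLe.mono {p : ℝ} (hp : 0 < p) {w : V → ℝ} {A B : ℝ} (hA : 0 ≤ A) (h : NLe p w A)
    (hAB : A ≤ B) : NLe p w B :=
  le_trans h (ENNReal.ofReal_le_ofReal (Real.rpow_le_rpow hA hAB hp.le))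

lemma NLe.one_iff {p : ℝ} {w : V → ℝ} : NLe p w 1 ↔ En p (fderiv ℝ w) ≤ 1 := by
  unfold NLe
  rw [Real.one_rpow, ENNReal.ofReal_one]

lemma en_ptrefl (p : ℝ) (w : V → ℝ) (a : V) :
    En p (fderiv ℝ fun z => w (a - z)) = En p (fderiv ℝ w) := by
  unfold En
  rw [← lintegral_sub_left_eq_self (fun x => ‖fderiv ℝ w x‖ₑ ^ p) a]
  congr 1
  funext x
  have h := fderiv_comp_smul (𝕜 := ℝ) (f := fun z => w (a + z)) (x := x) (-1)
  simp only [neg_smul, one_smul, ← sub_eq_add_neg] at h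
  rw [h, enorm_neg, fderiv_comp_add_left, ← sub_eq_add_neg]

lemma en_dil {p : ℝ} (hp : 0 < p) (w : V → ℝ) (a b : V) {t : ℝ} (ht : 0 < t) :
    En p (fderiv ℝ fun z => w (a + t • (z - b))) =
      ENNReal.ofReal (t ^ (p - finrank ℝ V)) * En p (fderiv ℝ w) := by
  unfold En
  have h1 : ∀ x, fderiv ℝ (fun z => w (a + t • (z - b))) x = t • fderiv ℝ w (a + t • (x - b)) := by
    intro x
    rw [fderiv_comp_sub (f := fun z => w (a + t • z)) b,
      fderiv_comp_smul (𝕜 := ℝ) (f := fun z => w (a + z)) t, fderiv_comp_add_left]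
  simp only [h1, enorm_smul, ENNReal.mul_rpow_of_nonneg _ _ hp.le]
  rw [lintegral_const_mul' _ _ (ENNReal.rpow_ne_top_of_nonneg hp.le enorm_ne_top),
    lintegral_dil (fun x => ‖fderiv ℝ w x‖ₑ ^ p) a b ht, ← mul_assoc, Real.enorm_eq_ofReal ht.le,
    ENNReal.ofReal_rpow_of_nonneg ht.le hp.le, ← ENNReal.ofReal_mul (by positivity),
    Real.rpow_sub ht, Real.rpow_natCast, div_eq_mul_inv]

lemma en_min_le {p : ℝ} (hp : 0 < p) {f : V → ℝ} (hf : Continuous f) (c : ℝ) :
    En p (fderiv ℝ fun x => min (f x) c) ≤ En p (fderiv ℝ f) := by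
  apply lintegral_mono
  intro x
  apply ENNReal.rpow_le_rpow _ hp.le
  by_cases hx : f x < c
  · have : (fun x => min (f x) c) =ᶠ[𝓝 x] f := by
      filter_upwards [hf.continuousAt.eventually (gt_mem_nhds hx)] with y hy
      exact min_eq_left hy.le
    rw [this.fderiv_eq]
  · have : IsLocalMax (fun x => min (f x) c) x :=
      Eventually.of_forall fun y => by
        simp only [min_eq_right (not_lt.1 hx)]
        exact min_le_right _ _
    rw [this.fderiv_eq_zero, ← ofReal_norm, norm_zero, ENNReal.ofReal_zero]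
    exact bot_le

lemma clarkson_pt {p : ℝ} (hp : 2 ≤ p) (a b : V →L[ℝ] ℝ) :
    ‖(1 / 2 : ℝ) • (a + b)‖ ^ p + ‖(1 / 2 : ℝ) • (a - b)‖ ^ p ≤ (‖a‖ ^ p + ‖b‖ ^ p) / 2 := by
  have hpar : ‖a + b‖ ^ 2 + ‖a - b‖ ^ 2 = 2 * (‖a‖ ^ 2 + ‖b‖ ^ 2) := by
    set T := (InnerProductSpace.toDual ℝ V).symm with hT
    have h := parallelogram_law_with_norm ℝ (T a) (T b)
    rw [← map_add, ← map_sub, T.norm_map, T.norm_map, T.norm_map, T.norm_map] at h
    nlinarith
  have hq : 1 ≤ p / 2 := by linarith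
  have e : ∀ s : ℝ, 0 ≤ s → s ^ p = (s ^ 2) ^ (p / 2) := by
    intro s hs
    rw [← Real.rpow_natCast, ← Real.rpow_mul hs]
    congr 1
    push_cast
    ring
  rw [e _ (norm_nonneg _), e _ (norm_nonneg _), e _ (norm_nonneg a), e _ (norm_nonneg b)]
  refine (Real.add_rpow_le_rpow_add (by positivity) (by positivity) hq).trans ?_
  have h2 : ‖(1 / 2 : ℝ) • (a + b)‖ ^ 2 + ‖(1 / 2 : ℝ) • (a - b)‖ ^ 2 =
      (1 / 2 : ℝ) • ‖a‖ ^ 2 + (1 / 2 : ℝ) • ‖b‖ ^ 2 := by
    rw [norm_smul, norm_smul, Real.norm_eq_abs, abs_of_pos (by norm_num : (0 : ℝ) < 1 / 2),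
      smul_eq_mul, smul_eq_mul]
    nlinarith
  rw [h2]
  have h3 := (convexOn_rpow hq).2 (mem_Ici.2 (show 0 ≤ ‖a‖ ^ 2 by positivity))
    (mem_Ici.2 (show 0 ≤ ‖b‖ ^ 2 by positivity)) (show (0 : ℝ) ≤ 1 / 2 by norm_num)
    (show (0 : ℝ) ≤ 1 / 2 by norm_num) (by norm_num)
  refine h3.trans (le_of_eq ?_)
  simp only [smul_eq_mul]
  ring

lemma clarkson {p : ℝ} (hp : 2 ≤ p) {v w : V → ℝ} (hv : Lip v) (hw : Lip w)
    (h1 : En p (fderiv ℝ v) ≤ 1) (h2 : En p (fderiv ℝ w) ≤ 1) :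
    En p (fderiv ℝ fun x => (1 / 2 : ℝ) * (v x + w x)) +
      En p (fderiv ℝ fun x => (1 / 2 : ℝ) * (v x - w x)) ≤ 1 := by
  have hp0 : 0 ≤ p := by linarith
  have key : ∀ᵐ x, ‖fderiv ℝ (fun x => (1 / 2 : ℝ) * (v x + w x)) x‖ₑ ^ p +
      ‖fderiv ℝ (fun x => (1 / 2 : ℝ) * (v x - w x)) x‖ₑ ^ p ≤
      ENNReal.ofReal (1 / 2) * (‖fderiv ℝ v x‖ₑ ^ p + ‖fderiv ℝ w x‖ₑ ^ p) := by
    filter_upwards [hv.ae_diff, hw.ae_diff] with x a b
    have e1 : fderiv ℝ (fun x => (1 / 2 : ℝ) * (v x + w x)) x =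
        (1 / 2 : ℝ) • (fderiv ℝ v x + fderiv ℝ w x) :=
      ((a.hasFDerivAt.add b.hasFDerivAt).const_mul _).fderiv
    have e2 : fderiv ℝ (fun x => (1 / 2 : ℝ) * (v x - w x)) x =
        (1 / 2 : ℝ) • (fderiv ℝ v x - fderiv ℝ w x) :=
      ((a.hasFDerivAt.sub b.hasFDerivAt).const_mul _).fderiv
    rw [e1, e2]
    simp only [← ofReal_norm, ENNReal.ofReal_rpow_of_nonneg (norm_nonneg _) hp0]
    rw [← ENNReal.ofReal_add (by positivity) (by positivity),
      ← ENNReal.ofReal_add (by positivity) (by positivity), ← ENNReal.ofReal_mul (by norm_num)]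
    apply ENNReal.ofReal_le_ofReal
    have := clarkson_pt hp (fderiv ℝ v x) (fderiv ℝ w x)
    linarith
  have h := lintegral_mono_ae key
  rw [lintegral_add_left ((measurable_fderiv ℝ _).enorm.pow_const p),
    lintegral_const_mul' _ _ ENNReal.ofReal_ne_top,
    lintegral_add_left ((measurable_fderiv ℝ _).enorm.pow_const p)] at h
  refine h.trans ?_
  calc _ ≤ ENNReal.ofReal (1 / 2) * (1 + 1) := by
        gcongr
        · exact h1
        · exact h2
    _ = 1 := by
        rw [← ENNReal.ofReal_one, ← ENNReal.ofReal_add (by norm_num) (by norm_num),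
          ← ENNReal.ofReal_mul (by norm_num)]
        norm_num

lemma en_sub_disj {p : ℝ} (hp : 0 < p) {v w : V → ℝ} (hv : Lip v) (hw : Lip w)
    (hv0 : ∀ x, 0 ≤ v x) (hw0 : ∀ x, 0 ≤ w x) (h : ∀ x, v x = 0 ∨ w x = 0) :
    En p (fderiv ℝ fun x => v x - w x) ≤ En p (fderiv ℝ v) + En p (fderiv ℝ w) := by
  unfold En
  rw [← lintegral_add_left ((measurable_fderiv ℝ _).enorm.pow_const p)]
  apply lintegral_mono_ae
  filter_upwards [hv.ae_diff, hw.ae_diff] with x a b
  have e : fderiv ℝ (fun x => v x - w x) x = fderiv ℝ v x - fderiv ℝ w x :=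
    (a.hasFDerivAt.sub b.hasFDerivAt).fderiv
  rw [e]
  rcases h x with h | h
  · have : IsLocalMin v x := Eventually.of_forall fun y => by rw [h]; exact hv0 y
    rw [this.fderiv_eq_zero, zero_sub, enorm_neg]
    exact le_add_self
  · have : IsLocalMin w x := Eventually.of_forall fun y => by rw [h]; exact hw0 y
    rw [this.fderiv_eq_zero, sub_zero]
    exact le_self_add

/-- the cut-off function -/
noncomputable def eta (x : V) (R : ℝ) (z : V) : ℝ := max (min (2 - 2 / R * dist z x) 1) 0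

lemma eta_lip (x : V) {R : ℝ} (hR : 0 < R) : LipschitzWith (2 / R).toNNReal (eta x R) := by
  have h : LipschitzWith (2 / R).toNNReal (fun z => 2 - 2 / R * dist z x) := by
    apply LipschitzWith.of_dist_le'
    intro a b
    rw [Real.dist_eq, show 2 - 2 / R * dist a x - (2 - 2 / R * dist b x) =
      2 / R * (dist b x - dist a x) by ring, abs_mul, abs_of_pos (by positivity), dist_comm a b]
    exact mul_le_mul_of_nonneg_left (abs_dist_sub_le _ _ _) (by positivity)
  exact (h.min_const 1).max_const 0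

lemma eta_nonneg (x : V) (R : ℝ) (z : V) : 0 ≤ eta x R z := le_max_right _ _

lemma eta_le_one (x : V) (R : ℝ) (z : V) : eta x R z ≤ 1 :=
  max_le (min_le_right _ _) zero_le_one

lemma eta_eq_one {x : V} {R : ℝ} (hR : 0 < R) {z : V} (hz : dist z x ≤ R / 2) : eta x R z = 1 := by
  unfold eta
  have : 2 / R * dist z x ≤ 1 := by
    rw [div_mul_eq_mul_div, div_le_one hR]; linarith
  rw [min_eq_right (by linarith), max_eq_left zero_le_one]

lemma eta_eq_zero {x : V} {R : ℝ} (hR : 0 < R) {z : V} (hz : R ≤ dist z x) : eta x R z = 0 := by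
  unfold eta
  have : 2 ≤ 2 / R * dist z x := by
    rw [div_mul_eq_mul_div, le_div_iff₀ hR]; linarith
  exact max_eq_right ((min_le_left _ _).trans (by linarith))

lemma Lip.eta_mul {w : V → ℝ} (hw : Lip w) {B : ℝ} (hB : ∀ x, |w x| ≤ B) (x : V) {R : ℝ}
    (hR : 0 < R) : Lip (fun z => eta x R z * w z) :=
  Lip.mul ⟨_, eta_lip x hR⟩ hw (A := 1)
    (fun z => by rw [abs_of_nonneg (eta_nonneg _ _ _)]; exact eta_le_one _ _ _) hB

/-- the constant in the cut-off estimate -/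
noncomputable def cc (V : Type*) [NormedAddCommGroup V] [InnerProductSpace ℝ V]
    [FiniteDimensional ℝ V] [MeasurableSpace V] [BorelSpace V] (p : ℝ) : ℝ := 2 * om V ^ (1 / p)

lemma cc_pos (p : ℝ) : 0 < cc V p := by
  have := om_pos (V := V)
  unfold cc
  positivity

lemma cutoff {p : ℝ} (hp : 1 < p) {w : V → ℝ} (hw : Lip w) {B : ℝ} (hB : ∀ x, |w x| ≤ B) (x : V)
    {R : ℝ} (hR : 0 < R) {A : ℝ} (hA : 0 ≤ A)
    (hE : ∫⁻ z in closedBall x R, ‖fderiv ℝ w z‖ₑ ^ p ≤ ENNReal.ofReal (A ^ p)) :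
    NLe p (fun z => eta x R z * w z) (A + B * cc V p / R ^ al V p) := by
  have hp0 : 0 < p := by linarith
  have hB0 : 0 ≤ B := (abs_nonneg _).trans (hB x)
  have hcc := cc_pos (V := V) p
  set S := closedBall x R with hS
  have hSm : MeasurableSet S := measurableSet_closedBall
  set f : V → ℝ≥0∞ := S.indicator fun z => ‖fderiv ℝ w z‖ₑ with hf
  set g : V → ℝ≥0∞ := S.indicator fun z => ENNReal.ofReal (B * (2 / R)) with hg
  have hfm : Measurable f := (measurable_fderiv ℝ w).enorm.indicator measurableSet_closedBall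
  have hgm : Measurable g := measurable_const.indicator measurableSet_closedBall
  have key : ∀ᵐ z, ‖fderiv ℝ (fun z => eta x R z * w z) z‖ₑ ^ p ≤ (f + g) z ^ p := by
    filter_upwards [hw.ae_diff, (eta_lip x hR).ae_differentiableAt] with z a b
    apply ENNReal.rpow_le_rpow _ hp0.le
    by_cases hz : z ∈ S
    · simp only [Pi.add_apply, hf, hg, indicator_of_mem hz]
      have e : fderiv ℝ (fun z => eta x R z * w z) z =
          eta x R z • fderiv ℝ w z + w z • fderiv ℝ (eta x R) z :=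
        (b.hasFDerivAt.mul a.hasFDerivAt).fderiv
      rw [e, ← ofReal_norm, ← ofReal_norm, ← ENNReal.ofReal_add (norm_nonneg _) (by positivity)]
      apply ENNReal.ofReal_le_ofReal
      refine (norm_add_le _ _).trans (add_le_add ?_ ?_)
      · rw [norm_smul, Real.norm_eq_abs, abs_of_nonneg (eta_nonneg _ _ _)]
        exact mul_le_of_le_one_left (norm_nonneg _) (eta_le_one _ _ _)
      · rw [norm_smul, Real.norm_eq_abs]
        apply mul_le_mul (hB z) _ (norm_nonneg _) hB0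
        refine (norm_fderiv_le_of_lipschitz ℝ (eta_lip x hR)).trans ?_
        rw [Real.coe_toNNReal _ (by positivity)]
    · have : (fun z => eta x R z * w z) =ᶠ[𝓝 z] fun _ => 0 := by
        filter_upwards [isClosed_closedBall.isOpen_compl.mem_nhds hz] with y hy
        rw [eta_eq_zero hR (not_le.1 (fun h => hy (mem_closedBall.2 h))).le, zero_mul]
      rw [this.fderiv_eq, fderiv_fun_const, Pi.zero_apply, ← ofReal_norm, norm_zero,
        ENNReal.ofReal_zero]
      exact bot_le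
  have h1 := ENNReal.lintegral_Lp_add_le (μ := volume) hfm.aemeasurable hgm.aemeasurable hp.le
  have h2 : (∫⁻ a, f a ^ p) ^ (1 / p) ≤ ENNReal.ofReal A := by
    have : ∫⁻ a, f a ^ p = ∫⁻ z in S, ‖fderiv ℝ w z‖ₑ ^ p := by
      rw [← lintegral_indicator hSm]
      congr 1
      funext z
      by_cases hz : z ∈ S
      · simp only [hf, indicator_of_mem hz]
      · simp only [hf, indicator_of_notMem hz, ENNReal.zero_rpow_of_pos hp0]
    rw [this]
    refine (ENNReal.rpow_le_rpow hE (by positivity)).trans (le_of_eq ?_)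
    rw [ENNReal.ofReal_rpow_of_nonneg (by positivity) (by positivity), ← Real.rpow_mul hA,
      mul_one_div_cancel hp0.ne', Real.rpow_one]
  have h3 : (∫⁻ a, g a ^ p) ^ (1 / p) = ENNReal.ofReal (B * cc V p / R ^ al V p) := by
    have : ∫⁻ a, g a ^ p = ENNReal.ofReal (B * (2 / R)) ^ p * volume S := by
      rw [← setLIntegral_const, ← lintegral_indicator hSm]
      congr 1
      funext z
      by_cases hz : z ∈ S
      · simp only [hg, indicator_of_mem hz]
      · simp only [hg, indicator_of_notMem hz, ENNReal.zero_rpow_of_pos hp0]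
    have hom := om_pos (V := V)
    rw [this, hS, vol_closedBall x hR.le, ENNReal.mul_rpow_of_nonneg _ _ (by positivity),
      ← ENNReal.rpow_mul, mul_one_div_cancel hp0.ne', ENNReal.rpow_one,
      ENNReal.ofReal_rpow_of_nonneg (by positivity) (by positivity), vol_rpow hp hR,
      ← ENNReal.ofReal_mul (by positivity), cc]
    congr 1
    field_simp
  have h4 : (En p (fderiv ℝ fun z => eta x R z * w z)) ^ (1 / p) ≤
      ENNReal.ofReal (A + B * cc V p / R ^ al V p) := by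
    refine (ENNReal.rpow_le_rpow (lintegral_mono_ae key) (by positivity)).trans (h1.trans ?_)
    rw [ENNReal.ofReal_add hA (by positivity), h3]
    gcongr
  have h5 := ENNReal.rpow_le_rpow h4 hp0.le
  rwa [← ENNReal.rpow_mul, one_div_mul_cancel hp0.ne', ENNReal.rpow_one,
    ENNReal.ofReal_rpow_of_nonneg (by positivity) hp0.le] at h5

lemma cutoff' {p : ℝ} (hp : 1 < p) {w : V → ℝ} (hw : Lip w) {B : ℝ} (hB : ∀ x, |w x| ≤ B) (x : V)
    {R : ℝ} (hR : 0 < R) {A : ℝ} (hA : 0 ≤ A) (hE : NLe p w A) :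
    NLe p (fun z => eta x R z * w z) (A + B * cc V p / R ^ al V p) :=
  cutoff hp hw hB x hR hA ((setLIntegral_le_lintegral _ _).trans hE)

end Pool.Agent.H411Z.HM
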