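import Mathlib
import Pool.Agent.H411Z.HM.Ops

set_option autoImplicit false
set_option linter.unusedSectionVars false
set_option linter.unusedVariables false

open Set Filter Topology MeasureTheory Metric Module
open scoped ContDiff NNReal ENNReal

namespace Pool.Agent.H411Z.HM

variable {V : Type*} [NormedAddCommGroup V] [InnerProductSpace ℝ V] [FiniteDimensional ℝ V]
  [MeasurableSpace V] [BorelSpace V]

/-- the Morrey quotients -/
def MCset (V : Type*) [NormedAddCommGroup V] [InnerProductSpace ℝ V] [FiniteDimensional ℝ V]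
    [MeasurableSpace V] [BorelSpace V] (p : ℝ) : Set ℝ :=
  {q | ∃ (w : V → ℝ) (x y : V), Lip w ∧ NLe p w 1 ∧ x ≠ y ∧ q = (w x - w y) / dist x y ^ al V p}

/-- the sharp Morrey constant -/
noncomputable def MC (V : Type*) [NormedAddCommGroup V] [InnerProductSpace ℝ V]
    [FiniteDimensional ℝ V] [MeasurableSpace V] [BorelSpace V] (p : ℝ) : ℝ := sSup (MCset V p)

/-- standing assumptions -/
structure Hyp (V : Type*) [NormedAddCommGroup V] [InnerProductSpace ℝ V] (p : ℝ) : Prop where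
  two : 2 ≤ finrank ℝ V
  lt : (finrank ℝ V : ℝ) < p

lemma Hyp.two_lt {p : ℝ} (h : Hyp V p) : 2 < p :=
  lt_of_le_of_lt (by exact_mod_cast h.two) h.lt
lemma Hyp.one_lt {p : ℝ} (h : Hyp V p) : 1 < p := by linarith [h.two_lt]
lemma Hyp.pos {p : ℝ} (h : Hyp V p) : 0 < p := by linarith [h.two_lt]
lemma Hyp.al_pos {p : ℝ} (h : Hyp V p) : 0 < al V p := HM.al_pos h.one_lt h.lt
lemma Hyp.exists_unit {p : ℝ} (h : Hyp V p) : ∃ e : V, ‖e‖ = 1 := by
  have : Nontrivial V := Module.nontrivial_of_finrank_pos (R := ℝ) (by linarith [h.two])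
  exact exists_norm_eq V zero_le_one

lemma NLe.const {p : ℝ} (hp : 0 < p) (c A : ℝ) : NLe p (fun _ : V => c) A := by
  unfold NLe En
  simp only [fderiv_fun_const, Pi.zero_apply, ← ofReal_norm, norm_zero, ENNReal.ofReal_zero,
    ENNReal.zero_rpow_of_pos hp, lintegral_zero]
  exact bot_le

lemma MC_bdd {p : ℝ} (h : Hyp V p) : BddAbove (MCset V p) := by
  refine ⟨3 / (al V p * om V ^ (1 / p)), ?_⟩
  rintro q ⟨w, x, y, ⟨L, hw⟩, hN, hxy, rfl⟩
  have := morrey_lip h.one_lt h.lt hw zero_le_one hN x y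
  rw [div_le_iff₀ (Real.rpow_pos_of_pos (dist_pos.2 hxy) _)]
  linarith [le_abs_self (w x - w y)]

lemma MC_pos {p : ℝ} (h : Hyp V p) : 0 < MC V p := by
  obtain ⟨e, he⟩ := h.exists_unit
  have hp := h.pos
  have hcc := cc_pos (V := V) p
  have h1 := cutoff' h.one_lt (Lip.const (V := V) 1) (B := 1) (fun _ => by simp) 0 one_pos le_rfl
    (NLe.const hp 1 0)
  simp only [Real.one_rpow, div_one, one_mul, zero_add] at h1
  have h2 := h1.const_mul hp hcc.le (c := (cc V p)⁻¹) (by positivity)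
  rw [inv_mul_cancel₀ hcc.ne'] at h2
  have hne : (0 : V) ≠ e := by
    intro h0
    rw [← h0] at he
    simp at he
  have h3 := le_csSup (MC_bdd h) ⟨_, 0, e,
    ((Lip.const (V := V) 1).eta_mul (B := 1) (fun _ => by simp) 0 one_pos).const_mul _, h2, hne, rfl⟩
  refine lt_of_lt_of_le ?_ h3
  rw [eta_eq_one one_pos (by simp), eta_eq_zero one_pos (by simp [he])]
  have := dist_pos.2 hne
  simp only [mul_one, mul_zero, sub_zero]
  positivity

lemma morrey {p : ℝ} (h : Hyp V p) {w : V → ℝ} (hw : Lip w) {A : ℝ} (hA : 0 ≤ A) (hN : NLe p w A)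
    (x y : V) : w x - w y ≤ MC V p * dist x y ^ al V p * A := by
  have hC := MC_pos h
  by_cases hxy : x = y
  · subst hxy
    rw [sub_self]
    positivity
  rcases hA.eq_or_lt with rfl | hA0
  · have := morrey_lip h.one_lt h.lt hw.choose_spec le_rfl hN x y
    rw [mul_zero] at this ⊢
    exact (le_abs_self _).trans this
  have h2 := hN.const_mul h.pos hA (c := A⁻¹) (by positivity)
  rw [inv_mul_cancel₀ hA0.ne'] at h2
  have h3 : (A⁻¹ * w x - A⁻¹ * w y) / dist x y ^ al V p ≤ MC V p :=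
    le_csSup (MC_bdd h) ⟨_, x, y, hw.const_mul _, h2, hxy, rfl⟩
  rw [div_le_iff₀ (Real.rpow_pos_of_pos (dist_pos.2 hxy) _), ← mul_sub,
    inv_mul_le_iff₀ hA0] at h3
  linarith

lemma MC_approx {p : ℝ} (h : Hyp V p) {θ : ℝ} (hθ : θ < 1) :
    ∃ (w : V → ℝ) (x y : V), Lip w ∧ NLe p w 1 ∧ x ≠ y ∧
      θ * MC V p * dist x y ^ al V p < w x - w y := by
  have hC := MC_pos h
  have hne : (MCset V p).Nonempty := by
    by_contra hcon
    rw [not_nonempty_iff_eq_empty] at hcon
    unfold MC at hC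
    rw [hcon, Real.sSup_empty] at hC
    exact lt_irrefl _ hC
  obtain ⟨q, ⟨w, x, y, h1, h2, h3, rfl⟩, hq⟩ :=
    exists_lt_of_lt_csSup hne (show θ * MC V p < MC V p by nlinarith)
  exact ⟨w, x, y, h1, h2, h3, (lt_div_iff₀ (Real.rpow_pos_of_pos (dist_pos.2 h3) _)).1 hq⟩

/-- admissible functions -/
structure Adm (p : ℝ) (Ω : Set V) (w : V → ℝ) : Prop where
  lip : Lip w
  nn : ∀ x, 0 ≤ w x
  zero : ∀ x, x ∉ Ω → w x = 0
  en : NLe p w 1

/-- the largest value at `x` of an admissible function -/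
noncomputable def HH (p : ℝ) (Ω : Set V) (x : V) : ℝ := sSup {t | ∃ w, Adm p Ω w ∧ t = w x}

lemma Adm.le {p : ℝ} (h : Hyp V p) {Ω : Set V} {w : V → ℝ} (hw : Adm p Ω w) (x : V) {y : V}
    (hy : y ∉ Ω) : w x ≤ MC V p * dist x y ^ al V p := by
  have := morrey h hw.lip zero_le_one hw.en x y
  rwa [hw.zero y hy, sub_zero, mul_one] at this

lemma adm_zero {p : ℝ} (h : Hyp V p) (Ω : Set V) : Adm p Ω (fun _ => 0) :=
  ⟨Lip.const 0, fun _ => le_rfl, fun _ _ => rfl, NLe.const h.pos 0 1⟩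

lemma HH_le {p : ℝ} (h : Hyp V p) {Ω : Set V} {x : V} {c : ℝ}
    (hc : ∀ w, Adm p Ω w → w x ≤ c) : HH p Ω x ≤ c := by
  refine csSup_le (s := {t | ∃ w, Adm p Ω w ∧ t = w x}) ⟨0, _, adm_zero h Ω, rfl⟩ ?_
  rintro t ⟨w, hw, rfl⟩
  exact hc w hw

lemma Adm.le_HH {p : ℝ} (h : Hyp V p) {Ω : Set V} (hne : Ωᶜ.Nonempty) {w : V → ℝ}
    (hw : Adm p Ω w) (x : V) : w x ≤ HH p Ω x := by
  obtain ⟨y, hy⟩ := hne
  refine le_csSup ⟨MC V p * dist x y ^ al V p, ?_⟩ ⟨w, hw, rfl⟩
  rintro t ⟨v, hv, rfl⟩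
  exact hv.le h x hy

lemma HH_nonneg {p : ℝ} (h : Hyp V p) {Ω : Set V} (hne : Ωᶜ.Nonempty) (x : V) : 0 ≤ HH p Ω x :=
  (adm_zero h Ω).le_HH h hne x

lemma le_mul_HH {p : ℝ} (h : Hyp V p) {Ω : Set V} (hne : Ωᶜ.Nonempty) {w : V → ℝ} (hw : Lip w)
    (hnn : ∀ x, 0 ≤ w x) (hz : ∀ x, x ∉ Ω → w x = 0) {A : ℝ} (hA : 0 ≤ A) (hN : NLe p w A)
    (x : V) : w x ≤ A * HH p Ω x := by
  rcases hA.eq_or_lt with rfl | hA0
  · obtain ⟨y, hy⟩ := hne
    have := morrey h hw le_rfl hN x y
    rw [hz y hy] at this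
    linarith
  have h2 := hN.const_mul h.pos hA (c := A⁻¹) (by positivity)
  rw [inv_mul_cancel₀ hA0.ne'] at h2
  have h3 : Adm p Ω (fun x => A⁻¹ * w x) :=
    ⟨hw.const_mul _, fun x => mul_nonneg (by positivity) (hnn x), fun x hx => by rw [hz x hx, mul_zero],
      h2⟩
  exact (inv_mul_le_iff₀ hA0).1 (h3.le_HH h hne x)

lemma HH_stab {p : ℝ} (h : Hyp V p) {Ω Ω' : Set V} (hne : Ω'ᶜ.Nonempty) {ε : ℝ}
    (hK : ∀ z, z ∉ Ω' → ∃ y, y ∉ Ω ∧ dist z y ≤ ε) {x x' : V} (hx : dist x x' ≤ ε) :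
    HH p Ω x ≤ HH p Ω' x' + 2 * (MC V p * ε ^ al V p) := by
  have hC := MC_pos h
  have hal := h.al_pos
  refine HH_le h fun w hw => ?_
  set δ := MC V p * ε ^ al V p with hδ
  have hmono : ∀ a b : V, dist a b ≤ ε → MC V p * dist a b ^ al V p ≤ δ := fun a b hab =>
    mul_le_mul_of_nonneg_left (Real.rpow_le_rpow dist_nonneg hab hal.le) hC.le
  have h1 : Adm p Ω' (fun z => max (w z - δ) 0) := by
    refine ⟨(hw.lip.sub (Lip.const δ)).max_const 0, fun z => le_max_right _ _, fun z hz => ?_,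
      (en_trunc_le h.pos hw.lip.continuous δ).trans hw.en⟩
    obtain ⟨y, hy, hzy⟩ := hK z hz
    exact max_eq_right (by linarith [hw.le h z hy, hmono z y hzy])
  have h2 := h1.le_HH h hne x'
  have h3 := morrey h hw.lip zero_le_one hw.en x x'
  have h4 := hmono x x' hx
  have h5 := le_max_left (w x' - δ) 0
  linarith

lemma split_en {p : ℝ} (hp : 0 < p) {a b : ℝ≥0∞} (hab : a + b ≤ 1) :
    ∃ A B : ℝ, 0 ≤ A ∧ 0 ≤ B ∧ A ^ p + B ^ p ≤ 1 ∧ a ≤ ENNReal.ofReal (A ^ p) ∧
      b ≤ ENNReal.ofReal (B ^ p) := by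
  have ha : a ≠ ⊤ := ne_top_of_le_ne_top ENNReal.one_ne_top (le_self_add.trans hab)
  have hb : b ≠ ⊤ := ne_top_of_le_ne_top ENNReal.one_ne_top (le_add_self.trans hab)
  have e : ∀ t : ℝ, 0 ≤ t → (t ^ (1 / p)) ^ p = t := fun t ht => by
    rw [← Real.rpow_mul ht, one_div_mul_cancel hp.ne', Real.rpow_one]
  refine ⟨a.toReal ^ (1 / p), b.toReal ^ (1 / p), by positivity, by positivity, ?_, ?_, ?_⟩
  · rw [e _ ENNReal.toReal_nonneg, e _ ENNReal.toReal_nonneg, ← ENNReal.toReal_add ha hb]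
    exact ENNReal.toReal_le_of_le_ofReal zero_le_one (by simpa using hab)
  · rw [e _ ENNReal.toReal_nonneg, ENNReal.ofReal_toReal ha]
  · rw [e _ ENNReal.toReal_nonneg, ENNReal.ofReal_toReal hb]

lemma exists_R {α c ε : ℝ} (hα : 0 < α) (hε : 0 < ε) : ∃ R : ℝ, 2 ≤ R ∧ c / R ^ α ≤ ε := by
  have h1 : Tendsto (fun R : ℝ => c / R ^ α) atTop (𝓝 0) :=
    tendsto_const_nhds.div_atTop (tendsto_rpow_atTop hα)
  obtain ⟨R, hR⟩ := ((eventually_ge_atTop 2).and (h1.eventually (ge_mem_nhds hε))).exists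
  exact ⟨R, hR.1, hR.2⟩

lemma exists_small {α c ε b : ℝ} (hα : 0 < α) (hε : 0 < ε) (hb : 0 < b) :
    ∃ d : ℝ, 0 < d ∧ d ≤ b ∧ c * d ^ α ≤ ε := by
  have h0 : ContinuousAt (fun d : ℝ => c * d ^ α) 0 :=
    continuousAt_const.mul (Real.continuousAt_rpow_const 0 α (Or.inr hα.le))
  have h1 : Tendsto (fun d : ℝ => c * d ^ α) (𝓝[>] 0) (𝓝 0) := by
    have := h0.tendsto
    simp only [Real.zero_rpow hα.ne', mul_zero] at this
    exact this.mono_left nhdsWithin_le_nhds
  obtain ⟨d, hd⟩ := ((h1.eventually (ge_mem_nhds hε)).and (Ioc_mem_nhdsGT hb)).exists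
  exact ⟨d, hd.2.1, hd.2.2, hd.1⟩

/-- next to a relatively large ball in the complement the quotient is not close to optimal -/
lemma ball_bound {p : ℝ} (h : Hyp V p) : ∃ θ s : ℝ, 0 < θ ∧ θ < 1 ∧ 0 < s ∧
    ∀ (Ω : Set V) (w : V → ℝ), Adm p Ω w → ∀ (x c : V) (ρ d : ℝ), 0 < d → d ≤ s * ρ →
      closedBall c ρ ⊆ Ωᶜ → dist x c ≤ ρ + d → w x ≤ θ * MC V p * d ^ al V p := by
  have hC := MC_pos h
  have hal := h.al_pos
  have hp := h.pos
  have hcc := cc_pos (V := V) p
  set β : ℝ := 2 ^ (al V p + 1 / p - 1) with hβ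
  have hβ0 : 0 < β := by positivity
  have hβ1 : β < 1 := by
    apply Real.rpow_lt_one_of_one_lt_of_neg one_lt_two
    have h2 : (2 : ℝ) ≤ finrank ℝ V := by exact_mod_cast h.two
    have : al V p + 1 / p - 1 = (1 - finrank ℝ V) / p := by unfold al; ring
    rw [this]
    exact div_neg_of_neg_of_pos (by linarith) hp
  set ε : ℝ := (1 - β) / 4 with hε
  have hε0 : 0 < ε := by rw [hε]; linarith
  obtain ⟨R, hR2, hR⟩ := exists_R (c := MC V p * cc V p) hal hε0
  have hR0 : 0 < R := by linarith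
  refine ⟨β * (1 + ε) ^ 2, 2 * ε / R ^ 2, by positivity, by
    have hβε : β = 1 - 4 * ε := by rw [hε]; ring
    rw [hβε]
    nlinarith [mul_pos hε0 hε0, mul_pos (mul_pos hε0 hε0) hε0], by positivity, ?_⟩
  intro Ω w hw x c ρ d hd hdρ hK hx
  have hρ : 0 < ρ := by
    by_contra hcon
    have : 2 * ε / R ^ 2 * ρ ≤ 0 := mul_nonpos_of_nonneg_of_nonpos (by positivity) (not_lt.1 hcon)
    linarith
  by_cases hxc : dist x c ≤ ρ
  · rw [hw.zero x (hK hxc)]
    positivity
  set D := dist x c with hD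
  have hDρ : ρ < D := not_le.1 hxc
  have hD0 : 0 < D := by linarith
  set e : V := D⁻¹ • (c - x) with he
  have hce : c = x + D • e := by rw [he, smul_inv_smul₀ hD0.ne']; abel
  have hen : ‖e‖ = 1 := by
    rw [he, norm_smul, ← dist_eq_norm, dist_comm, ← hD, norm_inv, Real.norm_eq_abs, abs_of_pos hD0,
      inv_mul_cancel₀ hD0.ne']
  set a := w x with ha
  have ha0 : 0 ≤ a := hw.nn x
  have ha1 : a ≤ MC V p * d ^ al V p := by
    have hy : x + (D - ρ) • e ∈ closedBall c ρ := by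
      rw [mem_closedBall, hce, dist_add_left, dist_eq_norm, ← sub_smul, norm_smul, hen, mul_one,
        Real.norm_eq_abs, show D - ρ - D = -ρ by ring, abs_neg, abs_of_pos hρ]
    refine (hw.le h x (hK hy)).trans (mul_le_mul_of_nonneg_left
      (Real.rpow_le_rpow dist_nonneg ?_ hal.le) hC.le)
    rw [dist_self_add_right, norm_smul, hen, mul_one, Real.norm_eq_abs, abs_of_pos (by linarith)]
    linarith
  have hw1 : Lip fun z => min (w z) a := hw.lip.min_const a
  have hw1b : ∀ z, |min (w z) a| ≤ a := fun z => by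
    rw [abs_of_nonneg (le_min (hw.nn z) ha0)]; exact min_le_right _ _
  have hw1e : NLe p (fun z => min (w z) a) 1 := (en_min_le hp hw.lip.continuous a).trans hw.en
  set v : V → ℝ := fun z => eta x (R * d) z * min (w z) a with hv
  have hvl : Lip v := hw1.eta_mul hw1b x (by positivity)
  have hv0 : ∀ z, 0 ≤ v z := fun z => mul_nonneg (eta_nonneg _ _ _) (le_min (hw.nn z) ha0)
  have hve : NLe p v (1 + ε) := by
    refine (cutoff' h.one_lt hw1 hw1b x (R := R * d) (by positivity) zero_le_one hw1e).mono hp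
      (by positivity) ?_
    have : a * cc V p / (R * d) ^ al V p ≤ MC V p * cc V p / R ^ al V p := by
      rw [Real.mul_rpow hR0.le hd.le, div_le_div_iff₀ (by positivity) (by positivity)]
      have h1 : 0 < R ^ al V p := by positivity
      nlinarith [mul_le_mul_of_nonneg_right ha1 (mul_pos hcc h1).le]
    linarith
  set hh : ℝ := (1 + ε) * d with hhh
  have hvz : ∀ z, hh ≤ inner ℝ e (z - x) → v z = 0 := by
    intro z hz
    by_cases hzx : R * d ≤ dist z x
    · simp only [hv, eta_eq_zero (show 0 < R * d by positivity) hzx, zero_mul]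
    · have hzc : z ∈ closedBall c ρ := by
        rw [mem_closedBall, dist_eq_norm, ← sq_le_sq₀ (norm_nonneg _) hρ.le, hce,
          show z - (x + D • e) = (z - x) - D • e by abel, norm_sub_sq_real, real_inner_smul_right,
          norm_smul, hen, mul_one, Real.norm_eq_abs, sq_abs, real_inner_comm]
        have h1 : ‖z - x‖ ^ 2 ≤ (R * d) ^ 2 := by
          rw [← dist_eq_norm]
          exact pow_le_pow_left₀ dist_nonneg (not_le.1 hzx).le 2
        have h2 : R ^ 2 * d ≤ 2 * ε * ρ := by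
          rw [div_mul_eq_mul_div, le_div_iff₀ (by positivity)] at hdρ
          linarith
        have h3 := mul_le_mul_of_nonneg_left hz hD0.le
        have h4 : D ≤ ρ + d := hx
        nlinarith [mul_le_mul_of_nonneg_left h2 hd.le, mul_le_mul_of_nonneg_left h4 (add_pos hD0 hρ).le,
          mul_pos hd (sub_pos.2 hDρ), mul_pos (mul_pos hε0 hd) (sub_pos.2 hDρ)]
      simp only [hv, hw.zero z (hK hzc), min_eq_left ha0, mul_zero]
  set b : V := x + x + (2 * hh) • e with hb
  have hin : ∀ z, inner ℝ e (b - z - x) = 2 * hh - inner ℝ e (z - x) := by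
    intro z
    rw [hb, show x + x + (2 * hh) • e - z - x = (2 * hh) • e - (z - x) by abel, inner_sub_right,
      real_inner_smul_right, real_inner_self_eq_norm_sq, hen]
    ring
  have hdisj : ∀ z, v z = 0 ∨ v (b - z) = 0 := by
    intro z
    rcases le_total hh (inner ℝ e (z - x)) with h1 | h1
    · exact Or.inl (hvz z h1)
    · exact Or.inr (hvz _ (by rw [hin]; linarith))
  have hW : NLe p (fun z => v z - v (b - z)) (2 ^ (1 / p) * (1 + ε)) := by
    refine (en_sub_disj hp hvl (hvl.ptrefl b) hv0 (fun z => hv0 _) hdisj).trans ?_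
    rw [en_ptrefl, Real.mul_rpow (by positivity) (by positivity), ← Real.rpow_mul zero_le_two,
      one_div_mul_cancel hp.ne', Real.rpow_one, two_mul, ENNReal.ofReal_add (by positivity)
      (by positivity)]
    exact add_le_add hve hve
  have hM := morrey h (hvl.sub (hvl.ptrefl b)) (by positivity) hW x (b - x)
  have hhp : 0 < hh := by positivity
  have e1 : v x = a := by
    simp only [hv]
    rw [eta_eq_one (by positivity) (by rw [dist_self]; positivity), one_mul, min_self]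
  have e2 : v (b - x) = 0 := hvz _ (by rw [hin, sub_self, inner_zero_right]; linarith)
  have e3 : dist x (b - x) = 2 * (1 + ε) * d := by
    rw [hb, show x + x + (2 * hh) • e - x = x + (2 * hh) • e by abel, dist_self_add_right,
      norm_smul, hen, mul_one, Real.norm_eq_abs, abs_of_pos (by positivity), hhh, mul_assoc]
  rw [sub_sub_cancel, e1, e2, e3, Real.mul_rpow (by positivity) hd.le,
    Real.mul_rpow zero_le_two (by positivity)] at hM
  have e4 : (1 + ε) ^ al V p ≤ 1 + ε := by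
    have := Real.rpow_le_rpow_of_exponent_le (show 1 ≤ 1 + ε by linarith)
      (al_le_one (V := V) h.one_lt)
    rwa [Real.rpow_one] at this
  have e5 : β = 2 ^ al V p * 2 ^ (1 / p) / 2 := by
    rw [hβ, Real.rpow_sub two_pos, Real.rpow_add two_pos, Real.rpow_one]
  have e6 : MC V p * (2 ^ al V p * (1 + ε) ^ al V p * d ^ al V p) * (2 ^ (1 / p) * (1 + ε)) ≤
      MC V p * (2 ^ al V p * (1 + ε) * d ^ al V p) * (2 ^ (1 / p) * (1 + ε)) := by
    gcongr
  rw [e5]
  linarith

/-- in a bounded domain and away from the boundary the quotient is not close to optimal -/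
lemma bdd_bound {p : ℝ} (h : Hyp V p) {δ R : ℝ} (hδ : 0 < δ) (hR : 0 < R) :
    ∃ θ : ℝ, 0 < θ ∧ θ < 1 ∧ ∀ (Ω : Set V) (w : V → ℝ), Adm p Ω w → ∀ (x y : V), y ∉ Ω →
      δ ≤ dist x y → dist x y ≤ R → Ω ⊆ ball x R → w x ≤ θ * MC V p * dist x y ^ al V p := by
  have hC := MC_pos h
  have hal := h.al_pos
  have hp := h.pos
  set κ : ℝ := δ ^ al V p / (2 * R) ^ al V p / 2 with hκ
  have hκ0 : 0 < κ := by positivity
  have hκ1 : 1 < 1 + κ ^ p := by have := Real.rpow_pos_of_pos hκ0 p; linarith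
  refine ⟨(1 + κ ^ p) ^ (-(1 / p)), by positivity,
    Real.rpow_lt_one_of_one_lt_of_neg hκ1 (by have : 0 < 1 / p := by positivity
                                              linarith), ?_⟩
  intro Ω w hw x y hy hδd hdR hΩ
  set d := dist x y with hd
  have hd0 : 0 < d := by linarith
  set e : V := d⁻¹ • (x - y) with he
  have hen : ‖e‖ = 1 := by
    rw [he, norm_smul, ← dist_eq_norm, ← hd, norm_inv, Real.norm_eq_abs, abs_of_pos hd0,
      inv_mul_cancel₀ hd0.ne']
  have hxe : x = y + d • e := by rw [he, smul_inv_smul₀ hd0.ne']; abel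
  have hout : ∀ z, R ≤ dist z x → w z = 0 := fun z hz =>
    hw.zero z fun hzΩ => absurd (hΩ hzΩ) (not_lt.2 hz)
  have hcl := clarkson h.two_lt.le hw.lip (hw.lip.ptrefl (x + y)) (NLe.one_iff.1 hw.en)
    (by rw [en_ptrefl]; exact NLe.one_iff.1 hw.en)
  obtain ⟨B, A, hB, hA, hAB, h1, h2⟩ := split_en hp hcl
  have m1 := morrey h ((hw.lip.sub (hw.lip.ptrefl (x + y))).const_mul _) hA h2 x y
  have m2 := morrey h ((hw.lip.add (hw.lip.ptrefl (x + y))).const_mul _) hB h1 x
    (x + (R + d) • e)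
  have e1 : dist x (x + (R + d) • e) = R + d := by
    rw [dist_self_add_right, norm_smul, hen, mul_one, Real.norm_eq_abs, abs_of_pos (by linarith)]
  have e2 : w (x + (R + d) • e) = 0 := hout _ (by rw [dist_comm, e1]; linarith)
  have e3 : w (x + y - (x + (R + d) • e)) = 0 := by
    apply hout
    rw [dist_eq_norm, show x + y - (x + (R + d) • e) - x = -((x - y) + (R + d) • e) by abel,
      norm_neg, show x - y = d • e by rw [he, smul_inv_smul₀ hd0.ne'], ← add_smul, norm_smul, hen,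
      mul_one, Real.norm_eq_abs, abs_of_pos (by linarith)]
    linarith
  rw [add_sub_cancel_left, add_sub_cancel_right, hw.zero y hy, ← hd] at m1
  rw [add_sub_cancel_left, hw.zero y hy, e1, e2, e3] at m2
  have hda : 0 < d ^ al V p := by positivity
  set s := w x / (MC V p * d ^ al V p) with hs
  have hws : w x = s * (MC V p * d ^ al V p) := by rw [hs]; field_simp
  have hs0 : 0 ≤ s := div_nonneg (hw.nn x) (by positivity)
  have hsA : s ≤ A := by
    rw [hs, div_le_iff₀ (by positivity)]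
    linarith
  have hsB : κ * s ≤ B := by
    have k1 : (R + d) ^ al V p ≤ (2 * R) ^ al V p :=
      Real.rpow_le_rpow (by linarith) (by linarith) hal.le
    have k2 : δ ^ al V p ≤ d ^ al V p := Real.rpow_le_rpow hδ.le hδd hal.le
    have k3 : 0 < (2 * R) ^ al V p := by positivity
    have k4 : s * δ ^ al V p / 2 ≤ (2 * R) ^ al V p * B := by
      have k5 : MC V p * (s * δ ^ al V p / 2) ≤ MC V p * ((2 * R) ^ al V p * B) := by
        have k6 := mul_le_mul_of_nonneg_left k2 (mul_nonneg hs0 hC.le)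
        have k7 := mul_le_mul_of_nonneg_left k1 (mul_nonneg hC.le hB)
        nlinarith
      exact le_of_mul_le_mul_left k5 hC
    rw [hκ, show δ ^ al V p / (2 * R) ^ al V p / 2 * s = (s * δ ^ al V p / 2) / (2 * R) ^ al V p by
      ring, div_le_iff₀ k3]
    linarith
  have hsp : s ^ p * (1 + κ ^ p) ≤ 1 := by
    have k1 := Real.rpow_le_rpow hs0 hsA hp.le
    have k2 := Real.rpow_le_rpow (by positivity) hsB hp.le
    rw [Real.mul_rpow hκ0.le hs0] at k2
    nlinarith
  have hsθ : s ≤ (1 + κ ^ p) ^ (-(1 / p)) := by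
    rw [← Real.rpow_le_rpow_iff hs0 (by positivity) hp, ← Real.rpow_mul (by positivity), neg_mul,
      one_div_mul_cancel hp.ne', Real.rpow_neg_one, ← one_div, le_div_iff₀ (by positivity)]
    exact hsp
  rw [hws, mul_assoc]
  exact mul_le_mul_of_nonneg_right hsθ (by positivity)

/-- an admissible function cannot be close to optimal at two distant points -/
lemma two_bound {p : ℝ} (h : Hyp V p) : ∃ θ R : ℝ, 0 < θ ∧ θ < 1 ∧ 2 ≤ R ∧
    ∀ (Ω : Set V) (w : V → ℝ), Adm p Ω w → ∀ (x₁ y₁ x₂ y₂ : V), y₁ ∉ Ω → y₂ ∉ Ω →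
      (∀ z, w z ≤ MC V p) → 2 * R < dist x₁ x₂ →
      w x₁ ≤ θ * MC V p * dist x₁ y₁ ^ al V p ∨ w x₂ ≤ θ * MC V p * dist x₂ y₂ ^ al V p := by
  have hC := MC_pos h
  have hal := h.al_pos
  have hp := h.pos
  have hcc := cc_pos (V := V) p
  set β : ℝ := 2 ^ (-(1 / p)) with hβ
  have hβ0 : 0 < β := by positivity
  have hβ1 : β < 1 := Real.rpow_lt_one_of_one_lt_of_neg one_lt_two (by
    have : 0 < 1 / p := by positivity
    linarith)
  have hβp : β ^ p = 1 / 2 := by
    rw [hβ, ← Real.rpow_mul zero_le_two, neg_mul, one_div_mul_cancel hp.ne', Real.rpow_neg_one,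
      one_div]
  obtain ⟨R, hR2, hR⟩ := exists_R (c := MC V p * cc V p) hal (show 0 < (1 - β) / 2 by linarith)
  have hR0 : 0 < R := by linarith
  refine ⟨(1 + β) / 2, R, by positivity, by linarith, hR2, ?_⟩
  intro Ω w hw x₁ y₁ x₂ y₂ hy₁ hy₂ hB hx
  have hB' : ∀ z, |w z| ≤ MC V p := fun z => by rw [abs_of_nonneg (hw.nn z)]; exact hB z
  have key : ∀ x y, y ∉ Ω → ∫⁻ z in closedBall x R, ‖fderiv ℝ w z‖ₑ ^ p ≤ ENNReal.ofReal (β ^ p) →
      w x ≤ (1 + β) / 2 * MC V p * dist x y ^ al V p := by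
    intro x y hy hE
    have h1 := (cutoff h.one_lt hw.lip hB' x hR0 hβ0.le hE).mono hp (by positivity)
      (show _ ≤ (1 + β) / 2 by linarith)
    have h2 := morrey h (hw.lip.eta_mul hB' x hR0) (by positivity) h1 x y
    rw [eta_eq_one hR0 (by rw [dist_self]; positivity), hw.zero y hy] at h2
    linarith
  by_contra hcon
  rw [not_or] at hcon
  have k1 := not_le.1 fun hE => hcon.1 (key x₁ y₁ hy₁ hE)
  have k2 := not_le.1 fun hE => hcon.2 (key x₂ y₂ hy₂ hE)
  have k3 := ENNReal.add_lt_add k1 k2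
  rw [← lintegral_union measurableSet_closedBall (closedBall_disjoint_closedBall (by linarith)),
    ← ENNReal.ofReal_add (by positivity) (by positivity), hβp] at k3
  have k4 := k3.trans_le ((setLIntegral_le_lintegral _ _).trans (NLe.one_iff.1 hw.en))
  norm_num at k4

/-- next to a small ball in the complement the quotient is close to optimal somewhere -/
lemma small_ball {p : ℝ} (h : Hyp V p) {θ : ℝ} (hθ0 : 0 < θ) (hθ : θ < 1) :
    ∃ ρ₀ : ℝ, 0 < ρ₀ ∧ ρ₀ ≤ 1 / 4 ∧ ∀ ρ, 0 < ρ → ρ ≤ ρ₀ → ∀ (a : V) (Ω : Set V),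
      (∀ z, ρ < dist z a → dist z a < 1 → z ∈ Ω) →
      ∃ (x y : V) (w : V → ℝ), Adm p Ω w ∧ x ≠ y ∧ dist x a ≤ 1 / 2 ∧ dist y a ≤ ρ ∧
        θ * MC V p * dist x y ^ al V p ≤ w x := by
  have hC := MC_pos h
  have hal := h.al_pos
  have hp := h.pos
  have hcc := cc_pos (V := V) p
  set η : ℝ := (1 - θ) / 3 with hη
  have hη0 : 0 < η := by rw [hη]; linarith
  obtain ⟨w₀, x', y', hl, hN, hxy, hq⟩ := MC_approx h (θ := θ + 2 * η) (by rw [hη]; linarith)
  obtain ⟨d, hd0, hd1, hd⟩ := exists_small (c := θ * (MC V p * cc V p / (1 / 2) ^ al V p)) hal hη0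
    (show (0 : ℝ) < 1 / 4 by norm_num)
  have hda : 0 < d ^ al V p := by positivity
  obtain ⟨r, hr0, hr1, hr⟩ := exists_small (c := 1) hal (mul_pos hη0 hda)
    (show (0 : ℝ) < 1 / 2 by norm_num)
  refine ⟨r / 2, by positivity, by linarith, fun ρ hρ0 hρ a Ω hΩ => ?_⟩
  set d' := dist x' y' with hd'
  have hd'0 : 0 < d' := dist_pos.2 hxy
  set e : V := d'⁻¹ • (x' - y') with he
  have hen : ‖e‖ = 1 := by
    rw [he, norm_smul, ← dist_eq_norm, ← hd', norm_inv, Real.norm_eq_abs, abs_of_pos hd'0,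
      inv_mul_cancel₀ hd'0.ne']
  set t : ℝ := d' / d with ht
  have ht0 : 0 < t := by positivity
  set y : V := a + ρ • e with hy
  set x : V := y + d • e with hx
  have hxyd : dist x y = d := by
    rw [hx, dist_self_add_left, norm_smul, hen, mul_one, Real.norm_eq_abs, abs_of_pos hd0]
  have hya : dist y a = ρ := by
    rw [hy, dist_self_add_left, norm_smul, hen, mul_one, Real.norm_eq_abs, abs_of_pos hρ0]
  have hxa : dist x a ≤ 1 / 2 := by
    have := dist_triangle x y a
    linarith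
  set W : V → ℝ := fun z => t ^ (-al V p) * w₀ (y' + t • (z - y)) with hW
  have hWl : Lip W := (hl.affine y' y t).const_mul _
  have hWe : NLe p W 1 := by
    rw [NLe.one_iff, hW, en_const_mul hp, en_dil hp _ _ _ ht0, ← mul_assoc,
      ← ENNReal.ofReal_mul (by positivity), abs_of_pos (by positivity), ← Real.rpow_mul ht0.le,
      ← Real.rpow_add ht0, neg_mul, al_mul h.one_lt, neg_add_cancel, Real.rpow_zero,
      ENNReal.ofReal_one, one_mul]
    exact NLe.one_iff.1 hN
  have hWx : (θ + 2 * η) * MC V p * d ^ al V p ≤ W x - W y := by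
    have e1 : y' + t • (x - y) = x' := by
      rw [hx, add_sub_cancel_left, smul_smul, ht, div_mul_cancel₀ _ hd0.ne', he,
        smul_inv_smul₀ hd'0.ne']
      abel
    simp only [hW, e1, sub_self, smul_zero, add_zero]
    have e2 : d ^ al V p = t ^ (-al V p) * d' ^ al V p := by
      rw [Real.rpow_neg ht0.le, ht, Real.div_rpow hd'0.le hd0.le]
      have : 0 < d' ^ al V p := by positivity
      field_simp
    rw [e2, ← mul_sub]
    have := mul_le_mul_of_nonneg_left hq.le (show 0 ≤ t ^ (-al V p) by positivity)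
    linarith
  set δ := η * MC V p * d ^ al V p with hδ
  set M := MC V p * d ^ al V p with hM
  have hM0 : 0 < M := by positivity
  set U : V → ℝ := fun z => min (max (W z - (W y + δ)) 0) M with hU
  have hU1 : Lip fun z => max (W z - (W y + δ)) 0 := (hWl.sub (Lip.const _)).max_const 0
  have hUl : Lip U := hU1.min_const M
  have hU0 : ∀ z, 0 ≤ U z := fun z => le_min (le_max_right _ _) hM0.le
  have hUb : ∀ z, |U z| ≤ M := fun z => by rw [abs_of_nonneg (hU0 z)]; exact min_le_right _ _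
  have hUe : NLe p U 1 :=
    (en_min_le hp hU1.continuous M).trans ((en_trunc_le hp hWl.continuous _).trans hWe)
  have hve := cutoff' h.one_lt hUl hUb x (R := 1 / 2) (by norm_num) zero_le_one hUe
  set N := 1 + M * cc V p / (1 / 2) ^ al V p with hNd
  have hN0 : 0 < N := by positivity
  have hwe := hve.const_mul hp hN0.le (c := N⁻¹) (by positivity)
  rw [inv_mul_cancel₀ hN0.ne'] at hwe
  refine ⟨x, y, fun z => N⁻¹ * (eta x (1 / 2) z * U z), ⟨(hUl.eta_mul hUb x (by norm_num)).const_mul _,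
    fun z => mul_nonneg (by positivity) (mul_nonneg (eta_nonneg _ _ _) (hU0 z)), fun z hz => ?_,
    hwe⟩, dist_pos.1 (by rw [hxyd]; exact hd0), hxa, hya.le, ?_⟩
  · by_cases hz1 : dist z a < 1
    · have hz2 : dist z a ≤ ρ := by
        by_contra hcon
        exact hz (hΩ z (not_le.1 hcon) hz1)
      have hzy : dist z y ≤ r := by
        have := dist_triangle z a y
        rw [dist_comm a y] at this
        linarith
      have k1 := morrey h hWl zero_le_one hWe z y
      have k2 : dist z y ^ al V p ≤ r ^ al V p := Real.rpow_le_rpow dist_nonneg hzy hal.le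
      have k3 : W z - (W y + δ) ≤ 0 := by
        have := mul_le_mul_of_nonneg_left (k2.trans (by linarith : r ^ al V p ≤ η * d ^ al V p)) hC.le
        rw [hδ]
        nlinarith
      simp only [hU, max_eq_right k3, min_eq_left hM0.le, mul_zero]
    · have : 1 / 2 ≤ dist z x := by
        have := dist_triangle z x a
        linarith [not_lt.1 hz1]
      rw [eta_eq_zero (by norm_num) this, zero_mul, mul_zero]
  · beta_reduce
    rw [eta_eq_one (R := 1 / 2) (by norm_num) (by rw [dist_self]; norm_num), one_mul, hxyd,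
      le_inv_mul_iff₀ hN0]
    have k1 : (θ + η) * M ≤ U x := by
      apply le_min
      · apply le_max_of_le_left
        rw [hδ, hM]
        linarith
      · have : θ + η ≤ 1 := by rw [hη]; linarith
        nlinarith
    refine le_trans ?_ k1
    have k2 : N * θ ≤ θ + η := by
      rw [hNd, hM]
      have : (1 + MC V p * d ^ al V p * cc V p / (1 / 2) ^ al V p) * θ =
          θ + θ * (MC V p * cc V p / (1 / 2) ^ al V p) * d ^ al V p := by ring
      linarith
    have := mul_le_mul_of_nonneg_right k2 hM0.le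
    rw [hM] at this ⊢
    linarith

end Pool.Agent.H411Z.HM
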