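import Mathlib
import Pool.Agent.H411Z.HM.Cap

set_option autoImplicit false
set_option linter.unusedSectionVars false
set_option linter.unusedVariables false

open Set Filter Topology MeasureTheory Metric Module
open scoped ContDiff NNReal ENNReal

namespace Pool.Agent.H411Z.HM

open Pool.Agent.Helper930.WD

section general

variable {V : Type*} [NormedAddCommGroup V] [InnerProductSpace ℝ V] [FiniteDimensional ℝ V]
  [MeasurableSpace V] [BorelSpace V]

lemma eLpNorm_eq_en {p : ℝ} (hp : 0 < p) (D : V → V →L[ℝ] ℝ) :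
    eLpNorm D (ENNReal.ofReal p) volume = En p D ^ (1 / p) := by
  rw [eLpNorm_eq_lintegral_rpow_enorm_toReal (by simpa using hp) (by simp),
    ENNReal.toReal_ofReal hp.le]
  rfl

lemma NLe.eLpNorm_le {p : ℝ} (hp : 0 < p) {w : V → ℝ} {A : ℝ} (hA : 0 ≤ A) (h : NLe p w A) :
    eLpNorm (fderiv ℝ w) (ENNReal.ofReal p) volume ≤ ENNReal.ofReal A := by
  rw [eLpNorm_eq_en hp]
  refine (ENNReal.rpow_le_rpow h (by positivity)).trans (le_of_eq ?_)
  rw [ENNReal.ofReal_rpow_of_nonneg (by positivity) (by positivity), ← Real.rpow_mul hA,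
    mul_one_div_cancel hp.ne', Real.rpow_one]

lemma cauchy_est {p : ℝ} (h : Hyp V p) {Ω : Set V} (hne : Ωᶜ.Nonempty) {x : V}
    (ha : 0 < HH p Ω x) {w : ℕ → V → ℝ} (hw : ∀ k, Adm p Ω (w k))
    (ht : Tendsto (fun k => w k x) atTop (𝓝 (HH p Ω x))) {ε : ℝ} (hε : 0 < ε) :
    ∃ N, ∀ k ≥ N, ∀ l ≥ N, NLe p (fun z => w k z - w l z) ε := by
  have hp := h.pos
  set a := HH p Ω x with hadef
  have hc : ContinuousAt (fun s : ℝ => s ^ p) 1 := Real.continuousAt_rpow_const 1 p (Or.inr hp.le)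
  have hε' : 0 < (ε / 2) ^ p := by positivity
  have h1 : ∀ᶠ s : ℝ in 𝓝[<] 1, 1 - (ε / 2) ^ p < s ^ p := by
    apply Eventually.filter_mono nhdsWithin_le_nhds
    apply hc.eventually (lt_mem_nhds _)
    beta_reduce
    rw [Real.one_rpow]
    linarith
  obtain ⟨s, hs, hs0, hs1⟩ := (h1.and (Ioo_mem_nhdsLT zero_lt_one)).exists
  obtain ⟨N, hN⟩ := eventually_atTop.1 (ht.eventually (lt_mem_nhds (show s * a < a by nlinarith)))
  refine ⟨N, fun k hk l hl => ?_⟩
  obtain ⟨B, A, hB, hA, hAB, k1, k2⟩ := split_en hp (clarkson h.two_lt.le (hw k).lip (hw l).lip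
    (NLe.one_iff.1 (hw k).en) (NLe.one_iff.1 (hw l).en))
  have k3 := le_mul_HH h hne (((hw k).lip.add (hw l).lip).const_mul (1 / 2))
    (fun z => by have := (hw k).nn z; have := (hw l).nn z; positivity)
    (fun z hz => by rw [(hw k).zero z hz, (hw l).zero z hz]; norm_num) hB k1 x
  have k4 : s ≤ B := by
    have := hN k hk
    have := hN l hl
    by_contra hcon
    nlinarith [not_le.1 hcon]
  have k5 := Real.rpow_le_rpow hs0.le k4 hp.le
  have k6 : A ≤ ε / 2 := by
    rw [← Real.rpow_le_rpow_iff hA (by positivity) hp]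
    linarith
  have k7 := (NLe.const_mul hp hA k2 (c := 2) zero_le_two).mono hp (by positivity)
    (show 2 * A ≤ ε by linarith)
  convert k7 using 2 with z
  ring

lemma exists_limit {p : ℝ} (h : Hyp V p) {Ω : Set V} (hne : Ωᶜ.Nonempty) {x : V}
    (ha : 0 < HH p Ω x) : ∃ (u : V → ℝ) (D : V → V →L[ℝ] ℝ) (w : ℕ → V → ℝ), Continuous u ∧
      WeakDerivOn univ u D ∧ En p D ≤ 1 ∧ (∀ k, Adm p Ω (w k)) ∧
      (∀ z, Tendsto (fun k => w k z) atTop (𝓝 (u z))) ∧ u x = HH p Ω x := by
  have hp := h.pos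
  have hC := MC_pos h
  have hal := h.al_pos
  obtain ⟨y₀, hy₀⟩ := hne
  obtain ⟨t, -, ht, hmem⟩ := exists_seq_tendsto_sSup (S := {t | ∃ w, Adm p Ω w ∧ t = w x})
    ⟨0, _, adm_zero h Ω, rfl⟩ ⟨MC V p * dist x y₀ ^ al V p, by
      rintro t ⟨v, hv, rfl⟩
      exact hv.le h x hy₀⟩
  choose w hw htw using hmem
  have ht' : Tendsto (fun k => w k x) atTop (𝓝 (HH p Ω x)) := by
    simp only [← htw]
    exact ht
  have hcau := fun ε (hε : 0 < ε) => cauchy_est h ⟨y₀, hy₀⟩ ha hw ht' hε
  have hptc : ∀ z, CauchySeq fun k => w k z := by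
    intro z
    rw [Metric.cauchySeq_iff]
    intro ε hε
    have hb : 0 ≤ MC V p * dist z y₀ ^ al V p := by positivity
    obtain ⟨N, hN⟩ := hcau (ε / (MC V p * dist z y₀ ^ al V p + 1)) (by positivity)
    have key : ∀ k ≥ N, ∀ l ≥ N, w k z - w l z < ε := by
      intro k hk l hl
      have := morrey h ((hw k).lip.sub (hw l).lip) (by positivity) (hN k hk l hl) z y₀
      rw [(hw k).zero y₀ hy₀, (hw l).zero y₀ hy₀, sub_self, sub_zero] at this
      refine this.trans_lt ?_
      rw [← mul_div_assoc, div_lt_iff₀ (by positivity)]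
      nlinarith
    refine ⟨N, fun k hk l hl => ?_⟩
    rw [Real.dist_eq, abs_lt]
    exact ⟨by linarith [key l hl k hk], key k hk l hl⟩
  choose u hu using fun z => cauchySeq_tendsto_of_complete (hptc z)
  have hH : ∀ z z', u z - u z' ≤ MC V p * dist z z' ^ al V p := fun z z' =>
    le_of_tendsto' ((hu z).sub (hu z')) fun k => by
      simpa using morrey h (hw k).lip zero_le_one (hw k).en z z'
  have huc : Continuous u := by
    rw [continuous_iff_continuousAt]
    intro z
    rw [ContinuousAt, tendsto_iff_dist_tendsto_zero]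
    have h1 : Continuous fun z' => MC V p * dist z' z ^ al V p :=
      continuous_const.mul ((continuous_id.dist continuous_const).rpow_const fun _ => Or.inr hal.le)
    have h2 := h1.tendsto z
    simp only [dist_self, Real.zero_rpow hal.ne', mul_zero] at h2
    refine squeeze_zero (fun _ => dist_nonneg) (fun z' => ?_) h2
    rw [Real.dist_eq, abs_le]
    have := hH z z'
    rw [dist_comm] at this
    exact ⟨by linarith, hH z' z⟩
  have : Fact (1 ≤ ENNReal.ofReal p) := ⟨by simpa using h.one_lt.le⟩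
  have hmem : ∀ k, MemLp (fderiv ℝ (w k)) (ENNReal.ofReal p) volume := fun k =>
    ⟨(measurable_fderiv ℝ _).aestronglyMeasurable,
      ((hw k).en.eLpNorm_le hp zero_le_one).trans_lt ENNReal.ofReal_lt_top⟩
  have hfc : CauchySeq fun k => (hmem k).toLp := by
    rw [Metric.cauchySeq_iff]
    intro ε hε
    obtain ⟨N, hN⟩ := hcau (ε / 2) (by positivity)
    refine ⟨N, fun k hk l hl => ?_⟩
    rw [Lp.dist_def]
    have e : (⇑(hmem k).toLp - ⇑(hmem l).toLp) =ᵐ[volume] fderiv ℝ fun z => w k z - w l z := by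
      filter_upwards [(hmem k).coeFn_toLp, (hmem l).coeFn_toLp, (hw k).lip.ae_diff,
        (hw l).lip.ae_diff] with z a b c d
      rw [Pi.sub_apply, a, b]
      exact (c.hasFDerivAt.sub d.hasFDerivAt).fderiv.symm
    rw [eLpNorm_congr_ae e]
    have := ENNReal.toReal_le_of_le_ofReal (by positivity)
      ((hN k hk l hl).eLpNorm_le hp (by positivity))
    linarith
  obtain ⟨F, hF⟩ := cauchySeq_tendsto_of_complete hfc
  have hFn : ‖F‖ ≤ 1 := by
    refine le_of_tendsto' hF.norm fun k => ?_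
    rw [Lp.norm_toLp]
    exact ENNReal.toReal_le_of_le_ofReal zero_le_one ((hw k).en.eLpNorm_le hp zero_le_one)
  have hFE : En p F ≤ 1 := by
    have h1 : eLpNorm F (ENNReal.ofReal p) volume ≤ 1 := by
      rw [← ENNReal.ofReal_toReal (Lp.eLpNorm_ne_top F), ← Lp.norm_def, ← ENNReal.ofReal_one]
      exact ENNReal.ofReal_le_ofReal hFn
    rw [eLpNorm_eq_en hp] at h1
    have h2 := ENNReal.rpow_le_rpow h1 hp.le
    rwa [← ENNReal.rpow_mul, one_div_mul_cancel hp.ne', ENNReal.rpow_one, ENNReal.one_rpow] at h2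
  have hFt : Tendsto (fun k => En p (fderiv ℝ (w k) - ⇑F) ^ (1 / p)) atTop (𝓝 0) := by
    have h1 := (Lp.tendsto_Lp_iff_tendsto_eLpNorm' _ F).1 hF
    refine h1.congr fun k => ?_
    rw [← eLpNorm_eq_en hp]
    apply eLpNorm_congr_ae
    filter_upwards [(hmem k).coeFn_toLp] with z a
    rw [Pi.sub_apply, Pi.sub_apply, a]
  have hFl : LocallyIntegrable F volume := (Lp.memLp F).locallyIntegrable Fact.out
  refine ⟨u, F, w, huc, ⟨locallyIntegrableOn_univ.2 huc.locallyIntegrable,
    locallyIntegrableOn_univ.2 hFl, fun φ hφ hc _ v => ?_⟩, hFE, hw, hu,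
    tendsto_nhds_unique (hu x) ht'⟩
  have hid := fun k => (lip_weak (hw k).lip.choose_spec).2.2 φ hφ hc (subset_univ _) v
  have hcf : Continuous (fun x => fderiv ℝ φ x v) :=
    (hφ.continuous_fderiv (by norm_num)).clm_apply continuous_const
  have hcs : HasCompactSupport (fun x => fderiv ℝ φ x v) :=
    (hc.fderiv (𝕜 := ℝ)).comp_left (g := fun A : V →L[ℝ] ℝ => A v) (by simp)
  have t1 : Tendsto (fun k => ∫ z, fderiv ℝ φ z v • w k z) atTop (𝓝 (∫ z, fderiv ℝ φ z v • u z)) := by
    have hb : Continuous fun z => MC V p * dist z y₀ ^ al V p :=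
      continuous_const.mul ((continuous_id.dist continuous_const).rpow_const fun _ => Or.inr hal.le)
    refine tendsto_integral_of_dominated_convergence
      (fun z => ‖fderiv ℝ φ z v‖ * (MC V p * dist z y₀ ^ al V p)) ?_ ?_ ?_ ?_
    · exact fun k => (hcf.smul (hw k).lip.continuous).aestronglyMeasurable
    · exact (hcf.norm.mul hb).integrable_of_hasCompactSupport hcs.norm.mul_right
    · intro k
      refine Eventually.of_forall fun z => ?_
      rw [norm_smul, Real.norm_of_nonneg ((hw k).nn z)]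
      exact mul_le_mul_of_nonneg_left ((hw k).le h z hy₀) (norm_nonneg _)
    · exact Eventually.of_forall fun z => (hu z).const_smul _
  have hint : ∀ {D : V → V →L[ℝ] ℝ}, LocallyIntegrable D volume →
      Integrable (fun z => φ z • D z v) volume := by
    intro D hD
    have := (ContinuousLinearMap.apply ℝ ℝ v).integrable_comp
      (hD.integrable_smul_left_of_hasCompactSupport hφ.continuous hc)
    simpa using this
  have t2 : Tendsto (fun k => ∫ z, φ z • fderiv ℝ (w k) z v) atTop (𝓝 (∫ z, φ z • F z v)) := by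
    rw [← tendsto_sub_nhds_zero_iff, tendsto_zero_iff_enorm_tendsto_zero]
    obtain ⟨M, hM⟩ := hφ.continuous.bounded_above_of_compact_support hc
    have hM0 : 0 ≤ M := (norm_nonneg _).trans (hM 0)
    have hp1 : 0 ≤ 1 - 1 / p := by
      have : 1 / p ≤ 1 := (div_le_one hp).2 h.one_lt.le
      linarith
    have t3 := ENNReal.Tendsto.const_mul
      (a := ENNReal.ofReal (M * ‖v‖) * volume (tsupport φ) ^ (1 - 1 / p)) hFt
      (Or.inr (ENNReal.mul_ne_top ENNReal.ofReal_ne_top
        (ENNReal.rpow_ne_top_of_nonneg hp1 hc.isCompact.measure_lt_top.ne)))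
    rw [mul_zero] at t3
    refine tendsto_of_tendsto_of_tendsto_of_le_of_le tendsto_const_nhds t3 (fun _ => bot_le)
      fun k => ?_
    beta_reduce
    rw [← integral_sub (hint (locallyIntegrableOn_univ.1 (lip_weak (hw k).lip.choose_spec).2.1))
      (hint hFl)]
    refine (enorm_integral_le_lintegral_enorm _).trans ?_
    have hm : Measurable fun z => ‖(fderiv ℝ (w k) - ⇑F) z‖ₑ :=
      ((measurable_fderiv ℝ _).sub (Lp.stronglyMeasurable F).measurable).enorm
    calc ∫⁻ z, ‖φ z • fderiv ℝ (w k) z v - φ z • F z v‖ₑ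
        ≤ ∫⁻ z, (tsupport φ).indicator
          (fun z => ENNReal.ofReal (M * ‖v‖) * ‖(fderiv ℝ (w k) - ⇑F) z‖ₑ) z := by
          apply lintegral_mono
          intro z
          by_cases hz : z ∈ tsupport φ
          · simp only [indicator_of_mem hz]
            rw [← ofReal_norm, ← ofReal_norm, ← ENNReal.ofReal_mul (by positivity)]
            apply ENNReal.ofReal_le_ofReal
            rw [← smul_sub, norm_smul, mul_assoc]
            apply mul_le_mul (hM z) _ (norm_nonneg _) hM0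
            rw [mul_comm]
            exact ((fderiv ℝ (w k) - ⇑F) z).le_opNorm v
          · simp [image_eq_zero_of_notMem_tsupport hz]
      _ = ENNReal.ofReal (M * ‖v‖) * ∫⁻ z in tsupport φ, ‖(fderiv ℝ (w k) - ⇑F) z‖ₑ := by
          rw [lintegral_indicator (isClosed_tsupport φ).measurableSet, lintegral_const_mul _ hm]
      _ ≤ _ := by
          rw [mul_assoc, mul_comm (volume _ ^ _)]
          gcongr
          exact lintegral_ball_le h.one_lt hm _
  simp only [hid] at t1
  exact tendsto_nhds_unique t1 t2.neg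

end general

variable {n : ℕ}

lemma al_E (p : ℝ) : al (E n) p = 1 - (n : ℝ) / p := by
  unfold al
  rw [finrank_euclideanSpace_fin]

lemma exists_extremal {p : ℝ} (h : Hyp (E n) p) {Ω : Set (E n)} (hΩ : IsOpen Ω)
    (hb : Bornology.IsBounded Ω) (hne : Ωᶜ.Nonempty) {κ : ℝ} (hκ : 0 < κ)
    (hmax : ∀ z ∈ Ω, HH p Ω z ≤ κ * infDist z Ωᶜ ^ al (E n) p) {x : E n} (hx : x ∈ Ω)
    (hxm : HH p Ω x = κ * infDist x Ωᶜ ^ al (E n) p) :
    ∃ (u : E n → ℝ) (w : ℕ → E n → ℝ), IsExtremal p Ω u ∧ (∀ k, Adm p Ω (w k)) ∧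
      (∀ z, Tendsto (fun k => w k z) atTop (𝓝 (u z))) ∧ u x = κ * infDist x Ωᶜ ^ al (E n) p ∧
      ∀ z ∈ Ω, u z ≤ κ * infDist z Ωᶜ ^ al (E n) p := by
  have hp := h.pos
  have hd : ∀ z ∈ Ω, 0 < infDist z Ωᶜ ^ al (E n) p := fun z hz =>
    Real.rpow_pos_of_pos (infDist_pos hΩ hne hz) _
  obtain ⟨u, D, w, huc, hD, hE, hw, hl, hux⟩ := exists_limit h hne (x := x)
    (by rw [hxm]; exact mul_pos hκ (hd x hx))
  rw [hxm] at hux
  have hu0 : ∀ z, z ∉ Ω → u z = 0 := fun z hz =>
    tendsto_nhds_unique (hl z) (by simp only [(hw _).zero z hz]; exact tendsto_const_nhds)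
  have hmem := memD0_of_weak hp huc hD (hE.trans_lt ENNReal.one_lt_top) hu0
  have hune : u ≠ 0 := by
    intro h0
    rw [h0] at hux
    exact (mul_pos hκ (hd x hx)).ne hux
  refine ⟨u, w, ⟨hune, _, hmem, le_antisymm ?_ ?_⟩, hw, hl, hux, fun z hz =>
    le_of_tendsto' (hl z) fun k => ((hw k).le_HH h hne z).trans (hmax z hz)⟩
  · have h1 : rayleigh p Ω u (fun x => (InnerProductSpace.toDual ℝ (E n)).symm (D x)) ≤
        (ENNReal.ofReal (κ ^ p))⁻¹ := by
      unfold rayleigh
      rw [sup_pow_eq hp hΩ hne huc, lintegral_toDual_symm, ← one_div]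
      apply ENNReal.div_le_div hE
      refine le_trans (le_of_eq ?_) (le_iSup₂ (f := fun x (_ : x ∈ Ω) => rat p Ω x (u x)) x hx)
      unfold rat
      rw [← al_E, hux, mul_div_cancel_right₀ _ (hd x hx).ne', Real.enorm_eq_ofReal hκ.le,
        ENNReal.ofReal_rpow_of_nonneg hκ.le hp.le]
    refine h1.trans (le_lam hp hΩ hne fun v G hv z hz => mul_rat_le_of_lip h.one_lt hb ?_ hv)
    intro f L hf hf0 hfz
    by_cases hE : En p (fderiv ℝ f) = ⊤
    · rw [hE]; exact le_top
    set A := (En p (fderiv ℝ f)).toReal ^ (1 / p) with hA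
    have hA0 : 0 ≤ A := by positivity
    have hAp : ENNReal.ofReal (A ^ p) = En p (fderiv ℝ f) := by
      rw [hA, ← Real.rpow_mul ENNReal.toReal_nonneg, one_div_mul_cancel hp.ne', Real.rpow_one,
        ENNReal.ofReal_toReal hE]
    have h2 := (le_mul_HH h hne ⟨L, hf⟩ hf0 hfz hA0 hAp.ge z).trans
      (mul_le_mul_of_nonneg_left (hmax z hz) hA0)
    have h3 : rat p Ω z (f z) ≤ ENNReal.ofReal (κ ^ p) * ENNReal.ofReal (A ^ p) := by
      unfold rat
      rw [← al_E, Real.enorm_eq_ofReal (div_nonneg (hf0 z) (hd z hz).le),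
        ENNReal.ofReal_rpow_of_nonneg (div_nonneg (hf0 z) (hd z hz).le) hp.le,
        ← ENNReal.ofReal_mul (by positivity), ← Real.mul_rpow hκ.le hA0]
      apply ENNReal.ofReal_le_ofReal
      apply Real.rpow_le_rpow (div_nonneg (hf0 z) (hd z hz).le) _ hp.le
      rw [div_le_iff₀ (hd z hz)]
      linarith
    calc _ ≤ (ENNReal.ofReal (κ ^ p))⁻¹ * (ENNReal.ofReal (κ ^ p) * ENNReal.ofReal (A ^ p)) := by
          gcongr
      _ = _ := by
          rw [← mul_assoc, ENNReal.inv_mul_cancel (by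
            simpa using Real.rpow_pos_of_pos hκ p) ENNReal.ofReal_ne_top, one_mul, hAp]
  · exact iInf_le_of_le u (iInf_le_of_le _ (iInf_le_of_le hmem (iInf_le_of_le hune le_rfl)))

end Pool.Agent.H411Z.HM
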