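import Mathlib
import Pool.Agent.H411Z.HM.Defs

set_option autoImplicit false
set_option linter.unusedSectionVars false
set_option linter.unusedVariables false

open Set Filter Topology MeasureTheory Metric Module

namespace Pool.Agent.H411Z.HM

variable {m : ℕ}

/-- coordinate vectors -/
noncomputable def ev (i : Fin (m + 2)) : E (m + 2) := EuclideanSpace.single i 1

lemma norm_ev (i : Fin (m + 2)) : ‖ev i‖ = 1 := by simp [ev]

lemma ev_self (i : Fin (m + 2)) : ev i i = 1 := by simp [ev]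

lemma ev_ne {i j : Fin (m + 2)} (h : j ≠ i) : ev i j = 0 := by simp [ev, h]

lemma dist_add_ev (z : E (m + 2)) (s : ℝ) (i : Fin (m + 2)) : dist z (z + s • ev i) = |s| := by
  rw [dist_self_add_right, norm_smul, norm_ev, mul_one, Real.norm_eq_abs]

lemma coord_le (z w : E (m + 2)) (i : Fin (m + 2)) : |z i - w i| ≤ dist z w := by
  rw [← Real.dist_eq]
  exact PiLp.dist_apply_le z w i

/-- half side lengths of the box -/
def side (L : ℝ) (i : Fin (m + 2)) : ℝ := if i = 0 then L else 1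

/-- a long thin box -/
def box (m : ℕ) (L : ℝ) : Set (E (m + 2)) := {z | ∀ i, |z i| < side L i}

/-- centre of the second ball -/
noncomputable def ctr (m : ℕ) (L : ℝ) : E (m + 2) := (L / 2) • ev 0

/-- the domain -/
def Om (m : ℕ) (L t ρ : ℝ) : Set (E (m + 2)) :=
  box m L \ (closedBall 0 t ∪ closedBall (ctr m L) ρ)

lemma mem_Om {L t ρ : ℝ} {z : E (m + 2)} :
    z ∈ Om m L t ρ ↔ z ∈ box m L ∧ t < dist z 0 ∧ ρ < dist z (ctr m L) := by
  simp only [Om, Set.mem_sdiff, mem_union, mem_closedBall, not_or, not_le]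

lemma isOpen_box (L : ℝ) : IsOpen (box m L) := by
  have : box m L = ⋂ i, {z : E (m + 2) | |z i| < side L i} := by
    ext z; simp [box]
  rw [this]
  exact isOpen_iInter_of_finite fun i => isOpen_lt (by fun_prop) continuous_const

lemma convex_box (L : ℝ) : Convex ℝ (box m L) := by
  intro x hx y hy a b ha hb hab i
  have h1 := abs_lt.1 (hx i)
  have h2 := abs_lt.1 (hy i)
  have e : (a • x + b • y) i = a * x i + b * y i := by simp
  rw [e, abs_lt]
  rcases ha.eq_or_lt with rfl | ha'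
  · rw [zero_add] at hab
    rw [hab]
    constructor <;> linarith
  · have e2 : side L i = a * side L i + b * side L i := by rw [← add_mul, hab, one_mul]
    constructor <;> nlinarith

lemma isOpen_Om (L t ρ : ℝ) : IsOpen (Om m L t ρ) :=
  (isOpen_box L).sdiff (isClosed_closedBall.union isClosed_closedBall)

lemma dist_box {L : ℝ} {z w : E (m + 2)} (hz : z ∈ box m L) (hw : w ∈ box m L) :
    dist z w ≤ |z 0 - w 0| + 2 * (m + 1) := by
  have h1 : dist z w ≤ ∑ i, |z i - w i| := by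
    rw [EuclideanSpace.dist_eq, Real.sqrt_le_left (Finset.sum_nonneg fun i _ => abs_nonneg _)]
    have := Finset.sum_sq_le_sq_sum_of_nonneg (s := Finset.univ) (f := fun i => |z i - w i|)
      (fun i _ => abs_nonneg _)
    simpa only [Real.dist_eq] using this
  refine h1.trans ?_
  rw [Fin.sum_univ_succ]
  have h2 : ∑ i : Fin (m + 1), |z i.succ - w i.succ| ≤ ∑ _i : Fin (m + 1), (2 : ℝ) := by
    apply Finset.sum_le_sum
    intro i _
    have a := abs_lt.1 (hz i.succ)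
    have b := abs_lt.1 (hw i.succ)
    simp only [side, Fin.succ_ne_zero, if_false] at a b
    rw [abs_le]
    constructor <;> linarith
  simp only [Finset.sum_const, Finset.card_univ, Fintype.card_fin, nsmul_eq_mul] at h2
  push_cast at h2
  linarith

lemma box_subset_ball {L : ℝ} {x : E (m + 2)} (hx : x ∈ box m L) :
    box m L ⊆ ball x (2 * L + 2 * (m + 1)) := by
  intro z hz
  have h := dist_box hz hx
  have a := abs_lt.1 (hz 0)
  have b := abs_lt.1 (hx 0)
  simp only [side, if_true] at a b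
  have : |z 0 - x 0| < 2 * L := by rw [abs_lt]; constructor <;> linarith
  rw [mem_ball]
  linarith

lemma zero_mem_box {L : ℝ} (hL : 0 < L) : (0 : E (m + 2)) ∈ box m L := by
  intro i
  unfold side
  split_ifs <;> simpa

lemma isBounded_Om {L : ℝ} (hL : 0 < L) (t ρ : ℝ) : Bornology.IsBounded (Om m L t ρ) :=
  isBounded_ball.subset (sdiff_subset.trans (box_subset_ball (zero_mem_box hL)))

lemma ev_one_notMem (L : ℝ) : ev 1 ∉ box m L := fun h => by
  have := h 1
  simp [side, ev_self] at this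

lemma compl_Om_nonempty (L t ρ : ℝ) : (Om m L t ρ)ᶜ.Nonempty :=
  ⟨ev 1, fun h => ev_one_notMem L h.1⟩

lemma exists_near_out (L : ℝ) {z : E (m + 2)} (hz : z ∈ box m L) :
    ∃ y, y ∉ box m L ∧ dist z y ≤ 1 := by
  have a := abs_lt.1 (hz 1)
  simp only [side, one_ne_zero, if_false] at a
  rcases le_total 0 (z 1) with h | h
  · refine ⟨z + (1 - z 1) • ev 1, fun hy => ?_, ?_⟩
    · have := hy 1
      simp [side, ev_self] at this
    · rw [dist_add_ev, abs_of_nonneg (by linarith)]; linarith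
  · refine ⟨z + (-1 - z 1) • ev 1, fun hy => ?_, ?_⟩
    · have := hy 1
      simp [side, ev_self] at this
    · rw [dist_add_ev, abs_of_nonpos (by linarith)]; linarith

lemma exists_ball_out {L : ℝ} {z y : E (m + 2)} (hz : z ∈ box m L) (hy : y ∉ box m L) {r : ℝ}
    (hr : 0 < r) : ∃ c, closedBall c r ⊆ (box m L)ᶜ ∧ dist z c ≤ r + dist z y := by
  simp only [box, mem_ofPred_eq, not_forall, not_lt] at hy
  obtain ⟨i, hi⟩ := hy
  have a := abs_lt.1 (hz i)
  have b := abs_le.1 (coord_le z y i)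
  rcases le_abs'.1 hi with h | h
  · refine ⟨z + (-side L i - z i - r) • ev i, fun w hw hb => ?_, ?_⟩
    · have h1 := abs_le.1 ((coord_le w _ i).trans hw)
      have h2 := abs_lt.1 (hb i)
      simp only [PiLp.add_apply, PiLp.smul_apply, ev_self, smul_eq_mul, mul_one] at h1
      linarith
    · rw [dist_add_ev, abs_of_nonpos (by linarith)]; linarith
  · refine ⟨z + (side L i - z i + r) • ev i, fun w hw hb => ?_, ?_⟩
    · have h1 := abs_le.1 ((coord_le w _ i).trans hw)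
      have h2 := abs_lt.1 (hb i)
      simp only [PiLp.add_apply, PiLp.smul_apply, ev_self, smul_eq_mul, mul_one] at h1
      linarith
    · rw [dist_add_ev, abs_of_nonneg (by linarith)]; linarith

lemma Om_stab {L t t' ρ : ℝ} (ht : 0 ≤ t) {z : E (m + 2)} (hz : z ∉ Om m L t' ρ) :
    ∃ y, y ∉ Om m L t ρ ∧ dist z y ≤ |t - t'| := by
  by_cases h : z ∈ Om m L t ρ
  · have h1 := mem_Om.1 h
    have h2 : dist z 0 ≤ t' := by
      by_contra hcon
      exact hz (mem_Om.2 ⟨h1.1, not_le.1 hcon, h1.2.2⟩)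
    have h3 := h1.2.1
    rw [dist_zero_right] at h2 h3
    have h4 : 0 < ‖z‖ := by linarith
    refine ⟨(t / ‖z‖) • z, fun hy => ?_, ?_⟩
    · have := (mem_Om.1 hy).2.1
      rw [dist_zero_right, norm_smul, Real.norm_eq_abs, abs_of_nonneg (by positivity),
        div_mul_cancel₀ _ h4.ne'] at this
      exact lt_irrefl _ this
    · rw [dist_eq_norm, show z - (t / ‖z‖) • z = (1 - t / ‖z‖) • z by rw [sub_smul, one_smul],
        norm_smul, Real.norm_eq_abs, abs_of_nonneg (by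
          rw [sub_nonneg, div_le_one h4]; exact h3.le), sub_mul, one_mul, div_mul_cancel₀ _ h4.ne']
      linarith [neg_abs_le (t - t')]
  · exact ⟨z, h, by rw [dist_self]; exact abs_nonneg _⟩

lemma ctr_zero (L : ℝ) : ctr m L 0 = L / 2 := by simp [ctr, ev_self]

lemma ctr_ne {i : Fin (m + 2)} (L : ℝ) (h : i ≠ 0) : ctr m L i = 0 := by simp [ctr, ev_ne h]

lemma dist_ctr {L : ℝ} (hL : 0 < L) : dist (ctr m L) 0 = L / 2 := by
  rw [dist_zero_right, ctr, norm_smul, norm_ev, mul_one, Real.norm_eq_abs, abs_of_pos (by linarith)]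

lemma mem_box_of_near {L : ℝ} (hL : 4 ≤ L) {a z : E (m + 2)} (ha : a = 0 ∨ a = ctr m L)
    (hz : dist z a < 1) : z ∈ box m L := by
  intro i
  have h := (coord_le z a i).trans_lt hz
  rw [abs_lt] at h ⊢
  unfold side
  rcases ha with rfl | rfl
  · simp only [PiLp.zero_apply, sub_zero] at h
    split_ifs <;> constructor <;> linarith
  · split_ifs with hi
    · subst hi
      rw [ctr_zero] at h
      constructor <;> linarith
    · rw [ctr_ne L hi] at h
      constructor <;> linarith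

lemma annulus_one {L t ρ : ℝ} (hL : 4 ≤ L) (hρ : ρ ≤ 1 / 2) (z : E (m + 2)) (h1 : t < dist z 0)
    (h2 : dist z 0 < 1) : z ∈ Om m L t ρ := by
  refine mem_Om.2 ⟨mem_box_of_near hL (Or.inl rfl) h2, h1, ?_⟩
  have := dist_triangle (ctr m L) z 0
  rw [dist_ctr (by linarith), dist_comm] at this
  linarith

lemma annulus_two {L t ρ : ℝ} (hL : 4 ≤ L) (ht : t ≤ 1 / 2) (z : E (m + 2))
    (h1 : ρ < dist z (ctr m L)) (h2 : dist z (ctr m L) < 1) : z ∈ Om m L t ρ := by
  refine mem_Om.2 ⟨mem_box_of_near hL (Or.inr rfl) h2, ?_, h1⟩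
  have := dist_triangle (ctr m L) z 0
  rw [dist_ctr (by linarith), dist_comm] at this
  linarith

lemma mem_Om_of_one {L t ρ : ℝ} (ht : t ≤ 1 / 2) (hρ : ρ ≤ 1 / 2) {z : E (m + 2)}
    (hz : z ∈ box m L) (h : 1 / 2 < |z 1|) : z ∈ Om m L t ρ := by
  have h1 := coord_le z 0 1
  have h2 := coord_le z (ctr m L) 1
  rw [PiLp.zero_apply, sub_zero] at h1
  rw [ctr_ne L one_ne_zero, sub_zero] at h2
  exact mem_Om.2 ⟨hz, by linarith, by linarith⟩

lemma mem_Om_of_zero {L t ρ : ℝ} (hL : 4 ≤ L) (ht : t ≤ 1 / 2) (hρ : ρ ≤ 1 / 2) {z : E (m + 2)}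
    (hz : z ∈ box m L) (h : z 0 < -1) : z ∈ Om m L t ρ := by
  have h1 := coord_le z 0 0
  have h2 := coord_le z (ctr m L) 0
  rw [PiLp.zero_apply, sub_zero] at h1
  rw [ctr_zero] at h2
  exact mem_Om.2 ⟨hz, by linarith [neg_abs_le (z 0)], by linarith [neg_abs_le (z 0 - L / 2)]⟩

lemma pt_mem_box {L : ℝ} (hL : 0 < L) {a b : ℝ} (ha : |a| < L) (hb : |b| < 1) :
    a • ev 0 + b • ev 1 ∈ box m L := by
  intro i
  simp only [PiLp.add_apply, PiLp.smul_apply, smul_eq_mul, side]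
  by_cases h0 : i = 0
  · subst h0
    rw [ev_self, ev_ne zero_ne_one]
    simpa using ha
  · by_cases h1 : i = 1
    · subst h1
      rw [ev_self, ev_ne one_ne_zero]
      simpa using hb
    · rw [ev_ne h0, ev_ne h1]
      simp [h0]

lemma dist_le_move {z a : E (m + 2)} (ha : a 1 = 0) {s : ℝ} (hs : 0 ≤ s * z 1) :
    dist z a ≤ dist (z + s • ev 1) a := by
  rw [dist_eq_norm, dist_eq_norm, ← sq_le_sq₀ (norm_nonneg _) (norm_nonneg _),
    show z + s • ev 1 - a = (z - a) + s • ev 1 by abel, norm_add_sq_real, real_inner_smul_right]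
  have : inner ℝ (z - a) (ev 1) = z 1 := by
    simp [ev, EuclideanSpace.inner_single_right, ha]
  rw [this]
  nlinarith [sq_nonneg ‖s • ev (m := m) 1‖]

lemma isConnected_Om {L t ρ : ℝ} (hL : 4 ≤ L) (ht : t ≤ 1 / 2) (hρ : ρ ≤ 1 / 2) :
    IsConnected (Om m L t ρ) := by
  have hL0 : 0 < L := by linarith
  have hlin : ∀ i : Fin (m + 2), IsLinearMap ℝ (fun z : E (m + 2) => z i) :=
    fun i => ⟨fun _ _ => rfl, fun _ _ => rfl⟩
  set Sp : Set (E (m + 2)) := box m L ∩ {z | 1 / 2 < z 1} with hSp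
  set Sm : Set (E (m + 2)) := box m L ∩ {z | z 1 < -(1 / 2)} with hSm
  set M : Set (E (m + 2)) := box m L ∩ {z | z 0 < -1} with hM
  have cSp : IsPreconnected Sp := ((convex_box L).inter (convex_halfSpace_gt (hlin 1) _)).isPreconnected
  have cSm : IsPreconnected Sm := ((convex_box L).inter (convex_halfSpace_lt (hlin 1) _)).isPreconnected
  have cM : IsPreconnected M := ((convex_box L).inter (convex_halfSpace_lt (hlin 0) _)).isPreconnected
  have hb : ∀ b : ℝ, |b| < 1 → (-2 : ℝ) • ev 0 + b • ev 1 ∈ M := fun b hb =>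
    ⟨pt_mem_box hL0 (by rw [abs_neg, abs_two]; linarith) hb, by
      simp [ev_self, ev_ne (zero_ne_one (α := Fin (m + 2)))]⟩
  have hp1 : (-2 : ℝ) • ev 0 + (3 / 4 : ℝ) • ev 1 ∈ Sp :=
    ⟨(hb _ (by rw [abs_lt]; constructor <;> norm_num)).1, by
      simp [ev_self, ev_ne (one_ne_zero (α := Fin (m + 2)))]; norm_num⟩
  have hp2 : (-2 : ℝ) • ev 0 + (-(3 / 4) : ℝ) • ev 1 ∈ Sm :=
    ⟨(hb _ (by rw [abs_lt]; constructor <;> norm_num)).1, by
      simp [ev_self, ev_ne (one_ne_zero (α := Fin (m + 2)))]; norm_num⟩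
  have hp1M := hb (3 / 4) (by rw [abs_lt]; constructor <;> norm_num)
  have hp2M := hb (-(3 / 4)) (by rw [abs_lt]; constructor <;> norm_num)
  have cC : IsPreconnected ((Sp ∪ M) ∪ Sm) :=
    (cSp.union _ hp1 hp1M cM).union _ (Or.inr hp2M) hp2 cSm
  have hC : (Sp ∪ M) ∪ Sm ⊆ Om m L t ρ := by
    rintro z ((hz | hz) | hz)
    · exact mem_Om_of_one ht hρ hz.1 (lt_of_lt_of_le hz.2 (le_abs_self _))
    · exact mem_Om_of_zero hL ht hρ hz.1 hz.2
    · have : z 1 < -(1 / 2) := hz.2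
      exact mem_Om_of_one ht hρ hz.1 (by linarith [neg_abs_le (z 1)])
  refine ⟨⟨_, hC (Or.inl (Or.inl hp1))⟩,
    isPreconnected_of_forall ((-2 : ℝ) • ev 0 + (3 / 4 : ℝ) • ev 1) fun y hy => ?_⟩
  by_cases hyC : y ∈ (Sp ∪ M) ∪ Sm
  · exact ⟨_, hC, Or.inl (Or.inl hp1), hyC, cC⟩
  have hy' := mem_Om.1 hy
  have y1 : |y 1| ≤ 1 / 2 := by
    rw [abs_le]
    constructor
    · by_contra hcon
      exact hyC (Or.inr ⟨hy'.1, not_le.1 hcon⟩)
    · by_contra hcon
      exact hyC (Or.inl (Or.inl ⟨hy'.1, not_le.1 hcon⟩))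
  have y2 := abs_le.1 y1
  have key : ∀ q : ℝ, |y 1 + q| < 1 → 0 ≤ q * y 1 → y + q • ev 1 ∈ (Sp ∪ M) ∪ Sm →
      ∃ s ⊆ Om m L t ρ, (-2 : ℝ) • ev 0 + (3 / 4 : ℝ) • ev 1 ∈ s ∧ y ∈ s ∧ IsPreconnected s := by
    intro q hq1 hq2 hq3
    have hbx : y + q • ev 1 ∈ box m L := by
      intro i
      by_cases hi : i = 1
      · subst hi
        simpa [side, ev_self] using hq1
      · simpa [ev_ne hi] using hy'.1 i
    refine ⟨((Sp ∪ M) ∪ Sm) ∪ segment ℝ y (y + q • ev 1), union_subset hC ?_,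
      Or.inl (Or.inl (Or.inl hp1)), Or.inr (left_mem_segment _ _ _),
      cC.union _ hq3 (right_mem_segment _ _ _) (convex_segment _ _).isPreconnected⟩
    intro z hz
    have hzb := (convex_box L).segment_subset hy'.1 hbx hz
    rw [segment_eq_image'] at hz
    obtain ⟨θ, hθ, rfl⟩ := hz
    simp only [add_sub_cancel_left, smul_smul] at hzb ⊢
    have hs : 0 ≤ θ * q * y 1 := by rw [mul_assoc]; exact mul_nonneg hθ.1 hq2
    exact mem_Om.2 ⟨hzb, hy'.2.1.trans_le (dist_le_move rfl hs),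
      hy'.2.2.trans_le (dist_le_move (ctr_ne L one_ne_zero) hs)⟩
  have hbx : ∀ q : ℝ, |y 1 + q| < 1 → y + q • ev 1 ∈ box m L := by
    intro q hq1 i
    by_cases hi : i = 1
    · subst hi
      simpa [side, ev_self] using hq1
    · simpa [ev_ne hi] using hy'.1 i
  rcases le_total 0 (y 1) with h | h
  · have e : |y 1 + (3 / 4 - y 1)| < 1 := by rw [abs_lt]; constructor <;> linarith
    refine key (3 / 4 - y 1) e (mul_nonneg (by linarith) h) (Or.inl (Or.inl ⟨hbx _ e, ?_⟩))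
    simp [ev_self]; norm_num
  · have e : |y 1 + (-(3 / 4) - y 1)| < 1 := by rw [abs_lt]; constructor <;> linarith
    refine key (-(3 / 4) - y 1) e (mul_nonneg_of_nonpos_of_nonpos (by linarith) h)
      (Or.inr ⟨hbx _ e, ?_⟩)
    simp [ev_self]; norm_num

lemma no_swap {L t ρ : ℝ} (hL : 20 + 20 * (m + 1) ≤ L) (ht : t ≤ 1 / 2) (hρ : ρ ≤ 1 / 2)
    {T : E (m + 2) → E (m + 2)} {r : ℝ} (hr : 0 < r) (hT : ∀ a b, dist (T a) (T b) = r * dist a b)
    (hΩ : T '' Om m L t ρ = Om m L t ρ) {x : E (m + 2)} (hxΩ : x ∈ Om m L t ρ)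
    (hx : dist x (ctr m L) ≤ 2) : ¬ dist (T x) 0 ≤ 2 := by
  intro hTx
  set c : ℝ := 2 * (m + 1) with hc
  have hc0 : 0 < c := by positivity
  have hL' : 20 + 10 * c ≤ L := by rw [hc]; linarith
  have hL0 : 0 < L := by linarith
  have hmem : ∀ a : ℝ, |a| < L → a • ev 0 + (3 / 4 : ℝ) • ev 1 ∈ Om m L t ρ := fun a ha =>
    mem_Om_of_one ht hρ (pt_mem_box hL0 ha (by rw [abs_lt]; constructor <;> norm_num)) (by
      simp [ev_self, ev_ne (one_ne_zero (α := Fin (m + 2)))]
      rw [abs_of_pos] <;> norm_num)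
  have hco : ∀ a : ℝ, (a • ev 0 + (3 / 4 : ℝ) • ev 1 : E (m + 2)) 0 = a := fun a => by
    simp [ev_self, ev_ne (zero_ne_one (α := Fin (m + 2)))]
  have m1 := hmem (L - 1) (by rw [abs_lt]; constructor <;> linarith)
  have m2 := hmem (-(L - 1)) (by rw [abs_lt]; constructor <;> linarith)
  have d12 := coord_le ((L - 1) • ev 0 + (3 / 4 : ℝ) • ev (m := m) 1)
    ((-(L - 1)) • ev 0 + (3 / 4 : ℝ) • ev 1) 0
  rw [hco, hco, abs_of_pos (by linarith)] at d12
  obtain ⟨z1, hz1, e1⟩ := hΩ.symm.subset m1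
  obtain ⟨z2, hz2, e2⟩ := hΩ.symm.subset m2
  rw [← e1, ← e2, hT] at d12
  have d3 : dist z1 z2 < 2 * L + c := box_subset_ball hz2.1 hz1.1
  have d4 := coord_le x ((-(L - 1)) • ev 0 + (3 / 4 : ℝ) • ev 1) 0
  have d5 := abs_le.1 ((coord_le x (ctr m L) 0).trans hx)
  rw [ctr_zero] at d5
  rw [hco, abs_of_pos (by linarith)] at d4
  have m3 := hΩ.subset (mem_image_of_mem T m2)
  have m4 := hΩ.subset (mem_image_of_mem T hxΩ)
  have d6 := dist_box m4.1 m3.1
  have d7 := abs_le.1 ((coord_le (T x) 0 0).trans hTx)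
  rw [PiLp.zero_apply, sub_zero] at d7
  have d8 := abs_lt.1 (m3.1 0)
  simp only [side, if_true] at d8
  have d9 : |T x 0 - T ((-(L - 1)) • ev 0 + (3 / 4 : ℝ) • ev 1) 0| ≤ L + 2 := by
    rw [abs_le]; constructor <;> linarith
  rw [hT, ← hc] at d6
  have k1 : 2 * L - 2 ≤ r * (2 * L + c) := by nlinarith
  have k2 : r * (3 * L / 2 - 3) ≤ L + 2 + c := by nlinarith
  have k3 := mul_le_mul_of_nonneg_right k1 (show 0 ≤ 3 * L / 2 - 3 by linarith)
  have k4 := mul_le_mul_of_nonneg_right k2 (show 0 ≤ 2 * L + c by linarith)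
  nlinarith [mul_le_mul_of_nonneg_right hL' hL0.le, mul_le_mul_of_nonneg_right hL' hc0.le]

end Pool.Agent.H411Z.HM
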