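import Mathlib
import Pool.Agent.H411Z.HM.Exist
import Pool.Agent.H411Z.HM.Geom

set_option autoImplicit false
set_option linter.unusedSectionVars false
set_option linter.unusedVariables false

open Set Filter Topology MeasureTheory Metric Module
open scoped NNReal ENNReal

namespace Pool.Agent.H411Z.HM

lemma continuous_of_modulus {X : Type*} [PseudoMetricSpace X] {g : X → ℝ} {ω : ℝ → ℝ}
    (hω : ContinuousAt ω 0) (h0 : ω 0 = 0) (h : ∀ a b, g a ≤ g b + ω (dist a b)) :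
    Continuous g := by
  rw [continuous_iff_continuousAt]
  intro z
  rw [ContinuousAt, tendsto_iff_dist_tendsto_zero]
  have h1 : Tendsto (fun a => dist a z) (𝓝 z) (𝓝 0) := by
    have := (continuous_id.dist (continuous_const (y := z))).tendsto z
    simpa using this
  have h2 : Tendsto (fun a => ω (dist a z)) (𝓝 z) (𝓝 0) := by
    have := hω.tendsto.comp h1
    rwa [h0] at this
  refine squeeze_zero (fun _ => dist_nonneg) (fun a => ?_) h2
  rw [Real.dist_eq, abs_le]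
  have := h z a
  rw [dist_comm] at this
  exact ⟨by linarith, by linarith [h a z]⟩

lemma infDist_stab {X : Type*} [PseudoMetricSpace X] {K K' : Set X} (hne : K'.Nonempty) {ε : ℝ}
    (hK : ∀ z ∈ K', ∃ y ∈ K, dist z y ≤ ε) {x x' : X} (hx : dist x x' ≤ ε) :
    infDist x K ≤ infDist x' K' + 2 * ε := by
  have : infDist x K - 2 * ε ≤ infDist x' K' := by
    rw [le_infDist hne]
    intro z hz
    obtain ⟨y, hy, hzy⟩ := hK z hz
    have h1 := infDist_le_dist_of_mem (x := x) hy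
    have h2 := dist_triangle4 x x' z y
    linarith
  linarith

variable {m : ℕ}

lemma prod_dist_bound (a b : ℝ × E (m + 2)) :
    |(|a.1| - |b.1|)| ≤ dist a b ∧ dist a.2 b.2 ≤ dist a b := by
  rw [Prod.dist_eq]
  exact ⟨(abs_abs_sub_abs_le_abs_sub _ _).trans (le_max_left _ _), le_max_right _ _⟩

lemma continuous_HH {p : ℝ} (h : Hyp (E (m + 2)) p) (L ρ : ℝ) :
    Continuous fun a : ℝ × E (m + 2) => HH p (Om m L |a.1| ρ) a.2 := by
  have hal := h.al_pos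
  apply continuous_of_modulus (ω := fun ε => 2 * (MC (E (m + 2)) p * ε ^ al (E (m + 2)) p))
  · exact continuousAt_const.mul (continuousAt_const.mul
      (Real.continuousAt_rpow_const 0 _ (Or.inr hal.le)))
  · simp [Real.zero_rpow hal.ne']
  · intro a b
    refine HH_stab h (compl_Om_nonempty _ _ _) (fun z hz => ?_) (prod_dist_bound a b).2
    obtain ⟨y, hy, hzy⟩ := Om_stab (abs_nonneg a.1) hz
    exact ⟨y, hy, hzy.trans (prod_dist_bound a b).1⟩

lemma continuous_dd (L ρ : ℝ) :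
    Continuous fun a : ℝ × E (m + 2) => infDist a.2 (Om m L |a.1| ρ)ᶜ := by
  apply continuous_of_modulus (ω := fun ε => 2 * ε) (by fun_prop) (by simp)
  intro a b
  refine infDist_stab (compl_Om_nonempty _ _ _) (fun z hz => ?_) (prod_dist_bound a b).2
  obtain ⟨y, hy, hzy⟩ := Om_stab (abs_nonneg a.1) hz
  exact ⟨y, hy, hzy.trans (prod_dist_bound a b).1⟩

lemma exists_nearest {L t ρ : ℝ} (z : E (m + 2)) :
    ∃ y, y ∉ Om m L t ρ ∧ infDist z (Om m L t ρ)ᶜ = dist z y :=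
  (isOpen_Om L t ρ).isClosed_compl.exists_infDist_eq_dist (compl_Om_nonempty L t ρ) z

lemma dd_le_one {L t ρ : ℝ} {z : E (m + 2)} (hz : z ∈ Om m L t ρ) :
    infDist z (Om m L t ρ)ᶜ ≤ 1 := by
  obtain ⟨y, hy, hzy⟩ := exists_near_out L hz.1
  exact (infDist_le_dist_of_mem (show y ∈ (Om m L t ρ)ᶜ from fun h => hy h.1)).trans hzy

/-- the statement of `ball_bound` for given constants -/
def BallB (m : ℕ) (p θ s : ℝ) : Prop :=
  ∀ (Ω : Set (E (m + 2))) (w : E (m + 2) → ℝ), Adm p Ω w → ∀ (x c : E (m + 2)) (ρ d : ℝ), 0 < d →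
    d ≤ s * ρ → closedBall c ρ ⊆ Ωᶜ → dist x c ≤ ρ + d →
    w x ≤ θ * MC (E (m + 2)) p * d ^ al (E (m + 2)) p

lemma classify {p θ s : ℝ} (h : Hyp (E (m + 2)) p) (hs : 0 < s) (hB : BallB m p θ s) {L t ρ : ℝ}
    (ht : t ≤ 1 / 2) (hρ : ρ ≤ 1 / 2) {z : E (m + 2)} (hz : z ∈ Om m L t ρ) :
    HH p (Om m L t ρ) z ≤ θ * MC (E (m + 2)) p * infDist z (Om m L t ρ)ᶜ ^ al (E (m + 2)) p ∨
      (dist z 0 ≤ 2 ∧ s * t ≤ infDist z (Om m L t ρ)ᶜ) ∨
      (dist z (ctr m L) ≤ 2 ∧ s * ρ ≤ infDist z (Om m L t ρ)ᶜ) := by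
  obtain ⟨y, hy, hd⟩ := exists_nearest (L := L) (t := t) (ρ := ρ) z
  have hd0 := infDist_pos (isOpen_Om L t ρ) (compl_Om_nonempty L t ρ) hz
  have hd1 := dd_le_one hz
  set d := infDist z (Om m L t ρ)ᶜ with hdd
  by_cases hyb : y ∈ box m L
  · have hy2 : y ∈ closedBall 0 t ∪ closedBall (ctr m L) ρ := by
      by_contra hcon
      exact hy ⟨hyb, hcon⟩
    rcases hy2 with hy2 | hy2
    · have h1 : dist z 0 ≤ t + d := by
        have := dist_triangle z y 0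
        have h2 : dist y 0 ≤ t := hy2
        linarith
      rcases le_total d (s * t) with h2 | h2
      · exact Or.inl (HH_le h fun w hw => hB _ w hw z 0 t d hd0 h2
          (fun a ha hb => hb.2 (Or.inl ha)) h1)
      · exact Or.inr (Or.inl ⟨by linarith, h2⟩)
    · have h1 : dist z (ctr m L) ≤ ρ + d := by
        have := dist_triangle z y (ctr m L)
        have h2 : dist y (ctr m L) ≤ ρ := hy2
        linarith
      rcases le_total d (s * ρ) with h2 | h2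
      · exact Or.inl (HH_le h fun w hw => hB _ w hw z _ ρ d hd0 h2
          (fun a ha hb => hb.2 (Or.inr ha)) h1)
      · exact Or.inr (Or.inr ⟨by linarith, h2⟩)
  · obtain ⟨c, hc, hzc⟩ := exists_ball_out hz.1 hyb (r := d / s) (by positivity)
    exact Or.inl (HH_le h fun w hw => hB _ w hw z c (d / s) d hd0 (by field_simp; rfl)
      (fun a ha hb => hc ha hb.1) (by rw [hd]; rw [hd] at hzc; exact hzc))

lemma HH_notMem {p : ℝ} (h : Hyp (E (m + 2)) p) {Ω : Set (E (m + 2))} {z : E (m + 2)}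
    (hz : z ∉ Ω) : HH p Ω z ≤ 0 := HH_le h fun w hw => (hw.zero z hz).le

/-- upper bound in the region near one ball, in terms of the radius of that ball -/
lemma region_bound {p θ s : ℝ} (h : Hyp (E (m + 2)) p) (hθ0 : 0 < θ) (hθ1 : θ < 1) (hs : 0 < s)
    (hB : BallB m p θ s) {L : ℝ} (hL : 16 ≤ L) {r : ℝ} (hr : 0 < r) :
    ∃ θ' : ℝ, 0 < θ' ∧ θ' < 1 ∧ ∀ t ρ, t ≤ 1 / 2 → ρ ≤ 1 / 2 → ∀ z ∈ Om m L t ρ,
      (dist z 0 ≤ 2 ∧ r ≤ t) ∨ (dist z (ctr m L) ≤ 2 ∧ r ≤ ρ) →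
      HH p (Om m L t ρ) z ≤ θ' * MC (E (m + 2)) p * infDist z (Om m L t ρ)ᶜ ^ al (E (m + 2)) p := by
  have hC := MC_pos h
  obtain ⟨θb, hb0, hb1, hb⟩ := bdd_bound h (δ := s * r) (R := 2 * L + 2 * (m + 1)) (by positivity)
    (by positivity)
  refine ⟨max θ θb, lt_max_of_lt_left hθ0, max_lt hθ1 hb1, fun t ρ ht hρ z hz hreg => ?_⟩
  have hd0 := infDist_pos (isOpen_Om L t ρ) (compl_Om_nonempty L t ρ) hz
  have hda : 0 < infDist z (Om m L t ρ)ᶜ ^ al (E (m + 2)) p := by positivity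
  have far : s * r ≤ infDist z (Om m L t ρ)ᶜ → HH p (Om m L t ρ) z ≤
      max θ θb * MC (E (m + 2)) p * infDist z (Om m L t ρ)ᶜ ^ al (E (m + 2)) p := by
    intro h1
    obtain ⟨y, hy, hd⟩ := exists_nearest (L := L) (t := t) (ρ := ρ) z
    have hd1 := dd_le_one hz
    refine (HH_le h fun w hw => hb _ w hw z y hy (hd ▸ h1) ?_
      (sdiff_subset.trans (box_subset_ball hz.1))).trans ?_
    · have : (0 : ℝ) ≤ m := Nat.cast_nonneg m
      linarith
    · rw [← hd]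
      gcongr
      exact le_max_right _ _
  have hsep := dist_triangle (ctr m L) z 0
  rw [dist_ctr (by linarith), dist_comm] at hsep
  rcases classify h hs hB ht hρ hz with h1 | h1 | h1
  · refine h1.trans ?_
    gcongr
    exact le_max_left _ _
  · rcases hreg with h2 | h2
    · exact far ((mul_le_mul_of_nonneg_left h2.2 hs.le).trans h1.2)
    · linarith [h1.1, h2.1]
  · rcases hreg with h2 | h2
    · linarith [h1.1, h2.1]
    · exact far ((mul_le_mul_of_nonneg_left h2.2 hs.le).trans h1.2)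

/-- two inequivalent maximum points -/
lemma exists_two_max {p θ s θ₁ : ℝ} (h : Hyp (E (m + 2)) p) (hθ0 : 0 < θ) (hθ1 : θ < 1) (hs : 0 < s)
    (hB : BallB m p θ s) (hθ₁ : θ₁ < 1) {L : ℝ} (hL : 16 ≤ L) :
    ∃ (t ρ κ : ℝ) (x₁ x₂ : E (m + 2)), t ≤ 1 / 2 ∧ ρ ≤ 1 / 2 ∧ θ * MC (E (m + 2)) p < κ ∧
      θ₁ * MC (E (m + 2)) p < κ ∧ x₁ ∈ Om m L t ρ ∧ x₂ ∈ Om m L t ρ ∧ dist x₁ 0 ≤ 2 ∧
      dist x₂ (ctr m L) ≤ 2 ∧
      (∀ z ∈ Om m L t ρ, HH p (Om m L t ρ) z ≤ κ * infDist z (Om m L t ρ)ᶜ ^ al (E (m + 2)) p) ∧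
      HH p (Om m L t ρ) x₁ = κ * infDist x₁ (Om m L t ρ)ᶜ ^ al (E (m + 2)) p ∧
      HH p (Om m L t ρ) x₂ = κ * infDist x₂ (Om m L t ρ)ᶜ ^ al (E (m + 2)) p := by
  have hC := MC_pos h
  have hal := h.al_pos
  set C := MC (E (m + 2)) p with hCdef
  set α := al (E (m + 2)) p with hα
  obtain ⟨θA, hA0, hA1, hA⟩ := region_bound h hθ0 hθ1 hs hB hL (r := 1 / 2) (by norm_num)
  set θ2 := (max (max θ θ₁) θA + 1) / 2 with hθ2
  have hm1 : max (max θ θ₁) θA < 1 := max_lt (max_lt hθ1 hθ₁) hA1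
  have hm2 : max (max θ θ₁) θA < θ2 := by rw [hθ2]; linarith
  have h2θ : θ < θ2 := ((le_max_left _ _).trans (le_max_left _ _)).trans_lt hm2
  have h2θ₁ : θ₁ < θ2 := ((le_max_right _ _).trans (le_max_left _ _)).trans_lt hm2
  have h2A : θA < θ2 := (le_max_right _ _).trans_lt hm2
  obtain ⟨ρ, hρ0, hρ1, hρ⟩ := small_ball h (θ := θ2) (by linarith) (by rw [hθ2]; linarith)
  obtain ⟨θB, hB0, hB1, hBB⟩ := region_bound h hθ0 hθ1 hs hB hL hρ0
  set θ3 := (max θ θB + 1) / 2 with hθ3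
  have hm3 : max θ θB < 1 := max_lt hθ1 hB1
  have hm4 : max θ θB < θ3 := by rw [hθ3]; linarith
  have h3θ : θ < θ3 := (le_max_left _ _).trans_lt hm4
  have h3B : θB < θ3 := (le_max_right _ _).trans_lt hm4
  obtain ⟨t₀, ht0, ht1, ht₀⟩ := small_ball h (θ := θ3) (by linarith) (by rw [hθ3]; linarith)
  have hρ2 : ρ ≤ 1 / 2 := by linarith
  set δ := s * min t₀ ρ with hδ
  have hδ0 : 0 < δ := mul_pos hs (lt_min ht0 hρ0)
  set ψ : ℝ → E (m + 2) → ℝ := fun t z =>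
    HH p (Om m L |t| ρ) z / max (infDist z (Om m L |t| ρ)ᶜ) δ ^ α with hψ
  have hden : ∀ t z, 0 < max (infDist z (Om m L |t| ρ)ᶜ) δ ^ α := fun t z =>
    Real.rpow_pos_of_pos (lt_max_of_lt_right hδ0) _
  have hψc : Continuous (Function.uncurry ψ) := by
    apply (continuous_HH h L ρ).div
    · exact ((continuous_dd L ρ).max continuous_const).rpow_const fun _ => Or.inr hal.le
    · exact fun a => (hden a.1 a.2).ne'
  have hψt : ∀ t, Continuous (ψ t) := fun t => hψc.comp (Continuous.prodMk_right t)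
  set μ : E (m + 2) → ℝ → ℝ := fun a t => sSup (ψ t '' closedBall a 2) with hμ
  have hμc : ∀ a, Continuous (μ a) := fun a => (isCompact_closedBall a 2).continuous_sSup hψc
  have hμle : ∀ a t z, dist z a ≤ 2 → ψ t z ≤ μ a t := fun a t z hz =>
    le_csSup ((isCompact_closedBall a 2).bddAbove_image (hψt t).continuousOn) ⟨z, hz, rfl⟩
  have hμex : ∀ a t, ∃ z, dist z a ≤ 2 ∧ μ a t = ψ t z := fun a t => by
    obtain ⟨z, hz, e⟩ := (isCompact_closedBall a 2).exists_sSup_image_eq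
      ⟨a, mem_closedBall_self zero_le_two⟩ (hψt t).continuousOn
    exact ⟨z, hz, e⟩
  have up : ∀ t ∈ Icc t₀ (1 / 2), ∀ z c, 0 ≤ c →
      (z ∈ Om m L t ρ → HH p (Om m L t ρ) z ≤ c * infDist z (Om m L t ρ)ᶜ ^ α) → ψ t z ≤ c := by
    intro t ht z c hc hz
    have e : |t| = t := abs_of_pos (ht0.trans_le ht.1)
    have := hden t z
    simp only [hψ]
    rw [div_le_iff₀ this, e]
    rw [e] at this
    by_cases hzΩ : z ∈ Om m L t ρ
    · refine (hz hzΩ).trans (mul_le_mul_of_nonneg_left ?_ hc)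
      exact Real.rpow_le_rpow infDist_nonneg (le_max_left _ _) hal.le
    · exact (HH_notMem h hzΩ).trans (by positivity)
  have cls : ∀ t ∈ Icc t₀ (1 / 2), ∀ z ∈ Om m L t ρ,
      HH p (Om m L t ρ) z ≤ θ * C * infDist z (Om m L t ρ)ᶜ ^ α ∨
      ((dist z 0 ≤ 2 ∨ dist z (ctr m L) ≤ 2) ∧
        HH p (Om m L t ρ) z = ψ t z * infDist z (Om m L t ρ)ᶜ ^ α) := by
    intro t ht z hz
    have e : |t| = t := abs_of_pos (ht0.trans_le ht.1)
    have key : δ ≤ infDist z (Om m L t ρ)ᶜ →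
        HH p (Om m L t ρ) z = ψ t z * infDist z (Om m L t ρ)ᶜ ^ α := by
      intro h1
      simp only [hψ]
      rw [e, max_eq_left h1, div_mul_cancel₀ _ (Real.rpow_pos_of_pos (hδ0.trans_le h1) _).ne']
    rcases classify h hs hB ht.2 hρ2 hz with h1 | h1 | h1
    · exact Or.inl h1
    · exact Or.inr ⟨Or.inl h1.1, key ((mul_le_mul_of_nonneg_left
        ((min_le_left _ _).trans ht.1) hs.le).trans h1.2)⟩
    · exact Or.inr ⟨Or.inr h1.1, key ((mul_le_mul_of_nonneg_left (min_le_right _ _) hs.le).trans h1.2)⟩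
  have low : ∀ t ∈ Icc t₀ (1 / 2), ∀ θ', θ < θ' → ∀ (x y : E (m + 2)) (w : E (m + 2) → ℝ),
      Adm p (Om m L t ρ) w → x ≠ y → y ∉ Om m L t ρ → θ' * C * dist x y ^ α ≤ w x →
      θ' * C ≤ ψ t x := by
    intro t ht θ' hθ' x y w hw hxy hy hq
    have hθ'0 : 0 < θ' := by linarith
    have hdxy : 0 < dist x y ^ α := Real.rpow_pos_of_pos (dist_pos.2 hxy) _
    have hx : x ∈ Om m L t ρ := by
      by_contra hcon
      rw [hw.zero x hcon] at hq
      exact absurd hq (not_le.2 (by positivity))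
    have hd0 := infDist_pos (isOpen_Om L t ρ) (compl_Om_nonempty L t ρ) hx
    have hda : 0 < infDist x (Om m L t ρ)ᶜ ^ α := by positivity
    have h1 : θ' * C * infDist x (Om m L t ρ)ᶜ ^ α ≤ HH p (Om m L t ρ) x := by
      refine le_trans ?_ (hq.trans (hw.le_HH h (compl_Om_nonempty _ _ _) x))
      gcongr
      exact infDist_le_dist_of_mem hy
    rcases cls t ht x hx with h2 | h2
    · have := le_of_mul_le_mul_right (h1.trans h2) hda
      nlinarith
    · rw [h2.2] at h1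
      exact le_of_mul_le_mul_right h1 hda
  have low2 : ∀ t ∈ Icc t₀ (1 / 2), θ2 * C ≤ μ (ctr m L) t := by
    intro t ht
    obtain ⟨x, y, w, hw, hxy, hx, hy, hq⟩ := hρ ρ hρ0 le_rfl (ctr m L) (Om m L t ρ)
      (annulus_two (by linarith) ht.2)
    exact (low t ht θ2 h2θ x y w hw hxy (fun hh => hh.2 (Or.inr hy)) hq).trans
      (hμle _ t x (by linarith))
  have hI0 : t₀ ∈ Icc t₀ (1 / 2) := ⟨le_rfl, by linarith⟩
  have hI1 : (1 / 2 : ℝ) ∈ Icc t₀ (1 / 2) := ⟨by linarith, le_rfl⟩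
  have low1 : θ3 * C ≤ μ 0 t₀ := by
    obtain ⟨x, y, w, hw, hxy, hx, hy, hq⟩ := ht₀ t₀ ht0 le_rfl 0 (Om m L t₀ ρ)
      (annulus_one (by linarith) hρ2)
    exact (low t₀ hI0 θ3 h3θ x y w hw hxy (fun hh => hh.2 (Or.inl hy)) hq).trans
      (hμle _ t₀ x (by linarith))
  have up1 : μ 0 (1 / 2) ≤ θA * C := by
    obtain ⟨z, hz, e⟩ := hμex 0 (1 / 2)
    rw [e]
    exact up _ hI1 z _ (by positivity) fun hzΩ => hA _ _ le_rfl hρ2 z hzΩ (Or.inl ⟨hz, le_rfl⟩)
  have up2 : μ (ctr m L) t₀ ≤ θB * C := by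
    obtain ⟨z, hz, e⟩ := hμex (ctr m L) t₀
    rw [e]
    exact up _ hI0 z _ (by positivity) fun hzΩ => hBB _ _ hI0.2 hρ2 z hzΩ (Or.inr ⟨hz, le_rfl⟩)
  obtain ⟨t, ht, hte⟩ := intermediate_value_Icc' hI0.2
    ((hμc 0).sub (hμc (ctr m L))).continuousOn (show (0 : ℝ) ∈ Icc _ _ from
      ⟨by have := low2 _ hI1; simp only [Pi.sub_apply]; nlinarith, by
        simp only [Pi.sub_apply]; nlinarith⟩)
  have hte' : μ 0 t = μ (ctr m L) t := sub_eq_zero.1 hte
  have hκ := low2 t ht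
  set κ := μ (ctr m L) t with hκdef
  have hκθ : θ * C < κ := by nlinarith
  have att : ∀ z, ψ t z = κ → z ∈ Om m L t ρ ∧
      HH p (Om m L t ρ) z = κ * infDist z (Om m L t ρ)ᶜ ^ α := by
    intro z hz
    have h1 : ¬ (z ∈ Om m L t ρ → HH p (Om m L t ρ) z ≤ θ * C * infDist z (Om m L t ρ)ᶜ ^ α) :=
      fun hh => absurd (up t ht z _ (by positivity) hh) (by rw [hz]; exact not_le.2 hκθ)
    rw [Classical.not_imp] at h1
    refine ⟨h1.1, ?_⟩
    rcases cls t ht z h1.1 with h2 | h2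
    · exact absurd h2 h1.2
    · rw [h2.2, hz]
  obtain ⟨x₁, hx₁, e₁⟩ := hμex 0 t
  obtain ⟨x₂, hx₂, e₂⟩ := hμex (ctr m L) t
  have a₁ := att x₁ (by rw [← e₁, hte'])
  have a₂ := att x₂ e₂.symm
  refine ⟨t, ρ, κ, x₁, x₂, ht.2, hρ2, hκθ, by nlinarith, a₁.1, a₂.1, hx₁, hx₂, fun z hz => ?_,
    a₁.2, a₂.2⟩
  have hda : 0 ≤ infDist z (Om m L t ρ)ᶜ ^ α := Real.rpow_nonneg infDist_nonneg _
  rcases cls t ht z hz with h2 | ⟨h2, h3⟩
  · exact h2.trans (mul_le_mul_of_nonneg_right hκθ.le hda)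
  · rw [h3]
    apply mul_le_mul_of_nonneg_right _ hda
    rcases h2 with h2 | h2
    · exact hte' ▸ hμle 0 t z h2
    · exact hμle _ t z h2

theorem non_unique (m : ℕ) {p : ℝ} (hp : ((m + 2 : ℕ) : ℝ) < p) :
    ∃ Ω : Set (E (m + 2)), IsOpen Ω ∧ IsConnected Ω ∧ Bornology.IsBounded Ω ∧ Ω ≠ univ ∧
      ∃ u v : E (m + 2) → ℝ, IsExtremal p Ω u ∧ IsExtremal p Ω v ∧
        ∀ (c r : ℝ) (Q : E (m + 2) ≃ₗᵢ[ℝ] E (m + 2)) (b : E (m + 2)), c ≠ 0 → 0 < r →
          (fun x => r • Q x + b) '' Ω = Ω → v ≠ fun x => c * u (r • Q x + b) := by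
  have h : Hyp (E (m + 2)) p := ⟨by rw [finrank_euclideanSpace_fin]; omega,
    by rw [finrank_euclideanSpace_fin]; exact hp⟩
  have hC := MC_pos h
  have hal := h.al_pos
  obtain ⟨θ, s, hθ0, hθ1, hs, hB⟩ := ball_bound h
  obtain ⟨θ₁, R, hθ₁0, hθ₁, hR, hT⟩ := two_bound h
  have hm0 : (0 : ℝ) ≤ m := Nat.cast_nonneg m
  set L : ℝ := 20 + 20 * (m + 1) + 4 * R with hL
  have hL16 : 16 ≤ L := by rw [hL]; linarith
  obtain ⟨t, ρ, κ, x₁, x₂, ht, hρ, hκθ, hκθ₁, hx₁, hx₂, d₁, d₂, hmax, e₁, e₂⟩ :=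
    exists_two_max h hθ0 hθ1 hs hB hθ₁ hL16
  set Ω := Om m L t ρ with hΩ
  have hop : IsOpen Ω := isOpen_Om L t ρ
  have hbd : Bornology.IsBounded Ω := isBounded_Om (by linarith) t ρ
  have hne : Ωᶜ.Nonempty := compl_Om_nonempty L t ρ
  have hκ : 0 < κ := lt_trans (by positivity) hκθ
  obtain ⟨u, w, hu, hw, hwl, hux, hule⟩ := exists_extremal h hop hbd hne hκ hmax hx₁ e₁
  obtain ⟨v, w', hv, hw', hwl', hvx, hvle⟩ := exists_extremal h hop hbd hne hκ hmax hx₂ e₂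
  refine ⟨Ω, hop, isConnected_Om (by linarith) ht hρ, hbd, nonempty_compl.1 hne, u, v, hu, hv, ?_⟩
  intro c r Q b hc hr hTΩ hvu
  set α := al (E (m + 2)) p with hα
  set T : E (m + 2) → E (m + 2) := fun x => r • Q x + b with hTdef
  have hTd : ∀ a a', dist (T a) (T a') = r * dist a a' := fun a a' => by
    simp only [hTdef]
    rw [dist_add_right, dist_smul₀, Q.dist_map, Real.norm_eq_abs, abs_of_pos hr]
  have hTs : ∀ y, ∃ z, T z = y := fun y => ⟨Q.symm (r⁻¹ • (y - b)), by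
    simp only [hTdef, LinearIsometryEquiv.apply_symm_apply, smul_inv_smul₀ hr.ne', sub_add_cancel]⟩
  have hTm : ∀ z, T z ∈ Ω ↔ z ∈ Ω := fun z => by
    constructor
    · intro hz
      obtain ⟨z', hz', e⟩ := hTΩ.symm.subset hz
      have : dist z' z = 0 := by
        have := hTd z' z
        rw [e, dist_self] at this
        exact (mul_eq_zero.1 this.symm).resolve_left hr.ne'
      rwa [← dist_eq_zero.1 this]
    · exact fun hz => hTΩ.subset (mem_image_of_mem T hz)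
  have hvT : ∀ z, v z = c * u (T z) := fun z => congrFun hvu z
  have hd : ∀ z ∈ Ω, 0 < infDist z Ωᶜ := fun z hz => infDist_pos hop hne hz
  have hu0 : ∀ z, 0 ≤ u z := fun z => ge_of_tendsto' (hwl z) fun k => (hw k).nn z
  have hc0 : 0 < c := by
    by_contra hcon
    have h1 := mul_nonpos_of_nonpos_of_nonneg (not_lt.1 hcon) (hu0 (T x₂))
    rw [← hvT, hvx] at h1
    exact absurd h1 (not_le.2 (mul_pos hκ (Real.rpow_pos_of_pos (hd _ hx₂) _)))
  have k1 : c * r ^ α ≤ 1 := by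
    obtain ⟨z, rfl⟩ := hTs x₁
    have hz := (hTm z).1 hx₁
    obtain ⟨y, hy, hyd⟩ := exists_nearest (L := L) (t := t) (ρ := ρ) (T z)
    obtain ⟨y', rfl⟩ := hTs y
    have h1 : r * infDist z Ωᶜ ≤ infDist (T z) Ωᶜ := by
      rw [hyd, hTd]
      exact mul_le_mul_of_nonneg_left (infDist_le_dist_of_mem fun hh => hy ((hTm y').2 hh)) hr.le
    have h2 := Real.rpow_le_rpow (mul_pos hr (hd z hz)).le h1 hal.le
    rw [Real.mul_rpow hr.le (hd z hz).le] at h2
    have h3 := hvle z hz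
    rw [hvT, hux] at h3
    have h4 : 0 < κ * infDist z Ωᶜ ^ α := mul_pos hκ (Real.rpow_pos_of_pos (hd z hz) _)
    have h5 := mul_le_mul_of_nonneg_left h2 (mul_pos hc0 hκ).le
    apply le_of_mul_le_mul_right _ h4
    linarith
  have hx₃ : T x₂ ∈ Ω := (hTm x₂).2 hx₂
  have k2 : κ * infDist (T x₂) Ωᶜ ^ α ≤ u (T x₂) := by
    obtain ⟨y, hy, hyd⟩ := exists_nearest (L := L) (t := t) (ρ := ρ) x₂
    have h1 : infDist (T x₂) Ωᶜ ≤ r * infDist x₂ Ωᶜ := by
      rw [hyd, ← hTd]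
      exact infDist_le_dist_of_mem fun hh => hy ((hTm y).1 hh)
    have h2 := Real.rpow_le_rpow (hd _ hx₃).le h1 hal.le
    rw [Real.mul_rpow hr.le (hd _ hx₂).le] at h2
    have h4 : 0 < κ * infDist x₂ Ωᶜ ^ α := mul_pos hκ (Real.rpow_pos_of_pos (hd _ hx₂) _)
    have h5 := mul_le_mul_of_nonneg_left h2 (mul_pos hc0 hκ).le
    have h6 := mul_le_mul_of_nonneg_right k1 h4.le
    rw [hvT] at hvx
    apply le_of_mul_le_mul_left _ hc0
    linarith
  have k3 : u (T x₂) ≤ HH p Ω (T x₂) := le_of_tendsto' (hwl _) fun k => (hw k).le_HH h hne _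
  have hda₃ : 0 < infDist (T x₂) Ωᶜ ^ α := Real.rpow_pos_of_pos (hd _ hx₃) _
  have hda₁ : 0 < infDist x₁ Ωᶜ ^ α := Real.rpow_pos_of_pos (hd _ hx₁) _
  rcases classify h hs hB ht hρ hx₃ with h1 | h1 | h1
  · have := le_of_mul_le_mul_right (k2.trans (k3.trans h1)) hda₃
    linarith
  · exact no_swap (by rw [hL]; linarith) ht hρ hr hTd hTΩ hx₂ d₂ h1.1
  · obtain ⟨y₁, hy₁, hyd₁⟩ := exists_nearest (L := L) (t := t) (ρ := ρ) x₁
    obtain ⟨y₃, hy₃, hyd₃⟩ := exists_nearest (L := L) (t := t) (ρ := ρ) (T x₂)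
    have ev1 := (hwl x₁).eventually (lt_mem_nhds
      (show θ₁ * MC (E (m + 2)) p * infDist x₁ Ωᶜ ^ α < u x₁ by
        rw [hux]; exact mul_lt_mul_of_pos_right hκθ₁ hda₁))
    have ev3 := (hwl (T x₂)).eventually (lt_mem_nhds
      (show θ₁ * MC (E (m + 2)) p * infDist (T x₂) Ωᶜ ^ α < u (T x₂) from
        (mul_lt_mul_of_pos_right hκθ₁ hda₃).trans_le k2))
    obtain ⟨k, hk1, hk3⟩ := (ev1.and ev3).exists
    have hbound : ∀ z, w k z ≤ MC (E (m + 2)) p := by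
      intro z
      by_cases hz : z ∈ Ω
      · obtain ⟨y, hy, hzy⟩ := exists_near_out L hz.1
        refine ((hw k).le h z (y := y) fun hh => hy hh.1).trans ?_
        exact mul_le_of_le_one_right hC.le (Real.rpow_le_one dist_nonneg hzy hal.le)
      · rw [(hw k).zero z hz]; exact hC.le
    have hsep : 2 * R < dist x₁ (T x₂) := by
      have a := dist_triangle4 (ctr m L) (T x₂) x₁ 0
      rw [dist_ctr (by linarith), dist_comm (ctr m L), dist_comm (T x₂) x₁] at a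
      have := h1.1
      rw [hL] at a
      linarith
    rcases hT Ω (w k) (hw k) x₁ y₁ (T x₂) y₃ hy₁ hy₃ hbound hsep with h2 | h2
    · rw [← hyd₁] at h2
      exact absurd h2 (not_le.2 hk1)
    · rw [← hyd₃] at h2
      exact absurd h2 (not_le.2 hk3)

end Pool.Agent.H411Z.HM
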