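import Mathlib
import Pool.Agent.H411Z.HM.Pol

set_option autoImplicit false
set_option linter.unusedSectionVars false
set_option linter.unusedVariables false

open Set Filter Topology MeasureTheory Metric
open scoped ContDiff NNReal ENNReal

namespace Pool.Agent.H411Z.HM

variable {V : Type*} [NormedAddCommGroup V] [InnerProductSpace ℝ V] [FiniteDimensional ℝ V]
  [MeasurableSpace V] [BorelSpace V]

lemma exists_subseq_ptwise {L : ℝ≥0} {M : ℝ} {v : ℕ → V → ℝ} (hv : ∀ k, LipschitzWith L (v k))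
    (hM : ∀ k x, |v k x| ≤ M) :
    ∃ (u : V → ℝ) (φ : ℕ → ℕ), StrictMono φ ∧
      ∀ x, Tendsto (fun k => v (φ k) x) atTop (𝓝 (u x)) := by
  set q : ℕ → V := TopologicalSpace.denseSeq V with hq
  have hqd : DenseRange q := TopologicalSpace.denseRange_denseSeq V
  have hK : IsCompact (univ.pi fun _ : ℕ => Icc (-M) M) := isCompact_univ_pi fun _ => isCompact_Icc
  obtain ⟨a, -, φ, hφ, ha⟩ := hK.tendsto_subseq (x := fun k j => v k (q j))
    (fun k j _ => abs_le.1 (hM k (q j)))
  have hC : ∀ x, CauchySeq (fun k => v (φ k) x) := by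
    intro x
    rw [Metric.cauchySeq_iff]
    intro ε hε
    have hL : (0 : ℝ) ≤ L := L.2
    obtain ⟨j, hj⟩ := hqd.exists_dist_lt x (show 0 < ε / (4 * (L + 1)) by positivity)
    have hj2 : L * dist x (q j) ≤ ε / 4 := by
      have h1 : L * dist x (q j) ≤ (L + 1) * (ε / (4 * (L + 1))) := by
        apply mul_le_mul (by linarith) hj.le dist_nonneg (by positivity)
      have h2 : (L + 1) * (ε / (4 * (L + 1))) = ε / 4 := by field_simp
      linarith
    have hc : CauchySeq (fun k => v (φ k) (q j)) := (tendsto_pi_nhds.1 ha j).cauchySeq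
    obtain ⟨N, hN⟩ := Metric.cauchySeq_iff.1 hc (ε / 2) (by positivity)
    refine ⟨N, fun m hm n hn => ?_⟩
    have h1 := (hv (φ m)).dist_le_mul x (q j)
    have h2 := (hv (φ n)).dist_le_mul (q j) x
    rw [dist_comm (q j) x] at h2
    have h3 := hN m hm n hn
    have h4 := dist_triangle4 (v (φ m) x) (v (φ m) (q j)) (v (φ n) (q j)) (v (φ n) x)
    linarith
  choose u hu using fun x => cauchySeq_tendsto_of_complete (hC x)
  exact ⟨u, φ, hφ, hu⟩

/-- the class of competitors -/
structure Cls (p : ℝ) (L : ℝ≥0) (M R c d : ℝ) (A : ℝ≥0∞) (v : V → ℝ) : Prop where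
  lip : LipschitzWith L v
  nn : ∀ x, 0 ≤ v x
  bd : ∀ x, |v x| ≤ M
  cs : ∀ x, R ≤ ‖x‖ → v x = 0
  val : v 0 = c
  sph : ∀ r, d ≤ r → ∃ y, ‖y‖ = r ∧ v y = 0
  en : En p (fderiv ℝ v) ≤ A

lemma Cls.pol {p : ℝ} {L : ℝ≥0} {M R c d : ℝ} {A : ℝ≥0∞} {v : V → ℝ} (h : Cls p L M R c d A v)
    (ν : V) : Cls p L M R c d A (pol ν v) where
  lip := pol_lip h.lip ν
  nn x := by rcases pol_cases ν v x with a | a <;> rw [a] <;> exact h.nn _
  bd x := by rcases pol_cases ν v x with a | a <;> rw [a] <;> exact h.bd _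
  cs := pol_cs h.cs
  val := by rcases pol_cases ν v 0 with a | a <;> rw [a] <;> simp [h.val]
  sph r hr := by
    obtain ⟨y, hy, hv⟩ := h.sph r hr
    rcases lt_trichotomy (inner ℝ ν y) 0 with h1 | h1 | h1
    · refine ⟨y, hy, ?_⟩
      unfold HM.pol
      rw [if_neg (by linarith), hv, min_eq_left (h.nn _)]
    · refine ⟨y, hy, ?_⟩
      unfold HM.pol
      rw [sg_of_zero h1, hv]; simp
    · refine ⟨sg ν y, by rw [(sg ν).norm_map, hy], ?_⟩
      unfold HM.pol
      rw [inner_sg, if_neg (by linarith), sg_sg, hv, min_eq_right (h.nn _)]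
  en := by rw [en_pol h.lip]; exact h.en

lemma Cls.lim {p : ℝ} (hp : 1 < p) {L : ℝ≥0} {M R c d : ℝ} {A : ℝ≥0∞} {v : ℕ → V → ℝ}
    (h : ∀ k, Cls p L M R c d A (v k)) {u : V → ℝ}
    (hl : ∀ x, Tendsto (fun k => v k x) atTop (𝓝 (u x))) : Cls p L M R c d A u := by
  have hlip : LipschitzWith L u := by
    apply LipschitzWith.of_dist_le_mul
    intro x y
    exact le_of_tendsto' ((hl x).dist (hl y)) fun k => (h k).lip.dist_le_mul x y
  refine ⟨hlip, fun x => ge_of_tendsto' (hl x) fun k => (h k).nn x,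
    fun x => le_of_tendsto' (hl x).abs fun k => (h k).bd x, fun x hx => ?_, ?_, fun r hr => ?_, ?_⟩
  · exact tendsto_nhds_unique (hl x) (by simp only [(h _).cs x hx]; exact tendsto_const_nhds)
  · exact tendsto_nhds_unique (hl 0) (by simp only [(h _).val]; exact tendsto_const_nhds)
  · choose y hy hv using fun k => (h k).sph r hr
    obtain ⟨z, hz, φ, hφ, hlim⟩ := (isCompact_sphere (0 : V) r).tendsto_subseq (x := y)
      (fun k => by simpa using hy k)
    refine ⟨z, by simpa using hz, ?_⟩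
    have h1 : Tendsto (fun k => v (φ k) z) atTop (𝓝 (u z)) := (hl z).comp hφ.tendsto_atTop
    have h2 : Tendsto (fun k => (L : ℝ) * dist z (y (φ k))) atTop (𝓝 (L * dist z z)) :=
      (tendsto_const_nhds.dist hlim).const_mul _
    rw [dist_self, mul_zero] at h2
    have h3 : |u z| ≤ 0 := by
      refine le_of_tendsto_of_tendsto' h1.abs h2 fun k => ?_
      have := (h (φ k)).lip.dist_le_mul z (y (φ k))
      rwa [hv, Real.dist_eq, sub_zero] at this
    exact abs_nonpos_iff.1 h3
  · exact en_lsc hp (fun k => (h k).lip) (fun k => (h k).bd) hlip hl fun k => (h k).en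

lemma J_tendsto {p : ℝ} {L : ℝ≥0} {M R c d : ℝ} {A : ℝ≥0∞} {v : ℕ → V → ℝ}
    (h : ∀ k, Cls p L M R c d A (v k)) {u : V → ℝ}
    (hl : ∀ x, Tendsto (fun k => v k x) atTop (𝓝 (u x))) (e : V) :
    Tendsto (fun k => J e (v k)) atTop (𝓝 (J e u)) := by
  refine tendsto_integral_of_dominated_convergence
    ((closedBall (0 : V) R).indicator fun x => M * |inner ℝ e x|) ?_ ?_ ?_ ?_
  · intro k
    exact ((h k).lip.continuous.mul (continuous_const.inner continuous_id)).aestronglyMeasurable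
  · rw [integrable_indicator_iff measurableSet_closedBall]
    exact (continuous_const.mul (continuous_const.inner continuous_id).abs).continuousOn.integrableOn_compact
      (isCompact_closedBall _ _)
  · intro k
    refine Eventually.of_forall fun x => ?_
    by_cases hx : x ∈ closedBall (0 : V) R
    · rw [indicator_of_mem hx, norm_mul, Real.norm_eq_abs, Real.norm_eq_abs]
      exact mul_le_mul_of_nonneg_right ((h k).bd x) (abs_nonneg _)
    · rw [indicator_of_notMem hx]
      rw [mem_closedBall, dist_zero_right, not_le] at hx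
      rw [(h k).cs x hx.le]; simp
  · exact Eventually.of_forall fun x => (hl x).mul_const _

lemma exists_J_max {p : ℝ} (hp : 1 < p) {L : ℝ≥0} {M R c d : ℝ} {A : ℝ≥0∞} {w : V → ℝ}
    (hw : Cls p L M R c d A w) (e : V) :
    ∃ u, Cls p L M R c d A u ∧ ∀ v, Cls p L M R c d A v → J e v ≤ J e u := by
  set S : Set EReal := {t | ∃ v, Cls p L M R c d A v ∧ t = (J e v : EReal)} with hS
  have hne : S.Nonempty := ⟨_, w, hw, rfl⟩
  obtain ⟨t, -, ht, hmem⟩ := exists_seq_tendsto_sSup hne (OrderTop.bddAbove S)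
  choose v hv htv using hmem
  obtain ⟨u, φ, hφ, hl⟩ := exists_subseq_ptwise (fun k => (hv k).lip) (fun k => (hv k).bd)
  refine ⟨u, Cls.lim hp (fun k => hv (φ k)) hl, fun v' hv' => ?_⟩
  have h1 := J_tendsto (fun k => hv (φ k)) hl e
  have h2 : Tendsto (fun k => t (φ k)) atTop (𝓝 (J e u : EReal)) := by
    simp only [htv]
    exact EReal.tendsto_coe.2 h1
  have h3 : sSup S = (J e u : EReal) := tendsto_nhds_unique (ht.comp hφ.tendsto_atTop) h2
  have h4 : (J e v' : EReal) ≤ sSup S := le_sSup ⟨v', hv', rfl⟩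
  rw [h3] at h4
  exact EReal.coe_le_coe_iff.1 h4

/-- symmetrization: the zeros on the spheres can be moved to a ray -/
lemma exists_sym {p : ℝ} (hp : 1 < p) {L : ℝ≥0} {M R c d : ℝ} (hd : 0 < d) {A : ℝ≥0∞} {w : V → ℝ}
    (hw : Cls p L M R c d A w) {e : V} (he : ‖e‖ = 1) :
    ∃ u, Cls p L M R c d A u ∧ ∀ r, d ≤ r → u (-(r • e)) = 0 := by
  obtain ⟨u, hu, hmax⟩ := exists_J_max hp hw e
  refine ⟨u, hu, fun r hr => ?_⟩
  obtain ⟨y, hy, hy0⟩ := hu.sph r hr
  have hr0 : 0 < r := hd.trans_le hr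
  by_cases hyy : y = -(r • e)
  · rw [← hyy, hy0]
  have hn : ‖y‖ = ‖-(r • e)‖ := by rw [norm_neg, norm_smul, he, hy, Real.norm_eq_abs, abs_of_pos hr0, mul_one]
  set ν : V := y - -(r • e) with hν
  have hν0 : 0 < ‖ν‖ ^ 2 := by
    have : ν ≠ 0 := sub_ne_zero.2 hyy
    positivity
  have hsw : sg ν y = -(r • e) := Submodule.reflection_sub hn
  have e1 : inner ℝ ν e = inner ℝ y e + r := by
    rw [hν, sub_neg_eq_add, inner_add_left, real_inner_smul_left, real_inner_self_eq_norm_sq, he]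
    ring
  have e2 : inner ℝ ν y = r * (inner ℝ y e + r) := by
    rw [hν, sub_neg_eq_add, inner_add_left, real_inner_smul_left, real_inner_self_eq_norm_sq, hy,
      real_inner_comm]
    ring
  have e3 : ‖ν‖ ^ 2 = 2 * r * (inner ℝ y e + r) := by
    rw [hν, sub_neg_eq_add, norm_add_sq_real, real_inner_smul_right, norm_smul, he, hy,
      Real.norm_eq_abs, abs_of_pos hr0]
    ring
  have hpos : 0 < inner ℝ y e + r := by
    by_contra hcon
    nlinarith [mul_nonneg hr0.le (neg_nonneg.2 (not_lt.1 hcon))]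
  have := le_of_J_pol_le hu.lip hu.cs (ν := ν) (e := e) (by rw [e1]; exact hpos)
    (hmax _ (hu.pol ν)) (y := y) (by rw [e2]; positivity)
  rw [hsw, hy0] at this
  exact le_antisymm this (hu.nn _)

end Pool.Agent.H411Z.HM
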