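import Mathlib
import Pool.Agent.H411Z.HM.Sym
import Pool.Agent.H411Z.HM.Bridge

set_option autoImplicit false
set_option linter.unusedSectionVars false
set_option linter.unusedVariables false

open Set Filter Topology MeasureTheory Metric
open scoped ContDiff NNReal ENNReal

namespace Pool.Agent.H411Z.HM

lemma exists_mem_frontier {X : Type*} [TopologicalSpace X] {Ω s : Set X} (hΩ : IsOpen Ω)
    (hs : IsPreconnected s) {x y : X} (hx : x ∈ s) (hxΩ : x ∈ Ω) (hy : y ∈ s) (hyΩ : y ∉ Ω) :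
    ∃ a ∈ s, a ∈ frontier Ω := by
  by_contra hcon
  push Not at hcon
  apply hyΩ
  apply hs.subset_of_closure_inter_subset hΩ ⟨x, hx, hxΩ⟩ _ hy
  rintro a ⟨ha1, ha2⟩
  by_contra ha
  exact hcon a ha2 (by rw [hΩ.frontier_eq]; exact ⟨ha1, ha⟩)

lemma exists_far_frontier {n : ℕ} {Ω : Set (E n)} (hΩ : IsOpen Ω) (hb : Bornology.IsBounded Ω)
    {x e : E n} (he : ‖e‖ = 1) {r : ℝ} (hx : x + r • e ∈ Ω) :
    ∃ t, r < t ∧ x + t • e ∈ frontier Ω := by
  obtain ⟨R, hR⟩ := hb.subset_closedBall x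
  have hs : IsPreconnected ((fun t : ℝ => x + t • e) '' Ici r) :=
    isPreconnected_Ici.image _ (by fun_prop)
  obtain ⟨a, ⟨t, ht, rfl⟩, ha⟩ := exists_mem_frontier hΩ hs (x := x + r • e)
    (y := x + (|r| + |R| + 1) • e) ⟨r, le_refl r, rfl⟩ hx
    ⟨|r| + |R| + 1, by
      have := le_abs_self r
      have := abs_nonneg R
      simp only [mem_Ici]; linarith, rfl⟩ (by
      intro h
      have := hR h
      rw [mem_closedBall, dist_eq_norm, add_sub_cancel_left, norm_smul, he, mul_one,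
        Real.norm_eq_abs, abs_of_pos (by positivity)] at this
      have := le_abs_self R
      have := abs_nonneg r
      linarith)
  refine ⟨t, lt_of_le_of_ne ht ?_, ha⟩
  rintro rfl
  rw [hΩ.frontier_eq] at ha
  exact ha.2 hx

lemma compl_nonempty_of_bounded {m : ℕ} {Ω : Set (E (m + 1))} (hb : Bornology.IsBounded Ω) :
    Ωᶜ.Nonempty := by
  rw [nonempty_compl]
  rintro rfl
  exact NormedSpace.unbounded_univ ℝ (E (m + 1)) hb

lemma sphere_meets {m : ℕ} {Ω : Set (E (m + 1))} (hΩ : IsOpen Ω) (hb : Bornology.IsBounded Ω)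
    (hs : Nonempty (frontier Ω ≃ₜ sphere (0 : E (m + 1)) 1)) {x : E (m + 1)} (hx : x ∈ Ω) {r : ℝ}
    (hr : infDist x Ωᶜ ≤ r) : ∃ y, y ∉ Ω ∧ dist y x = r := by
  by_contra hcon
  push Not at hcon
  have hin : ∀ y, dist y x = r → y ∈ Ω := fun y hy => by
    by_contra h
    exact hcon y h hy
  have hne := compl_nonempty_of_bounded hb
  have hd := infDist_pos hΩ hne hx
  have hr0 : 0 < r := hd.trans_le hr
  obtain ⟨y0, hy0, hy0d⟩ := hΩ.isClosed_compl.exists_infDist_eq_dist hne x
  obtain ⟨a, ha, haf⟩ := exists_mem_frontier hΩ (convex_closedBall x r).isPreconnected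
    (mem_closedBall_self hr0.le) hx (y := y0)
    (by rw [mem_closedBall, dist_comm, ← hy0d]; exact hr) hy0
  have hfr : ∀ z ∈ frontier Ω, z ∉ Ω := fun z hz => by
    rw [hΩ.frontier_eq] at hz
    exact hz.2
  have har : dist a x < r := lt_of_le_of_ne ha (hcon a (hfr a haf))
  set e : E (m + 1) := EuclideanSpace.single (Fin.last m) 1 with he
  have hen : ‖e‖ = 1 := by simp [he]
  have hd1 : ∀ (t : ℝ) (f : E (m + 1)), ‖f‖ = 1 → 0 < t → dist (x + t • f) x = t := by
    intro t f hf ht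
    rw [dist_eq_norm, add_sub_cancel_left, norm_smul, hf, mul_one, Real.norm_eq_abs, abs_of_pos ht]
  obtain ⟨t1, ht1, hb1⟩ := exists_far_frontier hΩ hb hen (hin _ (hd1 r e hen hr0))
  obtain ⟨h⟩ := hs
  rcases Nat.eq_zero_or_pos m with rfl | hm
  · have hen' : ‖-e‖ = 1 := by rw [norm_neg, hen]
    obtain ⟨t2, ht2, hb2⟩ := exists_far_frontier hΩ hb hen' (hin _ (hd1 r (-e) hen' hr0))
    have hsq : ∀ z : sphere (0 : E (0 + 1)) 1, z.1 0 = 1 ∨ z.1 0 = -1 := by
      intro z
      have h1 : ‖z.1‖ = 1 := by simpa using z.2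
      rw [EuclideanSpace.norm_eq, Real.sqrt_eq_one, Fin.sum_univ_succ] at h1
      simp only [Finset.univ_eq_empty, Finset.sum_empty, add_zero, Real.norm_eq_abs, sq_abs] at h1
      exact sq_eq_one_iff.1 h1
    have hinj : ∀ z w : frontier Ω, (h z).1 0 = (h w).1 0 → z.1 = w.1 := by
      intro z w hzw
      have : h z = h w := by
        apply Subtype.ext
        ext i
        have : i = 0 := Fin.eq_zero i
        rw [this, hzw]
      rw [h.injective this]
    have n1 : a ≠ x + t1 • e := by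
      intro h1
      rw [h1, hd1 t1 e hen (by linarith)] at har
      linarith
    have n2 : a ≠ x + t2 • (-e) := by
      intro h1
      rw [h1, hd1 t2 (-e) hen' (by linarith)] at har
      linarith
    have n3 : x + t1 • e ≠ x + t2 • (-e) := by
      intro h1
      have h2 : (t1 + t2) • e = 0 := by
        rw [add_smul]
        rw [smul_neg] at h1
        have := add_left_cancel h1
        rw [this]; simp
      have h3 := congrArg norm h2
      rw [norm_smul, hen, norm_zero, mul_one, Real.norm_eq_abs, abs_eq_zero] at h3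
      linarith
    rcases hsq (h ⟨a, haf⟩) with k1 | k1 <;> rcases hsq (h ⟨_, hb1⟩) with k2 | k2 <;>
      rcases hsq (h ⟨_, hb2⟩) with k3 | k3
    all_goals first
      | exact n1 (hinj ⟨a, haf⟩ ⟨_, hb1⟩ (k1.trans k2.symm))
      | exact n2 (hinj ⟨a, haf⟩ ⟨_, hb2⟩ (k1.trans k3.symm))
      | exact n3 (hinj ⟨_, hb1⟩ ⟨_, hb2⟩ (k2.trans k3.symm))
  · have hrank : 1 < Module.rank ℝ (E (m + 1)) := by
      rw [← Module.finrank_eq_rank, finrank_euclideanSpace_fin]
      exact_mod_cast (by omega : 1 < m + 1)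
    have hc : IsPreconnected (sphere (0 : E (m + 1)) 1) :=
      (isConnected_sphere hrank 0 zero_le_one).isPreconnected
    have hc' : IsPreconnected (frontier Ω) := by
      rw [isPreconnected_iff_preconnectedSpace] at hc ⊢
      exact h.symm.surjective.denseRange.preconnectedSpace h.symm.continuous
    have hiv := hc'.intermediate_value haf hb1 (f := fun z => dist z x) (by fun_prop)
    obtain ⟨z, hz, hzr⟩ := hiv (show r ∈ Icc (dist a x) (dist (x + t1 • e) x) from
      ⟨har.le, by rw [hd1 t1 e hen (by linarith)]; exact ht1.le⟩)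
    exact hcon z (hfr z hz) hzr

lemma notMem_cone_pi {m : ℕ} {z : E (m + 1)} :
    z ∉ cone m Real.pi ↔ ∃ t : ℝ, 0 ≤ t ∧ z = -(t • EuclideanSpace.single (Fin.last m) 1) := by
  set e : E (m + 1) := EuclideanSpace.single (Fin.last m) 1 with he
  have hen : ‖e‖ = 1 := by simp [he]
  have hz : z (Fin.last m) = inner ℝ e z := by simp [he, EuclideanSpace.inner_single_left]
  simp only [cone, mem_ofPred_eq, Real.cos_pi, not_lt, hz]
  constructor
  · intro h
    refine ⟨‖z‖, norm_nonneg _, ?_⟩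
    rw [eq_neg_iff_add_eq_zero, ← norm_eq_zero, ← sq_eq_zero_iff]
    apply le_antisymm _ (sq_nonneg _)
    rw [norm_add_sq_real, real_inner_smul_right, norm_smul, hen, norm_norm, real_inner_comm]
    nlinarith [mul_le_mul_of_nonneg_left h (norm_nonneg z)]
  · rintro ⟨t, ht, rfl⟩
    rw [inner_neg_right, real_inner_smul_right, real_inner_self_eq_norm_sq, norm_neg, norm_smul, hen,
      Real.norm_eq_abs, abs_of_nonneg ht]
    linarith

lemma isOpen_cone (m : ℕ) (φ : ℝ) : IsOpen (cone m φ) :=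
  isOpen_lt (by fun_prop) (by fun_prop)

lemma infDist_cone_pi {m : ℕ} {d : ℝ} (hd : 0 ≤ d) :
    infDist (d • EuclideanSpace.single (Fin.last m) (1 : ℝ) : E (m + 1)) (cone m Real.pi)ᶜ = d := by
  set e : E (m + 1) := EuclideanSpace.single (Fin.last m) 1 with he
  have hen : ‖e‖ = 1 := by simp [he]
  have h0 : (0 : E (m + 1)) ∈ (cone m Real.pi)ᶜ := notMem_cone_pi.2 ⟨0, le_rfl, by simp⟩
  apply le_antisymm
  · refine (infDist_le_dist_of_mem h0).trans ?_
    rw [dist_zero_right, norm_smul, hen, mul_one, Real.norm_eq_abs, abs_of_nonneg hd]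
  · rw [le_infDist ⟨0, h0⟩]
    intro z hz
    obtain ⟨t, ht, rfl⟩ := notMem_cone_pi.1 hz
    rw [dist_eq_norm, sub_neg_eq_add, ← add_smul, norm_smul, hen, mul_one, Real.norm_eq_abs,
      abs_of_nonneg (by linarith)]
    linarith

theorem lam_cone_le {m : ℕ} {p : ℝ} (hp : 1 < p) {Ω : Set (E (m + 1))} (hΩ : IsOpen Ω)
    (hb : Bornology.IsBounded Ω)
    (hs : ∀ x ∈ Ω, ∀ r, infDist x Ωᶜ ≤ r → ∃ y, y ∉ Ω ∧ dist y x = r) :
    lam p (cone m Real.pi) ≤ lam p Ω := by
  have hp0 : 0 < p := by linarith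
  have hne := compl_nonempty_of_bounded hb
  refine le_lam hp0 hΩ hne fun u G h x hx => mul_rat_le_of_lip hp hb ?_ h
  intro w L hw hw0 hwΩ
  set e : E (m + 1) := EuclideanSpace.single (Fin.last m) 1 with he
  have hen : ‖e‖ = 1 := by simp [he]
  set d := infDist x Ωᶜ with hd
  have hd0 : 0 < d := infDist_pos hΩ hne hx
  obtain ⟨R, hR⟩ := hb.subset_ball x
  have hcs : ∀ z : E (m + 1), R ≤ ‖z‖ → w (z + x) = 0 := by
    intro z hz
    apply hwΩ
    intro hzΩ
    have := hR hzΩ
    rw [mem_ball, dist_eq_norm, add_sub_cancel_right] at this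
    linarith
  have hl1 : LipschitzWith L fun z => w (z + x) := by
    apply LipschitzWith.of_dist_le_mul
    intro a b
    have := hw.dist_le_mul (a + x) (b + x)
    rwa [dist_add_right] at this
  obtain ⟨M, hM⟩ := hl1.continuous.bounded_above_of_compact_support (cs_of_zero hcs)
  have hcls : Cls p L M R (w x) d (En p (fderiv ℝ w)) (fun z => w (z + x)) := by
    refine ⟨hl1, fun z => hw0 _, hM, hcs, by simp, fun r hr => ?_, (en_translate p w x).le⟩
    obtain ⟨y, hy, hyr⟩ := hs x hx r hr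
    exact ⟨y - x, by rw [← dist_eq_norm, hyr], by simpa using hwΩ y hy⟩
  obtain ⟨v, hv, hv0⟩ := exists_sym hp hd0 hcls hen
  have hl2 : LipschitzWith L fun z => v (z + -(d • e)) := by
    apply LipschitzWith.of_dist_le_mul
    intro a b
    have := hv.lip.dist_le_mul (a + -(d • e)) (b + -(d • e))
    rwa [dist_add_right] at this
  have hmem : d • e ∈ cone m Real.pi := by
    by_contra hcon
    have h1 := infDist_zero_of_mem (s := (cone m Real.pi)ᶜ) hcon
    rw [he, infDist_cone_pi hd0.le] at h1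
    exact hd0.ne' h1
  have hz : ∀ y, y ∉ cone m Real.pi → v (y + -(d • e)) = 0 := by
    intro y hy
    obtain ⟨t, ht, rfl⟩ := notMem_cone_pi.1 hy
    rw [← neg_add, ← he, ← add_smul]
    exact hv0 _ (by linarith)
  have key := lam_mul_rat_le_lip hp0 (isOpen_cone m Real.pi)
    ⟨0, notMem_cone_pi.2 ⟨0, le_rfl, by simp⟩⟩ hl2 hz hmem
  rw [en_translate] at key
  refine le_trans (le_of_eq ?_) (key.trans hv.en)
  simp only [rat, add_neg_cancel, hv.val]
  rw [he, infDist_cone_pi hd0.le]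

end Pool.Agent.H411Z.HM
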